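import Pool.Agent.H951R3.PH.Defs

/-! PH, task A1 (helper930): algebra of leading terms. -/

set_option autoImplicit false

namespace Pool.Agent.H951R3.PH

open Real NumberField Polynomial

universe u

section algebra

variable {K : Type u} [Field K] {A : Type*} [CommRing A] [Algebra K A]

theorem fs_mono {x y : A} {m n : ℕ} (h : m ≤ n) : Fs K x y m ≤ Fs K x y n := by
  apply Submodule.span_mono
  rintro f ⟨a, b, hab, rfl⟩
  exact ⟨a, b, by omega, rfl⟩

theorem a1_mon {x y : A} {a b n : ℕ} (h : a + b < n) : x ^ a * y ^ b ∈ Fs K x y n :=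
  Submodule.subset_span ⟨a, b, h, rfl⟩

theorem a1_mul {x y f g : A} {m n : ℕ} (hf : f ∈ Fs K x y m) (hg : g ∈ Fs K x y (n + 1)) :
    f * g ∈ Fs K x y (m + n) := by
  have h1 : f * g ∈ Fs K x y m * Fs K x y (n + 1) := Submodule.mul_mem_mul hf hg
  unfold Fs at h1
  rw [Submodule.span_mul_span] at h1
  refine Submodule.span_mono ?_ h1
  rw [Set.mul_subset_iff]
  rintro f ⟨a, b, hab, rfl⟩ g ⟨a', b', hab', rfl⟩
  refine ⟨a + a', b + b', by omega, ?_⟩
  rw [pow_add, pow_add]
  ring

theorem fs_mul {x y f g : A} {m n : ℕ} (hf : f ∈ Fs K x y (m + 1)) (hg : g ∈ Fs K x y (n + 1)) :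
    f * g ∈ Fs K x y (m + n + 1) := by
  have h := a1_mul hf hg
  have h2 : m + 1 + n = m + n + 1 := by omega
  rwa [h2] at h

theorem lt_mem {x y f : A} {c : K} {a b : ℕ} (h : LT K x y f c a b) :
    f ∈ Fs K x y (a + b + 1) := by
  have h1 : f = (f - c • (x ^ a * y ^ b)) + c • (x ^ a * y ^ b) := by ring
  rw [h1]
  exact Submodule.add_mem _ (fs_mono (by omega) h)
    (Submodule.smul_mem _ _ (a1_mon (by omega)))

theorem lt_mul {x y f g : A} {c c' : K} {a b a' b' : ℕ} (h : LT K x y f c a b)
    (h' : LT K x y g c' a' b') : LT K x y (f * g) (c * c') (a + a') (b + b') := by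
  have h1 : f * g - (c * c') • (x ^ (a + a') * y ^ (b + b')) =
      (f - c • (x ^ a * y ^ b)) * g +
        (g - c' • (x ^ a' * y ^ b')) * (c • (x ^ a * y ^ b)) := by
    rw [pow_add, pow_add]
    simp only [Algebra.smul_def, map_mul]
    ring
  unfold LT
  rw [h1]
  apply Submodule.add_mem
  · have h2 := a1_mul h (lt_mem h')
    have h3 : a + b + (a' + b') = a + a' + (b + b') := by omega
    rwa [h3] at h2
  · have h2 := a1_mul h' (n := a + b)
      (Submodule.smul_mem _ c (a1_mon (K := K) (x := x) (y := y) (a := a) (b := b) (by omega)))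
    have h3 : a' + b' + (a + b) = a + a' + (b + b') := by omega
    rwa [h3] at h2

theorem lt_one (x y : A) : LT K x y 1 1 0 0 := by
  unfold LT
  rw [pow_zero, pow_zero, mul_one, one_smul, sub_self]
  exact Submodule.zero_mem _

theorem lt_pow {x y f : A} {c : K} {a b : ℕ} (h : LT K x y f c a b) (n : ℕ) :
    LT K x y (f ^ n) (c ^ n) (n * a) (n * b) := by
  induction n with
  | zero =>
    rw [pow_zero, pow_zero, zero_mul, zero_mul]
    exact lt_one x y
  | succ n ih =>
    rw [pow_succ, pow_succ, Nat.succ_mul, Nat.succ_mul]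
    exact lt_mul ih h

theorem lt_smul {x y f : A} {c : K} {a b : ℕ} (h : LT K x y f c a b) (e : K) :
    LT K x y (e • f) (e * c) a b := by
  unfold LT
  rw [mul_smul, ← smul_sub]
  exact Submodule.smul_mem _ _ h

theorem lt_add {x y f g : A} {c : K} {a b : ℕ} (h : LT K x y f c a b)
    (hg : g ∈ Fs K x y (a + b)) : LT K x y (g + f) c a b := by
  unfold LT
  rw [add_sub_assoc]
  exact Submodule.add_mem _ hg h

theorem lt_aeval {F : K[X]} {d : ℕ} (hd : 1 ≤ d) (hF : F.natDegree = d) {x y f : A} {c : K}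
    {a b : ℕ} (hab : 1 ≤ a + b) (h : LT K x y f c a b) :
    LT K x y (aeval f F) (F.coeff d * c ^ d) (d * a) (d * b) := by
  rw [aeval_eq_sum_range, hF, Finset.sum_range_succ]
  apply lt_add (lt_smul (lt_pow h d) _)
  apply Submodule.sum_mem
  intro j hj
  rw [Finset.mem_range] at hj
  apply Submodule.smul_mem
  refine fs_mono ?_ (lt_mem (lt_pow h j))
  have h1 : (j + 1) * (a + b) ≤ d * (a + b) := Nat.mul_le_mul_right _ hj
  have h2 : (j + 1) * (a + b) = j * a + j * b + (a + b) := by ring
  have h3 : d * (a + b) = d * a + d * b := by ring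
  omega

theorem lt_trans' (x y : A) (s t : K) (a b : ℕ) :
    LT K x y ((x - algebraMap K A s) ^ a * (y - algebraMap K A t) ^ b) 1 a b := by
  have hx : LT K x y (x - algebraMap K A s) 1 1 0 := by
    unfold LT
    have h1 : x - algebraMap K A s - (1 : K) • (x ^ 1 * y ^ 0) = (-s) • (x ^ 0 * y ^ 0) := by
      rw [Algebra.smul_def, Algebra.smul_def, map_neg, map_one]
      ring
    rw [h1]
    exact Submodule.smul_mem _ _ (a1_mon (by omega))
  have hy : LT K x y (y - algebraMap K A t) 1 0 1 := by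
    unfold LT
    have h1 : y - algebraMap K A t - (1 : K) • (x ^ 0 * y ^ 1) = (-t) • (x ^ 0 * y ^ 0) := by
      rw [Algebra.smul_def, Algebra.smul_def, map_neg, map_one]
      ring
    rw [h1]
    exact Submodule.smul_mem _ _ (a1_mon (by omega))
  have h := lt_mul (lt_pow hx a) (lt_pow hy b)
  rw [one_pow, one_pow, mul_one, mul_one, mul_one, mul_zero, mul_zero, add_zero, zero_add] at h
  exact h

end algebra

end Pool.Agent.H951R3.PH
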