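import Pool.Agent.H951R3.PH.A1

/-! PH, task A2 (helper930): leading terms of orbit coordinates. -/

set_option autoImplicit false

namespace Pool.Agent.H951R3.PH

open Real NumberField Polynomial

universe u

section algebra

variable {K : Type u} [Field K] {A : Type*} [CommRing A] [Algebra K A]

theorem a2_pow {d : ℕ} (hd : 2 ≤ d) (k : ℕ) : d ^ k + 1 ≤ d * d ^ k := by
  have h1 : 1 ≤ d ^ k := Nat.one_le_pow _ _ (by omega)
  have h2 : 2 * d ^ k ≤ d * d ^ k := Nat.mul_le_mul_right _ hd
  omega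

theorem lt_fwd {F : K[X]} {d : ℕ} (hd : 2 ≤ d) (hF : F.natDegree = d) {δ : K} {x : ℤ → A}
    (hx : Orb F δ x) (k : ℕ) :
    LT K (x 0) (x 1) (x (1 + k)) (F.coeff d ^ ex d k) 0 (d ^ k) := by
  suffices h : LT K (x 0) (x 1) (x (1 + k)) (F.coeff d ^ ex d k) 0 (d ^ k) ∧
      x k ∈ Fs K (x 0) (x 1) (d ^ k + 1) from h.1
  induction k with
  | zero =>
    constructor
    · unfold LT
      have h1 : (1 : ℤ) + ((0 : ℕ) : ℤ) = 1 := by norm_num
      have h2 : ex d 0 = 0 := rfl
      rw [h1, h2, pow_zero, pow_zero, pow_zero, pow_one, one_smul, one_mul, sub_self]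
      exact Submodule.zero_mem _
    · have h1 : x ((0 : ℕ) : ℤ) = x 0 ^ 1 * x 1 ^ 0 := by
        rw [pow_one, pow_zero, mul_one]
        rfl
      rw [h1]
      exact a1_mon (by rw [pow_zero]; omega)
  | succ k ih =>
    obtain ⟨ih1, ih2⟩ := ih
    constructor
    · have h1 := hx (1 + k)
      have h2 : (1 : ℤ) + ((k + 1 : ℕ) : ℤ) = 1 + k + 1 := by push_cast; ring
      have h3 : (1 : ℤ) + k - 1 = k := by ring
      rw [h3] at h1
      have h4 : x (1 + k + 1) = (-δ) • x k + aeval (x (1 + k)) F := by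
        rw [← h1, neg_smul]
        ring
      rw [h2, h4]
      have h5 := lt_aeval (K := K) (by omega : 1 ≤ d) hF (by
        rw [zero_add]
        exact Nat.one_le_pow _ _ (by omega)) ih1
      have h6 : F.coeff d * (F.coeff d ^ ex d k) ^ d = F.coeff d ^ ex d (k + 1) := by
        have h7 : ex d (k + 1) = d * ex d k + 1 := rfl
        rw [h7, ← pow_mul, mul_comm (ex d k), pow_succ, mul_comm]
      rw [h6, mul_zero, ← pow_succ'] at h5
      apply lt_add h5
      apply Submodule.smul_mem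
      apply fs_mono _ ih2
      rw [zero_add, pow_succ']
      exact a2_pow hd k
    · have h2 : ((k + 1 : ℕ) : ℤ) = 1 + k := by push_cast; ring
      rw [h2]
      refine fs_mono ?_ (lt_mem ih1)
      rw [zero_add, pow_succ']
      have := a2_pow hd k
      omega

theorem lt_bwd {F : K[X]} {d : ℕ} (hd : 2 ≤ d) (hF : F.natDegree = d) {δ : K} (hδ : δ ≠ 0)
    {x : ℤ → A} (hx : Orb F δ x) (k : ℕ) :
    LT K (x 0) (x 1) (x (-k)) ((F.coeff d / δ) ^ ex d k) (d ^ k) 0 := by
  suffices h : LT K (x 0) (x 1) (x (-k)) ((F.coeff d / δ) ^ ex d k) (d ^ k) 0 ∧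
      x (-k + 1) ∈ Fs K (x 0) (x 1) (d ^ k + 1) from h.1
  induction k with
  | zero =>
    constructor
    · unfold LT
      have h1 : -((0 : ℕ) : ℤ) = 0 := by norm_num
      have h2 : ex d 0 = 0 := rfl
      rw [h1, h2, pow_zero, pow_zero, pow_zero, pow_one, one_smul, mul_one, sub_self]
      exact Submodule.zero_mem _
    · have h1 : x (-((0 : ℕ) : ℤ) + 1) = x 0 ^ 0 * x 1 ^ 1 := by
        rw [pow_one, pow_zero, one_mul]
        congr 1
      rw [h1]
      exact a1_mon (by rw [pow_zero]; omega)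
  | succ k ih =>
    obtain ⟨ih1, ih2⟩ := ih
    constructor
    · have h1 := hx (-k)
      have h2 : -((k + 1 : ℕ) : ℤ) = -k - 1 := by push_cast; ring
      have h4 : x (-k - 1) = δ⁻¹ • ((-1 : K) • x (-k + 1) + aeval (x (-k)) F) := by
        rw [← h1, neg_smul, one_smul]
        have h5 : -x (-(k : ℤ) + 1) + (x (-(k : ℤ) + 1) + δ • x (-(k : ℤ) - 1)) =
            δ • x (-(k : ℤ) - 1) := by ring
        rw [h5, smul_smul, inv_mul_cancel₀ hδ, one_smul]
      rw [h2, h4]
      have h5 := lt_aeval (K := K) (by omega : 1 ≤ d) hF (by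
        rw [add_zero]
        exact Nat.one_le_pow _ _ (by omega)) ih1
      have h6 : δ⁻¹ * (F.coeff d * ((F.coeff d / δ) ^ ex d k) ^ d) =
          (F.coeff d / δ) ^ ex d (k + 1) := by
        have h7 : ex d (k + 1) = d * ex d k + 1 := rfl
        rw [h7, ← pow_mul, mul_comm (ex d k), pow_succ, div_eq_mul_inv]
        ring
      rw [← h6]
      rw [mul_zero, ← pow_succ'] at h5
      apply lt_smul
      apply lt_add h5
      apply Submodule.smul_mem
      apply fs_mono _ ih2
      rw [add_zero, pow_succ']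
      exact a2_pow hd k
    · have h2 : -((k + 1 : ℕ) : ℤ) + 1 = -k := by push_cast; ring
      rw [h2]
      refine fs_mono ?_ (lt_mem ih1)
      rw [add_zero, pow_succ']
      have := a2_pow hd k
      omega

end algebra

end Pool.Agent.H951R3.PH
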