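import Pool.Agent.H951R3.PH.Defs

/-! PH, task A3 (helper930): digits. -/

set_option autoImplicit false

namespace Pool.Agent.H951R3.PH

open Real NumberField Polynomial

theorem a3_ex {d : ℕ} (hd : 2 ≤ d) (k : ℕ) : (d - 1) * ex d k + 1 = d ^ k := by
  induction k with
  | zero => rfl
  | succ k ih =>
    have h1 : ex d (k + 1) = d * ex d k + 1 := rfl
    rw [h1, pow_succ', ← ih]
    obtain ⟨e, rfl⟩ : ∃ e, d = e + 1 := ⟨d - 1, by omega⟩
    rw [Nat.add_sub_cancel]
    ring

theorem a3_sum {d : ℕ} (hd : 2 ≤ d) (ks : Multiset ℕ) :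
    (d - 1) * (ks.map (ex d)).sum + ks.card = (ks.map (fun k => d ^ k)).sum := by
  induction ks using Multiset.induction_on with
  | empty => simp
  | cons a s ih =>
    rw [Multiset.map_cons, Multiset.sum_cons, Multiset.map_cons, Multiset.sum_cons,
      Multiset.card_cons, ← ih, ← a3_ex hd a]
    ring

theorem digits {d : ℕ} (hd : 2 ≤ d) (n : ℕ) : ∃ ks : Multiset ℕ,
    (ks.map (fun k => d ^ k)).sum = n ∧ ks.card ≤ (d - 1) * (Nat.log d n + 1) ∧
      (d - 1) * (ks.map (ex d)).sum + ks.card = n := by
  suffices h : ∃ ks : Multiset ℕ, (ks.map (fun k => d ^ k)).sum = n ∧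
      ks.card ≤ (d - 1) * (Nat.log d n + 1) by
    obtain ⟨ks, h1, h2⟩ := h
    exact ⟨ks, h1, h2, (a3_sum hd ks).trans h1⟩
  induction n using Nat.strong_induction_on with
  | _ n ih =>
    rcases Nat.lt_or_ge n d with hn | hn
    · refine ⟨Multiset.replicate n 0, ?_, ?_⟩
      · rw [Multiset.map_replicate, Multiset.sum_replicate, pow_zero, smul_eq_mul, mul_one]
      · rw [Multiset.card_replicate]
        calc n ≤ (d - 1) * 1 := by omega
          _ ≤ (d - 1) * (Nat.log d n + 1) := Nat.mul_le_mul_left _ (by omega)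
    · obtain ⟨ks, h1, h2⟩ := ih (n / d) (Nat.div_lt_self (by omega) (by omega))
      refine ⟨Multiset.replicate (n % d) 0 + ks.map (fun k => k + 1), ?_, ?_⟩
      · rw [Multiset.map_add, Multiset.sum_add, Multiset.map_replicate, Multiset.sum_replicate,
          pow_zero, smul_eq_mul, mul_one, Multiset.map_map]
        have h3 : (ks.map ((fun k => d ^ k) ∘ (fun k => k + 1))).sum =
            d * (ks.map (fun k => d ^ k)).sum := by
          rw [← Multiset.sum_map_mul_left]
          congr 1
          apply Multiset.map_congr rfl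
          intro k _
          exact pow_succ' d k
        rw [h3, h1]
        exact Nat.mod_add_div n d
      · rw [Multiset.card_add, Multiset.card_replicate, Multiset.card_map,
          Nat.log_of_one_lt_of_le (by omega) hn]
        have h3 := Nat.mod_lt n (show 0 < d by omega)
        have h4 : (d - 1) * (Nat.log d (n / d) + 1 + 1) =
            (d - 1) * (Nat.log d (n / d) + 1) + (d - 1) := by ring
        rw [h4]
        omega

end Pool.Agent.H951R3.PH
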