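import Pool.Agent.H951R3.PH.A2
import Pool.Agent.H951R3.PH.A3

/-! PH, task A4 (helper930): functions with prescribed leading monomial and small values. -/

set_option autoImplicit false

namespace Pool.Agent.H951R3.PH

open Real NumberField Polynomial

universe u

theorem a4_lt {K : Type u} [Field K] {A : Type*} [CommRing A] [Algebra K A] (x y : A)
    (f : ℕ → A) (c : K) (e g h : ℕ → ℕ) (hf : ∀ k, LT K x y (f k) (c ^ e k) (g k) (h k))
    (ks : Multiset ℕ) :
    LT K x y (ks.map f).prod (c ^ (ks.map e).sum) (ks.map g).sum (ks.map h).sum := by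
  induction ks using Multiset.induction_on with
  | empty =>
    rw [Multiset.map_zero, Multiset.map_zero, Multiset.map_zero, Multiset.map_zero,
      Multiset.prod_zero, Multiset.sum_zero, pow_zero]
    exact lt_one x y
  | cons a s ih =>
    rw [Multiset.map_cons, Multiset.map_cons, Multiset.map_cons, Multiset.map_cons,
      Multiset.prod_cons, Multiset.sum_cons, Multiset.sum_cons, Multiset.sum_cons, pow_add]
    exact lt_mul (hf a) ih

theorem a4_val {K : Type u} [Field K] {N : ℕ} (f : ℕ → Fin N → K) (v : AbsoluteValue K ℝ)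
    (M : ℝ) (h : ∀ n i, v (f n i) ≤ M) (i : Fin N) (ks : Multiset ℕ) :
    v ((ks.map f).prod i) ≤ M ^ ks.card := by
  have hM : 0 ≤ M := (v.nonneg _).trans (h 0 i)
  induction ks using Multiset.induction_on with
  | empty =>
    rw [Multiset.map_zero, Multiset.prod_zero, Multiset.card_zero, pow_zero, Pi.one_apply,
      map_one]
  | cons a s ih =>
    rw [Multiset.map_cons, Multiset.prod_cons, Multiset.card_cons, Pi.mul_apply, map_mul,
      pow_succ']
    exact mul_le_mul (h a i) ih (v.nonneg _) hM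

theorem basis {K : Type u} [Field K] {N : ℕ} {F : K[X]} {d : ℕ} (hd : 2 ≤ d)
    (hF : F.natDegree = d) {δ : K} (hδ : δ ≠ 0) {x : ℤ → Fin N → K} (hx : Orb F δ x) (a b : ℕ) :
    ∃ (E E' s s' : ℕ) (p : Fin N → K), (d - 1) * E + s = a ∧ (d - 1) * E' + s' = b ∧
      s ≤ (d - 1) * (Nat.log d a + 1) ∧ s' ≤ (d - 1) * (Nat.log d b + 1) ∧
      LT K (x 0) (x 1) p ((F.coeff d / δ) ^ E * F.coeff d ^ E') a b ∧
      ∀ (v : AbsoluteValue K ℝ) (M : ℝ), (∀ n i, v (x n i) ≤ M) → ∀ i, v (p i) ≤ M ^ (s + s') := by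
  obtain ⟨ks, h1, h2, h3⟩ := digits hd a
  obtain ⟨ls, g1, g2, g3⟩ := digits hd b
  refine ⟨(ks.map (ex d)).sum, (ls.map (ex d)).sum, ks.card, ls.card,
    (ks.map fun k : ℕ => x (-k)).prod * (ls.map fun k : ℕ => x (1 + k)).prod, h3, g3, h2, g2, ?_, ?_⟩
  · have q1 := a4_lt (x 0) (x 1) (fun k : ℕ => x (-k)) (F.coeff d / δ) (ex d) (fun k => d ^ k)
      (fun _ => 0) (fun k => lt_bwd hd hF hδ hx k) ks
    have q2 := a4_lt (x 0) (x 1) (fun k : ℕ => x (1 + k)) (F.coeff d) (ex d) (fun _ => 0)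
      (fun k => d ^ k) (fun k => lt_fwd hd hF hx k) ls
    have q3 := lt_mul q1 q2
    rw [h1, g1, Multiset.map_const', Multiset.map_const', Multiset.sum_replicate,
      Multiset.sum_replicate, smul_zero, smul_zero, add_zero, zero_add] at q3
    exact q3
  · intro v M hM i
    rw [Pi.mul_apply, map_mul, pow_add]
    have hM0 : 0 ≤ M := (v.nonneg _).trans (hM 0 i)
    exact mul_le_mul (a4_val _ v M (fun n i => hM _ i) i ks) (a4_val _ v M (fun n i => hM _ i) i ls)
      (v.nonneg _) (pow_nonneg hM0 _)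

end Pool.Agent.H951R3.PH
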