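import Pool.Agent.H951R3.PH.Defs

/-! PH, task B1 (helper930): graded basis. -/

set_option autoImplicit false

namespace Pool.Agent.H951R3.PH

open Real NumberField Polynomial

universe u

theorem b1_update {k : Type u} [Field k] {V : Type*} [AddCommGroup V] [Module k V] {N : ℕ}
    (b : Module.Basis (Fin N) k V) (i : Fin N) (z : V) (hz : b.repr z i ≠ 0) :
    LinearIndependent k (Function.update (fun l => b l) i z) := by
  rw [Fintype.linearIndependent_iff]
  intro g hg
  have h1 : ∀ l', ∑ l, g l * b.repr (Function.update (fun l => b l) i z l) l' = 0 := by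
    intro l'
    have h2 := congrArg (fun w => b.repr w l') hg
    simp only [map_sum, map_smul, map_zero, Finsupp.coe_zero, Pi.zero_apply,
      Finsupp.coe_finsetSum, Finset.sum_apply, Finsupp.coe_smul, Pi.smul_apply, smul_eq_mul] at h2
    exact h2
  have h2 : g i = 0 := by
    have h3 := h1 i
    rw [Finset.sum_eq_single i] at h3
    · rw [Function.update_self] at h3
      exact (mul_eq_zero.1 h3).resolve_right hz
    · intro l _ hl
      rw [Function.update_of_ne hl, b.repr_self, Finsupp.single_eq_of_ne hl.symm, mul_zero]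
    · intro h
      exact absurd (Finset.mem_univ i) h
  intro l
  by_cases hl : l = i
  · rw [hl, h2]
  · have h3 := h1 l
    rw [Finset.sum_eq_single l] at h3
    · rw [Function.update_of_ne hl, b.repr_self, Finsupp.single_eq_same, mul_one] at h3
      exact h3
    · intro l' _ hl'
      by_cases hli : l' = i
      · rw [hli, h2, zero_mul]
      · rw [Function.update_of_ne hli, b.repr_self, Finsupp.single_eq_of_ne hl'.symm, mul_zero]
    · intro h
      exact absurd (Finset.mem_univ l) h

theorem graded_basis' {k : Type u} [Field k] {V : Type*} [AddCommGroup V] [Module k V]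
    [FiniteDimensional k V] {ι : Type*} (deg : ι → ℕ) (m : ι → V)
    (hs : Submodule.span k (Set.range m) = ⊤) (N : ℕ) (hN : Module.finrank k V = N) :
    ∃ e : Fin N → ι, LinearIndependent k (m ∘ e) ∧
      ∀ n, Submodule.span k {f | ∃ j, deg j < n ∧ f = m j} ≤
        Submodule.span k {f | ∃ i, deg (e i) < n ∧ f = m (e i)} := by
  classical
  have hex : ∃ e : Fin N → ι, LinearIndependent k (m ∘ e) := by
    subst hN
    obtain ⟨f, hf1, hf2, hf3⟩ := Submodule.exists_fun_fin_finrank_span_eq k (Set.range m)
    choose g hg using hf1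
    have h1 : Module.finrank k (Submodule.span k (Set.range m)) = Module.finrank k V := by
      rw [hs]
      exact finrank_top k V
    refine ⟨fun i => g (Fin.cast h1.symm i), ?_⟩
    have h2 : (m ∘ fun i => g (Fin.cast h1.symm i)) = f ∘ Fin.cast h1.symm := by
      funext i
      exact hg _
    rw [h2]
    exact hf3.comp _ (Fin.cast_injective _)
  have hex2 : ∃ s : ℕ, ∃ e : Fin N → ι, LinearIndependent k (m ∘ e) ∧ ∑ i, deg (e i) = s := by
    obtain ⟨e, he⟩ := hex
    exact ⟨_, e, he, rfl⟩
  obtain ⟨e, he, hsum⟩ := Nat.find_spec hex2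
  have hmin : ∀ e' : Fin N → ι, LinearIndependent k (m ∘ e') →
      ∑ i, deg (e i) ≤ ∑ i, deg (e' i) := by
    intro e' he'
    rw [hsum]
    exact Nat.find_min' hex2 ⟨e', he', rfl⟩
  obtain ⟨b, hb⟩ : ∃ b : Module.Basis (Fin N) k V, ⇑b = m ∘ e :=
    ⟨basisOfLinearIndependentOfCardEqFinrank' (m ∘ e) he (by rw [Fintype.card_fin, hN]),
      coe_basisOfLinearIndependentOfCardEqFinrank' _ _ _⟩
  refine ⟨e, he, fun n => ?_⟩
  rw [Submodule.span_le]
  rintro f ⟨j, hj, rfl⟩
  rw [SetLike.mem_coe, ← b.sum_repr (m j)]
  apply Submodule.sum_mem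
  intro i _
  by_cases hi : b.repr (m j) i = 0
  · rw [hi, zero_smul]
    exact Submodule.zero_mem _
  · apply Submodule.smul_mem
    rw [hb]
    apply Submodule.subset_span
    refine ⟨i, lt_of_le_of_lt ?_ hj, rfl⟩
    by_contra hc
    push Not at hc
    have h1 := b1_update b i (m j) hi
    have h2 : Function.update (fun l => b l) i (m j) = m ∘ Function.update e i j := by
      funext l
      by_cases hl : l = i
      · rw [hl, Function.update_self, Function.comp_apply, Function.update_self]
      · rw [Function.update_of_ne hl, Function.comp_apply, Function.update_of_ne hl, hb]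
        rfl
    rw [h2] at h1
    have h3 := hmin _ h1
    have h4 : ∑ l, deg (Function.update e i j l) < ∑ l, deg (e l) := by
      apply Finset.sum_lt_sum
      · intro l _
        by_cases hl : l = i
        · rw [hl, Function.update_self]
          exact hc.le
        · rw [Function.update_of_ne hl]
      · exact ⟨i, Finset.mem_univ _, by rw [Function.update_self]; exact hc⟩
    omega

theorem graded_basis {k : Type u} [Field k] {V : Type*} [AddCommGroup V] [Module k V]
    [FiniteDimensional k V] {ι : Type*} (deg : ι → ℕ) (m : ι → V)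
    (hs : Submodule.span k (Set.range m) = ⊤) :
    ∃ e : Fin (Module.finrank k V) → ι, LinearIndependent k (m ∘ e) ∧
      ∀ n, Submodule.span k {f | ∃ j, deg j < n ∧ f = m j} ≤
        Submodule.span k {f | ∃ i, deg (e i) < n ∧ f = m (e i)} :=
  graded_basis' deg m hs _ rfl

end Pool.Agent.H951R3.PH
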