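import Pool.Agent.H951R3.PH.Defs

/-! PH, task B2 (helper930): determinant identity. -/

set_option autoImplicit false

namespace Pool.Agent.H951R3.PH

open Real NumberField Polynomial

universe u

theorem b2_span {k : Type u} [Field k] {N : ℕ} (deg : Fin N → ℕ) (m : Fin N → Fin N → k) (n : ℕ)
    (f : Fin N → k) (hf : f ∈ Submodule.span k {f | ∃ j, deg j < n ∧ f = m j}) :
    ∃ a : Fin N → k, (∀ j, a j ≠ 0 → deg j < n) ∧ f = ∑ j, a j • m j := by
  classical
  induction hf using Submodule.span_induction with
  | mem f h =>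
    obtain ⟨j, hj, rfl⟩ := h
    refine ⟨Pi.single j 1, ?_, ?_⟩
    · intro l hl
      by_cases hlj : l = j
      · rw [hlj]
        exact hj
      · rw [Pi.single_eq_of_ne hlj] at hl
        exact absurd rfl hl
    · rw [Finset.sum_eq_single j]
      · rw [Pi.single_eq_same, one_smul]
      · intro l _ hl
        rw [Pi.single_eq_of_ne hl, zero_smul]
      · intro h
        exact absurd (Finset.mem_univ j) h
  | zero =>
    refine ⟨0, fun j h => absurd rfl h, ?_⟩
    rw [Finset.sum_eq_zero]
    intro j _
    exact zero_smul _ _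
  | add f g _ _ ihf ihg =>
    obtain ⟨a, ha1, ha2⟩ := ihf
    obtain ⟨b, hb1, hb2⟩ := ihg
    refine ⟨a + b, ?_, ?_⟩
    · intro j hj
      by_cases h1 : a j = 0
      · apply hb1
        intro h2
        apply hj
        rw [Pi.add_apply, h1, h2, add_zero]
      · exact ha1 j h1
    · rw [ha2, hb2, ← Finset.sum_add_distrib]
      exact Finset.sum_congr rfl fun j _ => by rw [Pi.add_apply, add_smul]
  | smul c f _ ihf =>
    obtain ⟨a, ha1, ha2⟩ := ihf
    refine ⟨c • a, ?_, ?_⟩
    · intro j hj
      apply ha1
      intro h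
      apply hj
      rw [Pi.smul_apply, h, smul_zero]
    · rw [ha2, Finset.smul_sum]
      exact Finset.sum_congr rfl fun j _ => by rw [Pi.smul_apply, smul_eq_mul, mul_smul]

theorem det_identity {k : Type u} [Field k] {N : ℕ} (deg : Fin N → ℕ) (m : Fin N → Fin N → k)
    (c : Fin N → k) (p : Fin N → Fin N → k)
    (h : ∀ i, p i - c i • m i ∈ Submodule.span k {f | ∃ j, deg j < deg i ∧ f = m j}) :
    (Matrix.of p).det = (∏ i, c i) * (Matrix.of m).det := by
  classical
  choose a ha1 ha2 using fun i => b2_span deg m (deg i) _ (h i)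
  obtain ⟨M, hM⟩ : ∃ M : Matrix (Fin N) (Fin N) k,
      M = Matrix.of (fun i j => if j = i then c i else a i j) := ⟨_, rfl⟩
  have haii : ∀ i, a i i = 0 := by
    intro i
    by_contra hc
    exact lt_irrefl _ (ha1 i i hc)
  have hp : Matrix.of p = M * Matrix.of m := by
    ext i l
    rw [Matrix.mul_apply, hM]
    simp only [Matrix.of_apply]
    have h1 : p i = c i • m i + ∑ j, a i j • m j := by
      rw [← ha2 i]
      ring
    have h2 := congrFun h1 l
    rw [Pi.add_apply, Pi.smul_apply, Finset.sum_apply, smul_eq_mul] at h2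
    rw [h2, ← Finset.add_sum_erase Finset.univ _ (Finset.mem_univ i),
      ← Finset.add_sum_erase Finset.univ _ (Finset.mem_univ i), if_pos rfl, Pi.smul_apply, haii i,
      zero_smul, zero_add]
    congr 1
    refine Finset.sum_congr rfl fun j hj => ?_
    rw [if_neg (Finset.ne_of_mem_erase hj), Pi.smul_apply, smul_eq_mul]
  have hdet : M.det = ∏ i, c i := by
    rw [Matrix.det_apply, Finset.sum_eq_single 1]
    · rw [Equiv.Perm.sign_one, one_smul]
      refine Finset.prod_congr rfl fun i _ => ?_
      rw [Equiv.Perm.one_apply, hM, Matrix.of_apply, if_pos rfl]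
    · intro σ _ hσ
      have h1 : ∏ i, M (σ i) i = 0 := by
        by_contra hc
        rw [← ne_eq, Finset.prod_ne_zero_iff] at hc
        have h2 : ∀ i, i ≠ σ i → deg i < deg (σ i) := by
          intro i hi
          have h3 := hc i (Finset.mem_univ i)
          rw [hM, Matrix.of_apply, if_neg hi] at h3
          exact ha1 _ _ h3
        obtain ⟨i, hi⟩ : ∃ i, i ≠ σ i := by
          by_contra hc2
          push Not at hc2
          exact hσ (Equiv.ext fun i => (hc2 i).symm)
        have h3 : ∑ i, deg i < ∑ i, deg (σ i) := by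
          apply Finset.sum_lt_sum
          · intro j _
            by_cases hj : j = σ j
            · rw [← hj]
            · exact (h2 j hj).le
          · exact ⟨i, Finset.mem_univ _, h2 i hi⟩
        rw [Equiv.sum_comp σ deg] at h3
        exact lt_irrefl _ h3
      rw [h1, smul_zero]
    · intro h1
      exact absurd (Finset.mem_univ _) h1
  rw [hp, Matrix.det_mul, hdet]

end Pool.Agent.H951R3.PH
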