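import Pool.Agent.H951R3.PH.A1
import Pool.Agent.H951R3.PH.B1
import Pool.Agent.H951R3.PH.B2

/-! PH, task B3 (helper930): standard monomials of `N` points. -/

set_option autoImplicit false

namespace Pool.Agent.H951R3.PH

open Real NumberField Polynomial

universe u

theorem b3_prod {K : Type u} [Field K] {A : Type*} [CommRing A] [Algebra K A] {N : ℕ} (x y : A)
    (l : Fin N → A) (s : Finset (Fin N)) (hl : ∀ i ∈ s, l i ∈ Fs K x y 2) :
    ∏ i ∈ s, l i ∈ Fs K x y (s.card + 1) := by
  classical
  induction s using Finset.induction_on with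
  | empty =>
    rw [Finset.prod_empty, Finset.card_empty]
    have h1 : (1 : A) = x ^ 0 * y ^ 0 := by rw [pow_zero, pow_zero, mul_one]
    rw [h1]
    exact a1_mon (by omega)
  | insert a s ha ih =>
    rw [Finset.prod_insert ha, Finset.card_insert_of_notMem ha]
    have h1 := fs_mul (m := 1) (hl a (Finset.mem_insert_self _ _))
      (ih fun i hi => hl i (Finset.mem_insert_of_mem hi))
    have h2 : 1 + s.card + 1 = s.card + 1 + 1 := by omega
    rwa [h2] at h1

theorem b3_top {K : Type u} [Field K] {N : ℕ} (x y : Fin N → K)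
    (h : ∀ i j, x i = x j → y i = y j → i = j) : Fs K x y N = ⊤ := by
  classical
  have hsing : ∀ j : Fin N, Pi.single j (1 : K) ∈ Fs K x y N := by
    intro j
    obtain ⟨l, hl⟩ : ∃ l : Fin N → Fin N → K, l = fun i =>
      if x i = x j then y - algebraMap K (Fin N → K) (y i) else x - algebraMap K (Fin N → K) (x i) :=
      ⟨_, rfl⟩
    have hmem : ∀ i ∈ Finset.univ.erase j, l i ∈ Fs K x y 2 := by
      intro i _
      rw [hl]
      simp only
      split_ifs
      · have h1 := lt_mem (lt_trans' x y (0 : K) (y i) 0 1)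
        rw [pow_zero, one_mul, pow_one] at h1
        exact h1
      · have h1 := lt_mem (lt_trans' x y (x i) (0 : K) 1 0)
        rw [pow_zero, mul_one, pow_one] at h1
        exact h1
    have h1 := b3_prod x y l _ hmem
    rw [Finset.card_erase_of_mem (Finset.mem_univ j), Finset.card_univ, Fintype.card_fin] at h1
    have hN : N - 1 + 1 = N := by
      have := j.2
      omega
    rw [hN] at h1
    obtain ⟨f, hf⟩ : ∃ f : Fin N → K, f = ∏ i ∈ Finset.univ.erase j, l i := ⟨_, rfl⟩
    rw [← hf] at h1
    have hfj : f j ≠ 0 := by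
      rw [hf, Finset.prod_apply, Finset.prod_ne_zero_iff]
      intro i hi
      have hij : i ≠ j := Finset.ne_of_mem_erase hi
      rw [hl]
      simp only
      split_ifs with h2
      · intro h3
        rw [Pi.sub_apply, Pi.algebraMap_apply, Algebra.algebraMap_self, RingHom.id_apply,
          sub_eq_zero] at h3
        exact hij (h i j h2 h3.symm)
      · intro h3
        rw [Pi.sub_apply, Pi.algebraMap_apply, Algebra.algebraMap_self, RingHom.id_apply,
          sub_eq_zero] at h3
        exact h2 h3.symm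
    have hfi : ∀ i, i ≠ j → f i = 0 := by
      intro i hij
      rw [hf, Finset.prod_apply]
      apply Finset.prod_eq_zero (Finset.mem_erase.2 ⟨hij, Finset.mem_univ i⟩)
      rw [hl]
      simp only
      split_ifs with h2
      · rw [Pi.sub_apply, Pi.algebraMap_apply, Algebra.algebraMap_self, RingHom.id_apply, sub_self]
      · rw [Pi.sub_apply, Pi.algebraMap_apply, Algebra.algebraMap_self, RingHom.id_apply, sub_self]
    have h2 : Pi.single j (1 : K) = (f j)⁻¹ • f := by
      funext i
      by_cases hij : i = j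
      · rw [hij, Pi.single_eq_same, Pi.smul_apply, smul_eq_mul, inv_mul_cancel₀ hfj]
      · rw [Pi.single_eq_of_ne hij, Pi.smul_apply, smul_eq_mul, hfi i hij, mul_zero]
    rw [h2]
    exact Submodule.smul_mem _ _ h1
  rw [eq_top_iff]
  intro f _
  rw [pi_eq_sum_univ' f]
  apply Submodule.sum_mem
  intro j _
  apply Submodule.smul_mem
  exact hsing j

theorem interp {K : Type u} [Field K] {N : ℕ} (x y : Fin N → K)
    (h : ∀ i j, x i = x j → y i = y j → i = j) :
    ∃ e : Fin N → ℕ × ℕ, Function.Injective e ∧ (∀ i, (e i).1 + (e i).2 < N) ∧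
      (Matrix.of fun i j => x j ^ (e i).1 * y j ^ (e i).2).det ≠ 0 ∧
      ∀ (c : Fin N → K) (p : Fin N → Fin N → K),
        (∀ i, LT K x y (p i) (c i) (e i).1 (e i).2) →
        (Matrix.of p).det =
          (∏ i, c i) * (Matrix.of fun i j => x j ^ (e i).1 * y j ^ (e i).2).det := by
  classical
  obtain ⟨m, hm⟩ : ∃ m : {q : ℕ × ℕ // q.1 + q.2 < N} → Fin N → K,
    m = fun q => x ^ q.1.1 * y ^ q.1.2 := ⟨_, rfl⟩
  have hs : Submodule.span K (Set.range m) = ⊤ := by
    rw [← b3_top x y h]
    unfold Fs
    congr 1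
    ext f
    constructor
    · rintro ⟨q, rfl⟩
      rw [hm]
      exact ⟨q.1.1, q.1.2, q.2, rfl⟩
    · rintro ⟨a, b, hab, rfl⟩
      rw [hm]
      exact ⟨⟨(a, b), hab⟩, rfl⟩
  obtain ⟨e, he1, he2⟩ := graded_basis' (fun q : {q : ℕ × ℕ // q.1 + q.2 < N} => q.1.1 + q.1.2)
    m hs N (Module.finrank_fin_fun K)
  have hmat : (Matrix.of fun i j => x j ^ ((e i).1).1 * y j ^ ((e i).1).2) =
      Matrix.of (m ∘ e) := by
    ext i j
    rw [Matrix.of_apply, Matrix.of_apply, Function.comp_apply, hm]
    rfl
  refine ⟨fun i => (e i).1, ?_, fun i => (e i).2, ?_, ?_⟩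
  · intro i j hij
    apply he1.injective
    rw [Function.comp_apply, Function.comp_apply, Subtype.ext hij]
  · rw [hmat]
    have h1 : IsUnit (Matrix.of (m ∘ e)) := by
      rw [← Matrix.linearIndependent_rows_iff_isUnit]
      exact he1
    rw [Matrix.isUnit_iff_isUnit_det, isUnit_iff_ne_zero] at h1
    exact h1
  · intro c p hp
    rw [hmat]
    apply det_identity (fun i => (e i).1.1 + (e i).1.2) (m ∘ e) c p
    intro i
    have h1 := hp i
    unfold LT at h1
    have h2 : (p i - c i • (m ∘ e) i) ∈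
        Submodule.span K {f | ∃ j : {q : ℕ × ℕ // q.1 + q.2 < N},
          j.1.1 + j.1.2 < (e i).1.1 + (e i).1.2 ∧ f = m j} := by
      rw [Function.comp_apply, hm]
      refine Submodule.span_mono ?_ h1
      rintro f ⟨a, b, hab, rfl⟩
      exact ⟨⟨(a, b), lt_trans hab (e i).2⟩, hab, rfl⟩
    exact he2 _ h2

end Pool.Agent.H951R3.PH
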