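import Pool.Agent.H951R3.PH.Defs

/-!
# Determinant bounds (task C1, helper836)
-/

set_option autoImplicit false

namespace Pool.Agent.H951R3.PH

open Real NumberField Polynomial

universe u

namespace C1

theorem abs_term {K : Type u} [Field K] (v : AbsoluteValue K ℝ) {N : ℕ} (p : Fin N → Fin N → K)
    {M : Fin N → ℝ} (h : ∀ i j, v (p i j) ≤ M i) (σ : Equiv.Perm (Fin N)) :
    v (Equiv.Perm.sign σ • ∏ i, Matrix.of p (σ i) i) ≤ ∏ i, M i := by
  have h1 : v (Equiv.Perm.sign σ • ∏ i, Matrix.of p (σ i) i) =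
      ∏ i, v (Matrix.of p (σ i) i) := by
    rcases Int.units_eq_one_or (Equiv.Perm.sign σ) with h | h
    · rw [h, one_smul, map_prod]
    · rw [h, Units.neg_smul, one_smul, v.map_neg, map_prod]
  rw [h1]
  calc ∏ i, v (Matrix.of p (σ i) i) ≤ ∏ i, M (σ i) :=
        Finset.prod_le_prod (fun _ _ => v.nonneg _) (fun i _ => h _ _)
    _ = ∏ i, M i := Equiv.prod_comp σ M

end C1

theorem detBd_fact {K : Type u} [Field K] (v : AbsoluteValue K ℝ) (N : ℕ) :
    DetBd v N N.factorial := by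
  classical
  refine ⟨by exact_mod_cast Nat.one_le_iff_ne_zero.2 N.factorial_ne_zero, fun p M h => ?_⟩
  rw [Matrix.det_apply]
  refine (v.sum_le _ _).trans ?_
  calc ∑ σ : Equiv.Perm (Fin N), v (Equiv.Perm.sign σ • ∏ i, Matrix.of p (σ i) i)
      ≤ ∑ _σ : Equiv.Perm (Fin N), ∏ i, M i :=
        Finset.sum_le_sum (fun σ _ => C1.abs_term v p h σ)
    _ = N.factorial * ∏ i, M i := by
        rw [Finset.sum_const, Finset.card_univ, Fintype.card_perm, Fintype.card_fin, nsmul_eq_mul]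

theorem detBd_na {K : Type u} [Field K] {v : AbsoluteValue K ℝ} (hv : IsNonarchimedean v)
    (N : ℕ) : DetBd v N 1 := by
  classical
  refine ⟨le_rfl, fun p M h => ?_⟩
  rw [Matrix.det_apply, one_mul]
  obtain ⟨σ, _, hσ⟩ := hv.finset_image_add_of_nonempty
      (fun σ : Equiv.Perm (Fin N) => Equiv.Perm.sign σ • ∏ i, Matrix.of p (σ i) i)
      (t := Finset.univ) ⟨1, Finset.mem_univ _⟩
  exact hσ.trans (C1.abs_term v p h σ)

end Pool.Agent.H951R3.PH
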