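import Pool.Agent.H951R3.PH.Defs

/-!
# The sum of the degrees of distinct monomials (task C1b, helper836)
-/

set_option autoImplicit false

namespace Pool.Agent.H951R3.PH

open Real

namespace C1b

theorem gauss (m : ℕ) : 2 * ∑ k ∈ Finset.range m, (k + 1) = m * (m + 1) := by
  induction m with
  | zero => simp
  | succ m ih => rw [Finset.sum_range_succ, mul_add, ih]; ring

theorem card_lt {N : ℕ} (e : Fin N → ℕ × ℕ) (he : Function.Injective e) (m : ℕ) :
    2 * (Finset.univ.filter (fun i => (e i).1 + (e i).2 < m)).card ≤ m * (m + 1) := by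
  have h1 : (Finset.univ.filter (fun i => (e i).1 + (e i).2 < m)).card ≤
      ((Finset.range m).biUnion (fun k => Finset.HasAntidiagonal.antidiagonal k)).card := by
    refine Finset.card_le_card_of_injOn e ?_ (fun i _ j _ h => he h)
    intro i hi
    have hi' : (e i).1 + (e i).2 < m := by simpa using hi
    simp only [Finset.coe_biUnion, Set.mem_iUnion, Finset.mem_coe, Finset.mem_range,
      Finset.HasAntidiagonal.mem_antidiagonal]
    exact ⟨_, hi', rfl⟩
  have h2 : ((Finset.range m).biUnion (fun k => Finset.HasAntidiagonal.antidiagonal k)).card ≤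
      ∑ k ∈ Finset.range m, (k + 1) := by
    refine Finset.card_biUnion_le.trans (le_of_eq (Finset.sum_congr rfl (fun k _ => ?_)))
    rw [Finset.Nat.card_antidiagonal]
  rw [← gauss m]
  omega

theorem sum_ge {N : ℕ} (e : Fin N → ℕ × ℕ) (m : ℕ) :
    m * N ≤ (∑ i, ((e i).1 + (e i).2)) +
      m * (Finset.univ.filter (fun i => (e i).1 + (e i).2 < m)).card := by
  have h1 : m * N = ∑ _i : Fin N, m := by simp [mul_comm]
  have h2 : m * (Finset.univ.filter (fun i => (e i).1 + (e i).2 < m)).card =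
      ∑ i : Fin N, if (e i).1 + (e i).2 < m then m else 0 := by
    rw [Finset.sum_ite, Finset.sum_const, Finset.sum_const_zero, smul_eq_mul, mul_comm, add_zero]
  rw [h1, h2, ← Finset.sum_add_distrib]
  refine Finset.sum_le_sum (fun i _ => ?_)
  split_ifs with h <;> omega

end C1b

theorem comb {N : ℕ} (hN : 4 ≤ N) (e : Fin N → ℕ × ℕ) (he : Function.Injective e) :
    (N : ℝ) * √N ≤ 8 * ((∑ i, ((e i).1 + (e i).2) : ℕ) : ℝ) := by
  set m := Nat.sqrt N with hm
  set T := (Finset.univ.filter (fun i => (e i).1 + (e i).2 < m)).card with hT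
  set S := ∑ i, ((e i).1 + (e i).2) with hS
  have h1 : 2 * T ≤ m * (m + 1) := C1b.card_lt e he m
  have h2 : m * N ≤ S + m * T := C1b.sum_ge e m
  have h1' : (2 : ℝ) * T ≤ m * (m + 1) := by exact_mod_cast h1
  have h2' : (m : ℝ) * N ≤ S + m * T := by exact_mod_cast h2
  set s := √(N : ℝ) with hs
  have hs2 : s * s = N := Real.mul_self_sqrt (Nat.cast_nonneg N)
  have hs0 : 0 ≤ s := Real.sqrt_nonneg _
  have hms : (m : ℝ) ≤ s := by
    rw [hs]
    apply Real.le_sqrt_of_sq_le
    have : m * m ≤ N := Nat.sqrt_le N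
    have h : (m : ℝ) * m ≤ N := by exact_mod_cast this
    nlinarith
  have hsm : s < m + 1 := by
    rw [hs, Real.sqrt_lt' (by positivity)]
    have : N < (m + 1) * (m + 1) := Nat.lt_succ_sqrt N
    have h : (N : ℝ) < (m + 1) * (m + 1) := by exact_mod_cast this
    nlinarith
  have hs4 : 2 ≤ s := by
    rw [hs]
    apply Real.le_sqrt_of_sq_le
    have : (4 : ℝ) ≤ N := by exact_mod_cast hN
    linarith
  have hm0 : (0 : ℝ) ≤ m := Nat.cast_nonneg m
  -- S ≥ m (N - T) ≥ m (s² - m(m+1)/2) ≥ (s-1) s (s-1) / 2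
  have hNT : s * (s - 1) / 2 ≤ N - T := by nlinarith
  have h3 : (s - 1) * (s * (s - 1) / 2) ≤ m * (N - T) := by
    have h4 : s - 1 ≤ m := by linarith
    have h5 : 0 ≤ s * (s - 1) / 2 := by nlinarith
    have h6 : 0 ≤ (N : ℝ) - T := h5.trans hNT
    exact mul_le_mul h4 hNT h5 hm0
  have h7 : s / 2 ≤ s - 1 := by linarith
  have h8 : s * (s / 2 * (s / 2)) ≤ s * ((s - 1) * (s - 1)) := by
    refine mul_le_mul_of_nonneg_left (mul_le_mul h7 h7 (by linarith) (by linarith)) hs0
  rw [← hs2]
  nlinarith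

end Pool.Agent.H951R3.PH
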