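import Pool.Agent.H951R3.PH.Defs
import Pool.Agent.H951R3.PH.A1
import Pool.Agent.H951R3.PH.A4
import Pool.Agent.H951R3.PH.B3
import Pool.Agent.H951R3.PH.C1b

/-!
# Local estimates for the interpolation determinant (helper338)
-/

set_option autoImplicit false

namespace Pool.Agent.H951R3.PH

open Real NumberField Polynomial

universe u

namespace C2

lemma coeff_pos {K : Type u} [Field K] (v : AbsoluteValue K ℝ) {F : K[X]} {d : ℕ} (hd : 2 ≤ d)
    (hF : F.natDegree = d) : 0 < v (F.coeff d) := by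
  apply v.pos
  rw [← hF]
  intro h
  have h0 : F = 0 := leadingCoeff_eq_zero.1 h
  rw [h0] at hF
  simp at hF
  omega

lemma al_pos {K : Type u} [Field K] (v : AbsoluteValue K ℝ) {F : K[X]} {d : ℕ} (hd : 2 ≤ d)
    (hF : F.natDegree = d) : 0 < al v d F :=
  Real.rpow_pos_of_pos (coeff_pos v hd hF) _

lemma log_al {K : Type u} [Field K] (v : AbsoluteValue K ℝ) {F : K[X]} {d : ℕ} (hd : 2 ≤ d)
    (hF : F.natDegree = d) : log (al v d F) = log (v (F.coeff d)) / ((d : ℝ) - 1) := by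
  unfold al
  rw [Real.log_rpow (coeff_pos v hd hF)]
  ring

end C2

open C2 in
theorem package {K : Type u} [Field K] {N : ℕ} {F : K[X]} {d : ℕ} (hd : 2 ≤ d)
    (hF : F.natDegree = d) {δ : K} (hδ : δ ≠ 0) {x : ℤ → Fin N → K} (hx : Orb F δ x)
    (hinj : ∀ i j, x 0 i = x 0 j → x 1 i = x 1 j → i = j) :
    ∃ (Δ : K) (Λ σ E : ℕ), Δ ≠ 0 ∧ (4 ≤ N → (N : ℝ) * √N ≤ 8 * Λ) ∧
      (σ : ℝ) ≤ 2 * N * ((d : ℝ) - 1) * (Nat.log d N + 1) ∧ (d - 1) * E ≤ Λ ∧
      (∀ (v : AbsoluteValue K ℝ) (κ S : ℝ), DetBd v N κ → 1 ≤ S →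
        (∀ n i, v (x n i) * al v d F ≤ S) →
        log (v Δ) ≤ log κ + σ * log S - Λ / ((d : ℝ) - 1) * log (v (F.coeff d)) +
          E * log (v δ)) ∧
      (∀ (v : AbsoluteValue K ℝ) (κ ρ : ℝ), DetBd v N κ → 0 < ρ →
        (∀ i j, v (x 0 i - x 0 j) * al v d F ≤ ρ) → (∀ i j, v (x 1 i - x 1 j) * al v d F ≤ ρ) →
        log (v Δ) ≤ log κ + Λ * (log ρ - log (v (F.coeff d)) / ((d : ℝ) - 1))) := by
  obtain ⟨e, he, hlt, hdet, hid⟩ := interp (x 0) (x 1) hinj
  have hb := fun i : Fin N => basis hd hF hδ hx (e i).1 (e i).2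
  choose E1 E2 s1 s2 p h1 h2 h3 h4 h5 h6 using hb
  have hd1 : ((d - 1 : ℕ) : ℝ) = (d : ℝ) - 1 := by
    rw [Nat.cast_sub (by omega)]
    simp
  have hd2 : (0 : ℝ) < (d : ℝ) - 1 := by
    have : (2 : ℝ) ≤ d := by exact_mod_cast hd
    linarith
  set Δ : K := (Matrix.of fun i j => x 0 j ^ (e i).1 * x 1 j ^ (e i).2).det with hΔ
  set Λ : ℕ := ∑ i, ((e i).1 + (e i).2) with hΛ
  refine ⟨Δ, Λ, ∑ i, (s1 i + s2 i), ∑ i, E1 i, hdet, fun h4 => comb h4 e he, ?_, ?_, ?_, ?_⟩
  · have hs : ∀ i, ((s1 i + s2 i : ℕ) : ℝ) ≤ 2 * ((d : ℝ) - 1) * (Nat.log d N + 1) := by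
      intro i
      have ha : Nat.log d (e i).1 ≤ Nat.log d N := Nat.log_mono_right (by have := hlt i; omega)
      have hb : Nat.log d (e i).2 ≤ Nat.log d N := Nat.log_mono_right (by have := hlt i; omega)
      have h7 : s1 i + s2 i ≤ 2 * ((d - 1) * (Nat.log d N + 1)) := by
        have h8 : (d - 1) * (Nat.log d (e i).1 + 1) ≤ (d - 1) * (Nat.log d N + 1) :=
          Nat.mul_le_mul_left _ (by omega)
        have h9 : (d - 1) * (Nat.log d (e i).2 + 1) ≤ (d - 1) * (Nat.log d N + 1) :=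
          Nat.mul_le_mul_left _ (by omega)
        have := h3 i
        have := h4 i
        omega
      have h10 : ((s1 i + s2 i : ℕ) : ℝ) ≤ ((2 * ((d - 1) * (Nat.log d N + 1)) : ℕ) : ℝ) := by
        exact_mod_cast h7
      rw [Nat.cast_mul, Nat.cast_mul, hd1] at h10
      push_cast at h10 ⊢
      linarith
    rw [Nat.cast_sum]
    calc ∑ i, ((s1 i + s2 i : ℕ) : ℝ) ≤ ∑ _i : Fin N, 2 * ((d : ℝ) - 1) * (Nat.log d N + 1) :=
          Finset.sum_le_sum fun i _ => hs i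
      _ = 2 * N * ((d : ℝ) - 1) * (Nat.log d N + 1) := by
          rw [Finset.sum_const, Finset.card_univ, Fintype.card_fin, nsmul_eq_mul]
          ring
  · rw [Finset.mul_sum, hΛ]
    apply Finset.sum_le_sum
    intro i _
    have := h1 i
    omega
  · intro v κ S hκ hS hxS
    have hF0 := coeff_pos v hd hF
    have hal := al_pos v hd hF
    have hδ0 : 0 < v δ := v.pos hδ
    have hM : ∀ n i, v (x n i) ≤ S / al v d F := fun n i => (le_div_iff₀ hal).2 (hxS n i)
    have hS0 : 0 < S / al v d F := by positivity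
    have hΔ0 : 0 < v Δ := v.pos hdet
    have hκ0 : 0 < κ := lt_of_lt_of_le one_pos hκ.1
    have hb1 := hκ.2 p (fun i => (S / al v d F) ^ (s1 i + s2 i)) fun i j => h6 i v _ hM j
    rw [hid (fun i => (F.coeff d / δ) ^ E1 i * F.coeff d ^ E2 i) p h5,
      Finset.prod_pow_eq_pow_sum, map_mul, map_prod] at hb1
    have hc0 : ∀ i, 0 < v ((F.coeff d / δ) ^ E1 i * F.coeff d ^ E2 i) := by
      intro i
      rw [map_mul, map_pow, map_pow, map_div₀]
      positivity
    have hlc : ∀ i, log (v ((F.coeff d / δ) ^ E1 i * F.coeff d ^ E2 i)) =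
        ((E1 i : ℝ) + E2 i) * log (v (F.coeff d)) - E1 i * log (v δ) := by
      intro i
      rw [map_mul, map_pow, map_pow, map_div₀, Real.log_mul (by positivity) (by positivity),
        Real.log_pow, Real.log_pow, Real.log_div hF0.ne' hδ0.ne']
      ring
    have hb2 := Real.log_le_log (mul_pos (Finset.prod_pos fun i _ => hc0 i) hΔ0) hb1
    rw [Real.log_mul (Finset.prod_pos fun i _ => hc0 i).ne' hΔ0.ne',
      Real.log_prod (fun i _ => (hc0 i).ne'), Real.log_mul hκ0.ne' (by positivity),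
      Real.log_pow, Real.log_div (by positivity) hal.ne', log_al v hd hF] at hb2
    simp_rw [hlc] at hb2
    rw [Finset.sum_sub_distrib, ← Finset.sum_mul, ← Finset.sum_mul] at hb2
    have hsum : ((d : ℝ) - 1) * (∑ i, ((E1 i : ℝ) + E2 i)) + ((∑ i, (s1 i + s2 i) : ℕ) : ℝ) =
        (Λ : ℝ) := by
      rw [hΛ]
      push_cast
      rw [Finset.mul_sum, ← Finset.sum_add_distrib]
      apply Finset.sum_congr rfl
      intro i _
      have h7 : (((d - 1) * E1 i + s1 i : ℕ) : ℝ) = ((e i).1 : ℝ) := by exact_mod_cast h1 i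
      have h8 : (((d - 1) * E2 i + s2 i : ℕ) : ℝ) = ((e i).2 : ℝ) := by exact_mod_cast h2 i
      push_cast [hd1] at h7 h8
      linarith
    have hE : ((∑ i, E1 i : ℕ) : ℝ) = ∑ i, (E1 i : ℝ) := by push_cast; rfl
    rw [hE]
    have hdiv : (Λ : ℝ) / ((d : ℝ) - 1) = (∑ i, ((E1 i : ℝ) + E2 i)) +
        ((∑ i, (s1 i + s2 i) : ℕ) : ℝ) / ((d : ℝ) - 1) := by
      rw [← hsum]
      field_simp
    rw [hdiv]
    have h9 : ((∑ i, (s1 i + s2 i) : ℕ) : ℝ) * (log (v (F.coeff d)) / ((d : ℝ) - 1)) =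
        ((∑ i, (s1 i + s2 i) : ℕ) : ℝ) / ((d : ℝ) - 1) * log (v (F.coeff d)) := by ring
    rw [mul_sub, h9] at hb2
    rw [add_mul]
    linarith
  · intro v κ ρ hκ hρ h0 h1'
    have hκ0 : 0 < κ := lt_of_lt_of_le one_pos hκ.1
    have hF0 := coeff_pos v hd hF
    have hal := al_pos v hd hF
    have hΔ0 : 0 < v Δ := v.pos hdet
    rcases Nat.eq_zero_or_pos N with hN | hN
    · subst hN
      have hΔ1 : Δ = 1 := by
        rw [hΔ]
        exact Matrix.det_isEmpty
      have hΛ0 : Λ = 0 := by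
        rw [hΛ]
        simp
      rw [hΔ1, hΛ0]
      simp only [map_one, Real.log_one, Nat.cast_zero, zero_mul, add_zero]
      exact Real.log_nonneg hκ.1
    · set i0 : Fin N := ⟨0, hN⟩
      have hq := hid (fun _ => 1) (fun i => (x 0 - algebraMap K (Fin N → K) (x 0 i0)) ^ (e i).1 *
        (x 1 - algebraMap K (Fin N → K) (x 1 i0)) ^ (e i).2)
        (fun i => lt_trans' (x 0) (x 1) (x 0 i0) (x 1 i0) (e i).1 (e i).2)
      simp only [Finset.prod_const_one, one_mul] at hq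
      have hb1 := hκ.2 (fun i => (x 0 - algebraMap K (Fin N → K) (x 0 i0)) ^ (e i).1 *
        (x 1 - algebraMap K (Fin N → K) (x 1 i0)) ^ (e i).2)
        (fun i => (ρ / al v d F) ^ ((e i).1 + (e i).2)) (by
          intro i j
          have ha : v (x 0 j - x 0 i0) ≤ ρ / al v d F := (le_div_iff₀ hal).2 (h0 j i0)
          have hb : v (x 1 j - x 1 i0) ≤ ρ / al v d F := (le_div_iff₀ hal).2 (h1' j i0)
          have : ((x 0 - algebraMap K (Fin N → K) (x 0 i0)) ^ (e i).1 *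
            (x 1 - algebraMap K (Fin N → K) (x 1 i0)) ^ (e i).2) j =
            (x 0 j - x 0 i0) ^ (e i).1 * (x 1 j - x 1 i0) ^ (e i).2 := by
            simp [Pi.mul_apply, Pi.pow_apply, Pi.sub_apply, Pi.algebraMap_apply]
          rw [this, map_mul, map_pow, map_pow, pow_add]
          exact mul_le_mul (pow_le_pow_left₀ (v.nonneg _) ha _)
            (pow_le_pow_left₀ (v.nonneg _) hb _) (pow_nonneg (v.nonneg _) _) (by positivity))
      rw [hq, Finset.prod_pow_eq_pow_sum, ← hΛ] at hb1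
      have hb2 := Real.log_le_log (v.pos hdet) hb1
      rw [Real.log_mul hκ0.ne' (by positivity), Real.log_pow,
        Real.log_div hρ.ne' hal.ne', log_al v hd hF] at hb2
      exact hb2

end Pool.Agent.H951R3.PH
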