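import Pool.Agent.H951R3.PH.Defs
import Pool.Agent.H951R3.PB.F4

/-!
# D1: product formula and heights (helper648)
-/

set_option autoImplicit false

namespace Pool.Agent.H951R3.PH

open Real NumberField Polynomial

universe u

variable {K : Type u} [Field K] [NumberField K]

theorem D1_split (P : Finset (Pl K)) (f : Pl K → ℝ) :
    ∑ p ∈ P, f p = ∑ v ∈ P.toLeft, f (Sum.inl v) + ∑ v ∈ P.toRight, f (Sum.inr v) := by
  classical
  conv_lhs => rw [← Finset.toLeft_disjSum_toRight (u := P)]
  rw [Finset.sum_disjSum]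

theorem prod_formula {x : K} (hx : x ≠ 0) (P : Finset (Pl K))
    (hinf : ∀ v : InfinitePlace K, Sum.inl v ∈ P) (hfin : ∀ p : Pl K, p ∉ P → pv p x = 1) :
    ∑ p ∈ P, pm p * log (pv p x) = 0 := by
  classical
  rw [D1_split]
  have hL : P.toLeft = Finset.univ := by
    ext v
    simp [Finset.mem_toLeft, hinf v]
  rw [hL]
  have h := PB.F4_product hx P.toRight (fun v hv => by
    have := hfin (Sum.inr v) (by simpa [Finset.mem_toRight] using hv)
    exact this)
  simpa [pm, pv] using h

theorem finite_ne_one {x : K} (hx : x ≠ 0) : {v : FinitePlace K | v.val x ≠ 1}.Finite :=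
  PB.F4_finite_ne hx

theorem D1_fin_supp (δ : K) :
    (Function.support fun v : FinitePlace K => log (max 1 (v.val δ))).Finite := by
  rcases eq_or_ne δ 0 with h | h
  · subst h
    refine Set.finite_empty.subset fun v hv => ?_
    simp at hv
  · refine (PB.F4_finite_ne h).subset fun v hv => ?_
    intro h1
    apply hv
    simp only
    rw [h1]
    simp

theorem D1_height (δ : K) :
    Height.logHeight₁ δ = ∑ v : InfinitePlace K, (v.mult : ℝ) * log (max 1 (v.val δ)) +
      ∑ v ∈ (D1_fin_supp δ).toFinset, log (max 1 (v.val δ)) := by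
  rw [NumberField.logHeight₁_eq]
  have e1 : ∀ v : InfinitePlace K, Real.posLog (v δ) = log (max 1 (v.val δ)) := by
    intro v
    rw [Real.posLog_eq_log_max_one (apply_nonneg _ _)]
    rfl
  have e2 : ∀ v : FinitePlace K, Real.posLog (v δ) = log (max 1 (v.val δ)) := by
    intro v
    rw [Real.posLog_eq_log_max_one (apply_nonneg _ _)]
    rfl
  simp only [e1, e2]
  congr 1
  exact finsum_eq_sum _ (D1_fin_supp δ)

theorem sum_height (δ : K) (P : Finset (Pl K)) :
    ∑ p ∈ P, pm p * log (max 1 (pv p δ)) ≤ Height.logHeight₁ δ := by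
  classical
  rw [D1_split, D1_height]
  have nn : ∀ t : ℝ, 0 ≤ log (max 1 t) := fun t => Real.log_nonneg (le_max_left _ _)
  refine add_le_add ?_ ?_
  · exact Finset.sum_le_sum_of_subset_of_nonneg (Finset.subset_univ _)
      (fun v _ _ => mul_nonneg (Nat.cast_nonneg _) (nn _))
  · have : ∀ v ∈ P.toRight, pm (Sum.inr v : Pl K) * log (max 1 (pv (Sum.inr v : Pl K) δ)) =
        log (max 1 (v.val δ)) := by
      intro v _
      simp [pm, pv]
    rw [Finset.sum_congr rfl this]
    have h2 : ∑ v ∈ P.toRight, log (max 1 (v.val δ)) =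
        ∑ v ∈ P.toRight.filter (fun v => log (max 1 (v.val δ)) ≠ 0), log (max 1 (v.val δ)) :=
      (Finset.sum_filter_ne_zero _).symm
    rw [h2]
    refine Finset.sum_le_sum_of_subset_of_nonneg ?_ (fun v _ _ => nn _)
    intro v hv
    simp only [Finset.mem_filter] at hv
    simpa using hv.2

theorem single_height (δ : K) (p : Pl K) :
    pm p * log (max 1 (pv p δ)) ≤ Height.logHeight₁ δ := by
  simpa using sum_height δ {p}

theorem sum_log_nat {d : ℕ} (hd : 1 ≤ d) (P : Finset (FinitePlace K)) :
    ∑ v ∈ P, log ((v.val (d : K))⁻¹) ≤ Module.finrank ℚ K * log d := by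
  classical
  have hd0 : (d : K) ≠ 0 := by
    exact_mod_cast (by omega : d ≠ 0)
  have hfin := PB.F4_finite_ne hd0
  have nn : ∀ v : FinitePlace K, 0 ≤ log ((v.val (d : K))⁻¹) := by
    intro v
    rw [Real.log_inv]
    have := Real.log_nonpos (v.val.nonneg (d : K)) (PB.F1_nat v d)
    linarith
  have h1 : ∑ v ∈ P, log ((v.val (d : K))⁻¹) ≤
      ∑ v ∈ P ∪ hfin.toFinset, log ((v.val (d : K))⁻¹) :=
    Finset.sum_le_sum_of_subset_of_nonneg Finset.subset_union_left (fun v _ _ => nn v)
  have h2 := PB.F4_product hd0 (P ∪ hfin.toFinset) (fun v hv => by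
    by_contra h
    apply hv
    rw [Finset.mem_union]
    right
    simpa using h)
  have h3 : ∑ v : InfinitePlace K, (v.mult : ℝ) * log (v.val (d : K)) =
      Module.finrank ℚ K * log d := by
    have : ∀ v : InfinitePlace K, v.val (d : K) = d := by
      intro v
      have := InfinitePlace.norm_embedding_eq v (d : K)
      rw [map_natCast, Complex.norm_natCast] at this
      exact this.symm
    simp only [this]
    rw [← Finset.sum_mul]
    congr 1
    exact_mod_cast InfinitePlace.sum_mult_eq (K := K)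
  have h4 : ∑ v ∈ P ∪ hfin.toFinset, log ((v.val (d : K))⁻¹) =
      -∑ v ∈ P ∪ hfin.toFinset, log (v.val (d : K)) := by
    rw [← Finset.sum_neg_distrib]
    exact Finset.sum_congr rfl fun v _ => Real.log_inv _
  linarith

end Pool.Agent.H951R3.PH
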