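import Pool.Agent.H951R3.PB.Defs

/-!
# Periodic points of generalized Henon maps: definitions (helper951)
-/

set_option autoImplicit false

namespace Pool.Agent.H951R3.PH

open Real NumberField Polynomial

universe u

section basic

variable {K : Type u} [Field K]

/-- the generalized Henon map `(x, y) ↦ (y, F(y) - δ x)` -/
def hen (F : K[X]) (δ : K) (P : K × K) : K × K := (P.2, F.eval P.2 - δ * P.1)

/-- bi-infinite orbit `X (n+1) + δ X (n-1) = F (X n)` in a `K`-algebra -/
def Orb {A : Type*} [CommRing A] [Algebra K A] (F : K[X]) (δ : K) (x : ℤ → A) : Prop :=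
  ∀ n : ℤ, x (n + 1) + δ • x (n - 1) = aeval (x n) F

/-- span of the monomials `x^a y^b` of total degree `< n` -/
def Fs (K : Type u) [Field K] {A : Type*} [CommRing A] [Algebra K A] (x y : A) (n : ℕ) :
    Submodule K A :=
  Submodule.span K {f | ∃ a b : ℕ, a + b < n ∧ f = x ^ a * y ^ b}

/-- `f` has leading term `c x^a y^b` -/
def LT (K : Type u) [Field K] {A : Type*} [CommRing A] [Algebra K A] (x y f : A) (c : K)
    (a b : ℕ) : Prop :=
  f - c • (x ^ a * y ^ b) ∈ Fs K x y (a + b)

/-- `(d^k - 1)/(d - 1)` -/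
def ex (d : ℕ) : ℕ → ℕ
  | 0 => 0
  | k + 1 => d * ex d k + 1

/-- bound for determinants -/
def DetBd (v : AbsoluteValue K ℝ) (N : ℕ) (κ : ℝ) : Prop :=
  1 ≤ κ ∧ ∀ (p : Fin N → Fin N → K) (M : Fin N → ℝ), (∀ i j, v (p i j) ≤ M i) →
    v (Matrix.of p).det ≤ κ * ∏ i, M i

/-- `|a|^(1/(d-1))`, `a` the coefficient of degree `d` -/
noncomputable def al (v : AbsoluteValue K ℝ) (d : ℕ) (F : K[X]) : ℝ :=
  v (F.coeff d) ^ ((1 : ℝ) / ((d : ℝ) - 1))

/-- The centre `b = - a_{d-1} / (d a_d)` of `F`. -/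
noncomputable def ctr (d : ℕ) (F : K[X]) : K := -F.coeff (d - 1) / (d * F.coeff d)

/-- The centred form `F(X + b) - (1 + δ) b` of `F` (conjugation of the Henon map by the
translation by `(b, b)`): its coefficient of degree `d - 1` is `0`. -/
noncomputable def cen (d : ℕ) (F : K[X]) (δ : K) : K[X] :=
  F.comp (X + C (ctr d F)) - C ((1 + δ) * ctr d F)

/-- For a centred polynomial `F = a X^d + ∑_{j ≤ d-2} c_j X^j`: the largest of `1` and the numbers
`|c_j / a|^(1/(d-j)) |a|^(1/(d-1))`, `j ≤ d - 2`. -/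
noncomputable def Tv (v : AbsoluteValue K ℝ) (d : ℕ) (F : K[X]) : ℝ :=
  max 1 (⨆ j : Fin (d - 1), (v (F.coeff j) / v (F.coeff d)) ^ ((1 : ℝ) / ((d : ℝ) - (j : ℕ))) *
    v (F.coeff d) ^ ((1 : ℝ) / ((d : ℝ) - 1)))

/-- Size of the Henon map at `v`: `log` of `Tv` of the centred form. -/
noncomputable def siz (v : AbsoluteValue K ℝ) (d : ℕ) (F : K[X]) (δ : K) : ℝ :=
  log (Tv v d (cen d F δ))

/-- Potentially good reduction of the Henon map at the place `v`: `δ` is a `v`-adic unit and, for
an extension `w` of `v` to the algebraic closure and affine coordinate `x = l x' + b` over the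
algebraic closure, the map becomes `(x', y') ↦ (y', g(y') - δ x')` with `g` of degree `d` with
`w`-integral coefficients and leading coefficient a `w`-adic unit. -/
def PotGood (v : AbsoluteValue K ℝ) (d : ℕ) (F : K[X]) (δ : K) : Prop :=
  v δ = 1 ∧ ∃ w : AbsoluteValue (AlgebraicClosure K) ℝ, PB.Ext v w ∧
    ∃ (g : (AlgebraicClosure K)[X]) (l b : AlgebraicClosure K), l ≠ 0 ∧ g.natDegree = d ∧
      (∀ j, w (g.coeff j) ≤ 1) ∧ w (g.coeff d) = 1 ∧
      ∀ x, l * g.eval x =
        aeval (l * x + b) F - (1 + algebraMap K (AlgebraicClosure K) δ) * b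

end basic

section places

variable (K : Type u) [Field K] [NumberField K]

/-- all places -/
abbrev Pl := InfinitePlace K ⊕ FinitePlace K

variable {K}

/-- absolute value of a place -/
noncomputable def pv (p : Pl K) : AbsoluteValue K ℝ := Sum.elim (fun v => v.val) (fun v => v.val) p

/-- multiplicity of a place -/
noncomputable def pm (p : Pl K) : ℝ := Sum.elim (fun v => (v.mult : ℝ)) (fun _ => 1) p

/-- constant in the triangle inequality `|x + y| ≤ A max(|x|, |y|)` -/
noncomputable def pA (p : Pl K) : ℝ := Sum.elim (fun _ => 2) (fun _ => 1) p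

/-- determinant constant -/
noncomputable def pk (N : ℕ) (p : Pl K) : ℝ :=
  Sum.elim (fun _ => (N.factorial : ℝ)) (fun _ => 1) p

end places

end Pool.Agent.H951R3.PH
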