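import Pool.Agent.H951R3.PB.F1
import Pool.Agent.H951R3.PH.Defs
import Pool.Agent.H951R3.PH.C1

/-!
# Task D2: constants of the places (helper551)
-/

set_option autoImplicit false

namespace Pool.Agent.H951R3.PH

open Real NumberField Polynomial

universe u

section places

variable {K : Type u} [Field K] [NumberField K]

theorem one_le_pm (p : Pl K) : 1 ≤ pm p := by
  rcases p with v | v
  · change (1 : ℝ) ≤ (v.mult : ℝ)
    have : 1 ≤ v.mult := by
      have := v.mult_pos
      omega
    exact_mod_cast this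
  · exact le_refl (1 : ℝ)

theorem one_le_pA (p : Pl K) : 1 ≤ pA p := by
  rcases p with v | v
  · change (1 : ℝ) ≤ 2
    norm_num
  · exact le_refl (1 : ℝ)

theorem D2_add {F : Type*} [Field F] (v : AbsoluteValue F ℝ) (x y : F) :
    v (x + y) ≤ 2 * max (v x) (v y) := by
  have h := v.add_le x y
  have h1 := le_max_left (v x) (v y)
  have h2 := le_max_right (v x) (v y)
  linarith

theorem pv_add (p : Pl K) (x y : K) : pv p (x + y) ≤ pA p * max (pv p x) (pv p y) := by
  rcases p with v | v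
  · exact D2_add v.val x y
  · change v.val (x + y) ≤ 1 * max (v.val x) (v.val y)
    rw [one_mul]
    exact FinitePlace.add_le v x y

theorem detBd_pk (N : ℕ) (p : Pl K) : DetBd (pv p) N (pk N p) := by
  rcases p with v | v
  · exact detBd_fact v.val N
  · exact detBd_na (fun x y => FinitePlace.add_le v x y) N

theorem D2_sum_inl (f : Pl K → ℝ) (P : Finset (Pl K)) {c : ℝ} (hc : 0 ≤ c)
    (hl : ∀ v : InfinitePlace K, f (Sum.inl v) = c) (hr : ∀ v : FinitePlace K, f (Sum.inr v) = 0) :
    ∑ p ∈ P, pm p * f p ≤ Module.finrank ℚ K * c := by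
  classical
  have h1 : ∑ p ∈ P, pm p * f p = ∑ v ∈ P.toLeft, (v.mult : ℝ) * c := by
    have h2 : P = P.toLeft.disjSum P.toRight := (Finset.toLeft_disjSum_toRight).symm
    conv_lhs => rw [h2]
    rw [Finset.sum_disjSum]
    have h3 : ∑ v ∈ P.toRight, pm (Sum.inr v : Pl K) * f (Sum.inr v) = 0 :=
      Finset.sum_eq_zero fun v _ => by rw [hr, mul_zero]
    rw [h3, add_zero]
    exact Finset.sum_congr rfl fun v _ => by rw [hl]; rfl
  rw [h1, ← Finset.sum_mul]
  refine mul_le_mul_of_nonneg_right ?_ hc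
  have h4 : ∑ v ∈ P.toLeft, (v.mult : ℝ) ≤ ∑ v : InfinitePlace K, (v.mult : ℝ) :=
    Finset.sum_le_sum_of_subset_of_nonneg (Finset.subset_univ _) fun v _ _ => Nat.cast_nonneg _
  refine h4.trans (le_of_eq ?_)
  exact_mod_cast InfinitePlace.sum_mult_eq (K := K)

theorem sum_pk (N : ℕ) (P : Finset (Pl K)) :
    ∑ p ∈ P, pm p * log (pk N p) ≤ Module.finrank ℚ K * log N.factorial := by
  refine D2_sum_inl (fun p => log (pk N p)) P ?_ (fun v => rfl) (fun v => ?_)
  · refine log_nonneg ?_
    exact_mod_cast Nat.one_le_iff_ne_zero.mpr (Nat.factorial_ne_zero N)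
  · change log 1 = 0
    exact log_one

theorem sum_pA (P : Finset (Pl K)) :
    ∑ p ∈ P, pm p * log (pA p) ≤ Module.finrank ℚ K * log 2 := by
  refine D2_sum_inl (fun p => log (pA p)) P (log_nonneg (by norm_num)) (fun v => rfl)
    (fun v => ?_)
  change log 1 = 0
  exact log_one

theorem exists_ext (p : Pl K) : ∃ w : AbsoluteValue (AlgebraicClosure K) ℝ, PB.Ext (pv p) w ∧
    ∀ x y, w (x + y) ≤ pA p * max (w x) (w y) := by
  rcases p with v | v
  · obtain ⟨w, hw⟩ := PB.exists_ext_inf v
    exact ⟨w, hw, fun x y => D2_add w x y⟩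
  · obtain ⟨w, hw⟩ := PB.exists_ext_fin v
    refine ⟨w, hw, fun x y => ?_⟩
    change w (x + y) ≤ 1 * max (w x) (w y)
    rw [one_mul]
    exact PB.ext_na v w hw x y

end places

end Pool.Agent.H951R3.PH
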