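import Pool.Agent.H951R3.PH.Defs
import Pool.Agent.H951R3.PH.C2
import Pool.Agent.H951R3.PH.D1
import Pool.Agent.H951R3.PH.D2

/-!
# Task D3: the global inequality (helper551)
-/

set_option autoImplicit false

namespace Pool.Agent.H951R3.PH

open Real NumberField Polynomial

universe u

section places

variable {K : Type u} [Field K] [NumberField K]

theorem D3_pm_pos (p : Pl K) : 0 < pm p := lt_of_lt_of_le one_pos (one_le_pm p)

/-- a finite set of places containing `P`, `q`, all the infinite places, and all the finite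
places where one of three given nonzero elements is not a unit -/
theorem D3_places {x y z : K} (hx : x ≠ 0) (hy : y ≠ 0) (hz : z ≠ 0) (P : Finset (Pl K))
    (q : Pl K) : ∃ P' : Finset (Pl K), P ⊆ P' ∧ q ∈ P' ∧
      (∀ v : InfinitePlace K, Sum.inl v ∈ P') ∧
      ∀ p : Pl K, p ∉ P' → pv p x = 1 ∧ pv p y = 1 ∧ pv p z = 1 := by
  classical
  let B : Finset (FinitePlace K) := (finite_ne_one hx).toFinset ∪
    (finite_ne_one hy).toFinset ∪ (finite_ne_one hz).toFinset
  refine ⟨insert q (P ∪ (Finset.univ.image Sum.inl ∪ B.image Sum.inr)), ?_, ?_, ?_, ?_⟩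
  · exact (Finset.subset_union_left).trans (Finset.subset_insert _ _)
  · exact Finset.mem_insert_self _ _
  · intro v
    refine Finset.mem_insert_of_mem (Finset.mem_union_right _ (Finset.mem_union_left _ ?_))
    exact Finset.mem_image_of_mem _ (Finset.mem_univ v)
  · intro p hp
    rcases p with v | v
    · exfalso
      apply hp
      refine Finset.mem_insert_of_mem (Finset.mem_union_right _ (Finset.mem_union_left _ ?_))
      exact Finset.mem_image_of_mem _ (Finset.mem_univ v)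
    · have hv : v ∉ B := by
        intro hv
        apply hp
        refine Finset.mem_insert_of_mem (Finset.mem_union_right _ (Finset.mem_union_right _ ?_))
        exact Finset.mem_image_of_mem _ hv
      simp only [B, Finset.mem_union, Set.Finite.mem_toFinset, Set.mem_ofPred_eq, not_or,
        not_not] at hv
      exact ⟨hv.1.1, hv.1.2, hv.2⟩

theorem core {d : ℕ} (hd : 2 ≤ d) {F : K[X]} (hF : F.natDegree = d) {δ : K} (hδ : δ ≠ 0)
    {N : ℕ} {x : ℤ → Fin N → K} (hx : Orb F δ x)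
    (hinj : ∀ i j, x 0 i = x 0 j → x 1 i = x 1 j → i = j)
    (S : Pl K → ℝ) (hS1 : ∀ p, 1 ≤ S p) (P : Finset (Pl K)) (hSP : ∀ p, p ∉ P → S p = 1)
    (hS : ∀ p n i, pv p (x n i) * al (pv p) d F ≤ S p)
    (q : Pl K) {ρ : ℝ} (hρ : 0 < ρ)
    (h0 : ∀ i j, pv q (x 0 i - x 0 j) * al (pv q) d F ≤ ρ)
    (h1 : ∀ i j, pv q (x 1 i - x 1 j) * al (pv q) d F ≤ ρ) :
    ∃ Λ : ℕ, (4 ≤ N → (N : ℝ) * √N ≤ 8 * Λ) ∧
      Λ * (pm q * (-log ρ - log (max 1 (pv q δ)⁻¹) / ((d : ℝ) - 1))) ≤
        Module.finrank ℚ K * log N.factorial +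
          2 * N * ((d : ℝ) - 1) * (Nat.log d N + 1) * ∑ p ∈ P, pm p * log (S p) := by
  classical
  obtain ⟨Δ, Λ, σ, E, hΔ, hN, hσ, hE, hloss, hgain⟩ := package hd hF hδ hx hinj
  have hd1 : (0 : ℝ) < (d : ℝ) - 1 := by
    have : (2 : ℝ) ≤ d := by exact_mod_cast hd
    linarith
  have ha : F.coeff d ≠ 0 := by
    rw [← hF]
    have hF0 : F ≠ 0 := by
      rintro rfl
      rw [natDegree_zero] at hF
      omega
    exact leadingCoeff_ne_zero.mpr hF0
  obtain ⟨P', hPP, hqP, hinf, hP'⟩ := D3_places hΔ ha hδ P q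
  have sΔ := prod_formula hΔ P' hinf fun p hp => (hP' p hp).1
  have sa := prod_formula ha P' hinf fun p hp => (hP' p hp).2.1
  have sδ := prod_formula hδ P' hinf fun p hp => (hP' p hp).2.2
  refine ⟨Λ, hN, ?_⟩
  -- the local inequalities
  have hq := hgain (pv q) (pk N q) ρ (detBd_pk N q) hρ h0 h1
  have hp : ∀ p ∈ P'.erase q, pm p * log (pv p Δ) ≤ pm p * log (pk N p) +
      σ * (pm p * log (S p)) - Λ / ((d : ℝ) - 1) * (pm p * log (pv p (F.coeff d))) +
        E * (pm p * log (pv p δ)) := by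
    intro p _
    have := mul_le_mul_of_nonneg_left
      (hloss (pv p) (pk N p) (S p) (detBd_pk N p) (hS1 p) (hS p)) (D3_pm_pos p).le
    linarith
  have hqm := mul_le_mul_of_nonneg_left hq (D3_pm_pos q).le
  have hsum := Finset.sum_le_sum hp
  rw [Finset.sum_add_distrib, Finset.sum_sub_distrib, Finset.sum_add_distrib, ← Finset.mul_sum,
    ← Finset.mul_sum, ← Finset.mul_sum] at hsum
  have eΔ := Finset.add_sum_erase P' (fun p => pm p * log (pv p Δ)) hqP
  have ea := Finset.add_sum_erase P' (fun p => pm p * log (pv p (F.coeff d))) hqP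
  have eδ := Finset.add_sum_erase P' (fun p => pm p * log (pv p δ)) hqP
  have ek := Finset.add_sum_erase P' (fun p => pm p * log (pk N p)) hqP
  rw [sΔ] at eΔ
  rw [sa] at ea
  rw [sδ] at eδ
  have hk := sum_pk (K := K) N P'
  -- the sums with `S`
  have hSP' : ∑ p ∈ P'.erase q, pm p * log (S p) ≤ ∑ p ∈ P, pm p * log (S p) := by
    have h2 : ∑ p ∈ P'.erase q, pm p * log (S p) ≤ ∑ p ∈ P', pm p * log (S p) :=
      Finset.sum_le_sum_of_subset_of_nonneg (Finset.erase_subset _ _) fun p _ _ =>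
        mul_nonneg (D3_pm_pos p).le (log_nonneg (hS1 p))
    have h3 : ∑ p ∈ P, pm p * log (S p) = ∑ p ∈ P', pm p * log (S p) :=
      Finset.sum_subset hPP fun p _ hp => by rw [hSP p hp, log_one, mul_zero]
    rw [h3]
    exact h2
  have hSnn : 0 ≤ ∑ p ∈ P, pm p * log (S p) :=
    Finset.sum_nonneg fun p _ => mul_nonneg (D3_pm_pos p).le (log_nonneg (hS1 p))
  have hσS : (σ : ℝ) * ∑ p ∈ P'.erase q, pm p * log (S p) ≤
      2 * N * ((d : ℝ) - 1) * (Nat.log d N + 1) * ∑ p ∈ P, pm p * log (S p) :=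
    (mul_le_mul_of_nonneg_left hSP' (Nat.cast_nonneg σ)).trans
      (mul_le_mul_of_nonneg_right hσ hSnn)
  -- the term with `δ`
  have hδq : 0 < pv q δ := (pv q).pos hδ
  have hb0 : 0 ≤ log (max 1 (pv q δ)⁻¹) := log_nonneg (le_max_left _ _)
  have hb : -log (pv q δ) ≤ log (max 1 (pv q δ)⁻¹) := by
    rw [← log_inv]
    exact log_le_log (inv_pos.mpr hδq) (le_max_right _ _)
  have hE' : (E : ℝ) ≤ Λ / ((d : ℝ) - 1) := by
    rw [le_div_iff₀ hd1]
    have h2 : (((d - 1 : ℕ) : ℝ)) * E ≤ Λ := by exact_mod_cast hE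
    rw [Nat.cast_sub (by omega), Nat.cast_one] at h2
    linarith
  have hδterm : (E : ℝ) * (-(pm q * log (pv q δ))) ≤
      Λ / ((d : ℝ) - 1) * (pm q * log (max 1 (pv q δ)⁻¹)) := by
    have h2 : -(pm q * log (pv q δ)) ≤ pm q * log (max 1 (pv q δ)⁻¹) := by
      have := mul_le_mul_of_nonneg_left hb (D3_pm_pos q).le
      linarith
    calc (E : ℝ) * (-(pm q * log (pv q δ))) ≤ E * (pm q * log (max 1 (pv q δ)⁻¹)) :=
          mul_le_mul_of_nonneg_left h2 (Nat.cast_nonneg E)
      _ ≤ Λ / ((d : ℝ) - 1) * (pm q * log (max 1 (pv q δ)⁻¹)) :=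
          mul_le_mul_of_nonneg_right hE' (mul_nonneg (D3_pm_pos q).le hb0)
  have eδ' : ∑ p ∈ P'.erase q, pm p * log (pv p δ) = -(pm q * log (pv q δ)) := by linarith
  have ea' : ∑ p ∈ P'.erase q, pm p * log (pv p (F.coeff d)) =
      -(pm q * log (pv q (F.coeff d))) := by linarith
  have ek' : ∑ p ∈ P'.erase q, pm p * log (pk N p) =
      ∑ p ∈ P', pm p * log (pk N p) - pm q * log (pk N q) := by linarith
  have eΔ' : ∑ p ∈ P'.erase q, pm p * log (pv p Δ) = -(pm q * log (pv q Δ)) := by linarith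
  rw [eδ', ea', ek', eΔ'] at hsum
  have hfin : (Λ : ℝ) * (pm q * (-log ρ - log (max 1 (pv q δ)⁻¹) / ((d : ℝ) - 1))) =
      -(pm q * (Λ * log ρ)) - Λ / ((d : ℝ) - 1) * (pm q * log (max 1 (pv q δ)⁻¹)) := by
    field_simp
  rw [hfin]
  have hqm' : pm q * log (pv q Δ) ≤ pm q * log (pk N q) + pm q * (Λ * log ρ) -
      Λ / ((d : ℝ) - 1) * (pm q * log (pv q (F.coeff d))) := by
    have e : pm q * (log (pk N q) + Λ * (log ρ - log (pv q (F.coeff d)) / ((d : ℝ) - 1))) =
        pm q * log (pk N q) + pm q * (Λ * log ρ) -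
          Λ / ((d : ℝ) - 1) * (pm q * log (pv q (F.coeff d))) := by
      field_simp
      ring
    rw [← e]
    exact hqm
  linarith

end places

end Pool.Agent.H951R3.PH
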