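import Pool.Agent.H951R3.PH.Defs

/-!
# The size `Tv` (task E5, helper836)
-/

set_option autoImplicit false

namespace Pool.Agent.H951R3.PH

open Real NumberField Polynomial

universe u

section tv

variable {K : Type u} [Field K]

theorem one_le_Tv (v : AbsoluteValue K ℝ) (d : ℕ) (F : K[X]) : 1 ≤ Tv v d F := le_max_left _ _

namespace E5

theorem lead_pos (v : AbsoluteValue K ℝ) {d : ℕ} (hd : 2 ≤ d) {F : K[X]} (hF : F.natDegree = d) :
    0 < v (F.coeff d) := by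
  refine v.pos ?_
  rw [← hF]
  exact fun h => by
    have h0 : F = 0 := leadingCoeff_eq_zero.1 h
    rw [h0, natDegree_zero] at hF
    omega

theorem root_pow {x : ℝ} (hx : 0 ≤ x) {d j : ℕ} (hj : j < d) :
    (x ^ ((1 : ℝ) / ((d : ℝ) - (j : ℕ)))) ^ (d - j) = x := by
  rw [← Real.rpow_natCast, ← Real.rpow_mul hx, Nat.cast_sub hj.le, one_div,
    inv_mul_cancel₀, Real.rpow_one]
  have : (j : ℝ) < d := by exact_mod_cast hj
  exact (sub_pos.2 this).ne'

end E5

theorem tv_coeff (v : AbsoluteValue K ℝ) {d : ℕ} (hd : 2 ≤ d) {F : K[X]} (hF : F.natDegree = d)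
    (hF1 : F.coeff (d - 1) = 0) {j : ℕ} (hj : j < d) :
    v (F.coeff j) / v (F.coeff d) ≤ (Tv v d F / al v d F) ^ (d - j) := by
  have ha := E5.lead_pos v hd hF
  have hal : 0 < al v d F := Real.rpow_pos_of_pos ha _
  have hT : 0 < Tv v d F := lt_of_lt_of_le one_pos (one_le_Tv v d F)
  by_cases h : j = d - 1
  · rw [h, hF1, map_zero, zero_div]
    positivity
  · have hj' : j < d - 1 := by omega
    have hx : 0 ≤ v (F.coeff j) / v (F.coeff d) := div_nonneg (v.nonneg _) ha.le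
    have h1 : (v (F.coeff j) / v (F.coeff d)) ^ ((1 : ℝ) / ((d : ℝ) - (j : ℕ))) * al v d F ≤
        Tv v d F := by
      refine le_trans ?_ (le_max_right _ _)
      exact le_ciSup (f := fun j : Fin (d - 1) =>
        (v (F.coeff j) / v (F.coeff d)) ^ ((1 : ℝ) / ((d : ℝ) - (j : ℕ))) *
          v (F.coeff d) ^ ((1 : ℝ) / ((d : ℝ) - 1))) (Set.finite_range _).bddAbove ⟨j, hj'⟩
    have h2 : (v (F.coeff j) / v (F.coeff d)) ^ ((1 : ℝ) / ((d : ℝ) - (j : ℕ))) ≤
        Tv v d F / al v d F := by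
      rw [le_div_iff₀ hal]; exact h1
    calc v (F.coeff j) / v (F.coeff d) =
        ((v (F.coeff j) / v (F.coeff d)) ^ ((1 : ℝ) / ((d : ℝ) - (j : ℕ)))) ^ (d - j) :=
          (E5.root_pow hx hj).symm
      _ ≤ _ := pow_le_pow_left₀ (Real.rpow_nonneg hx _) h2 _

theorem tv_attained (v : AbsoluteValue K ℝ) {d : ℕ} (hd : 2 ≤ d) {F : K[X]}
    (hF : F.natDegree = d) (h1 : 1 < Tv v d F) :
    ∃ j < d, v (F.coeff j) / v (F.coeff d) = (Tv v d F / al v d F) ^ (d - j) := by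
  have ha := E5.lead_pos v hd hF
  have hal : 0 < al v d F := Real.rpow_pos_of_pos ha _
  have : Nonempty (Fin (d - 1)) := ⟨⟨0, by omega⟩⟩
  obtain ⟨j, hj⟩ := exists_eq_ciSup_of_finite (f := fun j : Fin (d - 1) =>
    (v (F.coeff j) / v (F.coeff d)) ^ ((1 : ℝ) / ((d : ℝ) - (j : ℕ))) *
      v (F.coeff d) ^ ((1 : ℝ) / ((d : ℝ) - 1)))
  have hT : Tv v d F = ⨆ j : Fin (d - 1),
      (v (F.coeff j) / v (F.coeff d)) ^ ((1 : ℝ) / ((d : ℝ) - (j : ℕ))) *
        v (F.coeff d) ^ ((1 : ℝ) / ((d : ℝ) - 1)) := by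
    have h2 : Tv v d F = max 1 _ := rfl
    rcases max_choice (1 : ℝ) (⨆ j : Fin (d - 1),
      (v (F.coeff j) / v (F.coeff d)) ^ ((1 : ℝ) / ((d : ℝ) - (j : ℕ))) *
        v (F.coeff d) ^ ((1 : ℝ) / ((d : ℝ) - 1))) with h | h
    · exfalso
      rw [h2, h] at h1
      exact lt_irrefl _ h1
    · rw [h2, h]
  have hjd : (j : ℕ) < d := by have := j.2; omega
  have hx : 0 ≤ v (F.coeff j) / v (F.coeff d) := div_nonneg (v.nonneg _) ha.le
  refine ⟨j, hjd, ?_⟩
  rw [hT, ← hj]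
  have h3 : (v (F.coeff j) / v (F.coeff d)) ^ ((1 : ℝ) / ((d : ℝ) - (j : ℕ))) *
        v (F.coeff d) ^ ((1 : ℝ) / ((d : ℝ) - 1)) / al v d F =
      (v (F.coeff j) / v (F.coeff d)) ^ ((1 : ℝ) / ((d : ℝ) - (j : ℕ))) := by
    unfold al at hal ⊢
    exact mul_div_cancel_right₀ _ hal.ne'
  rw [h3]
  exact (E5.root_pow hx hjd).symm

theorem tv_finite {K : Type u} [Field K] [NumberField K] {d : ℕ} (hd : 2 ≤ d) {F : K[X]}
    (hF : F.natDegree = d) : {v : FinitePlace K | Tv v.val d F ≠ 1}.Finite := by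
  have h0 : ∀ c : K, c ≠ 0 → {v : FinitePlace K | v.val c ≠ 1}.Finite := fun c hc =>
    (FinitePlace.hasFiniteMulSupport hc).subset fun _ hv => hv
  have h1 : (⋃ j ∈ F.support, {v : FinitePlace K | v.val (F.coeff j) ≠ 1}).Finite :=
    Set.Finite.biUnion (Finset.finite_toSet _) fun j hj => h0 _ (mem_support_iff.1 hj)
  refine h1.subset fun v hv => ?_
  by_contra hn
  apply hv
  have h2 : ∀ j, F.coeff j ≠ 0 → v.val (F.coeff j) = 1 := by
    intro j hj
    by_contra h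
    exact hn (Set.mem_biUnion (mem_support_iff.2 hj) (by exact h))
  have hlead : F.coeff d ≠ 0 := by
    intro h
    have := E5.lead_pos v.val hd hF
    rw [h, map_zero] at this
    exact lt_irrefl _ this
  have ha : v.val (F.coeff d) = 1 := h2 d hlead
  have hle : ∀ j, v.val (F.coeff j) ≤ 1 := by
    intro j
    by_cases hj : F.coeff j = 0
    · rw [hj, map_zero]; norm_num
    · rw [h2 j hj]
  have : Nonempty (Fin (d - 1)) := ⟨⟨0, by omega⟩⟩
  unfold Tv
  refine max_eq_left (ciSup_le (fun j => ?_))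
  rw [ha, Real.one_rpow, mul_one, div_one]
  refine Real.rpow_le_one (v.val.nonneg _) (hle _) ?_
  have hjd : ((j : ℕ) : ℝ) < d := by
    have := j.2
    exact_mod_cast (by omega : (j : ℕ) < d)
  exact div_nonneg zero_le_one (sub_pos.2 hjd).le

end tv

end Pool.Agent.H951R3.PH
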