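import Pool.Agent.H951R3.PH.Defs
import Pool.Agent.H951R3.PH.E5

/-!
# Task E1: escape radius (helper551)
-/

set_option autoImplicit false

namespace Pool.Agent.H951R3.PH

open Real NumberField Polynomial

universe u

theorem E1_sum {K : Type u} [Field K] (v : AbsoluteValue K ℝ) {A : ℝ} (hA : 1 ≤ A)
    (hv : ∀ x y, v (x + y) ≤ A * max (v x) (v y)) {ι : Type*} [DecidableEq ι] (s : Finset ι)
    (f : ι → K) {C : ℝ} (hC : 0 ≤ C) (h : ∀ i ∈ s, v (f i) ≤ C) :
    v (∑ i ∈ s, f i) ≤ A ^ s.card * C := by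
  induction s using Finset.induction_on with
  | empty => simpa using hC
  | insert i s hi ih =>
    rw [Finset.sum_insert hi, Finset.card_insert_of_notMem hi]
    have h1 := ih fun j hj => h j (Finset.mem_insert_of_mem hj)
    have h2 := h i (Finset.mem_insert_self i s)
    have hA' : 1 ≤ A ^ s.card := one_le_pow₀ hA
    refine (hv _ _).trans ?_
    rw [pow_succ', mul_assoc]
    refine mul_le_mul_of_nonneg_left (max_le ?_ h1) (by linarith)
    nlinarith

theorem E1_max {K : Type u} [Field K] (v : AbsoluteValue K ℝ) {x : ℤ → K}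
    (hper : ∃ m : ℕ, 0 < m ∧ ∀ n, x (n + m) = x n) : ∃ n₀ : ℤ, ∀ n, v (x n) ≤ v (x n₀) := by
  obtain ⟨m, hm, hx⟩ := hper
  have hP : Function.Periodic x (m : ℤ) := hx
  obtain ⟨k, -, hk⟩ := Finset.exists_max_image (Finset.range m) (fun k : ℕ => v (x (k : ℤ)))
    ⟨0, Finset.mem_range.mpr hm⟩
  refine ⟨k, fun n => ?_⟩
  have hm' : (0 : ℤ) < m := by exact_mod_cast hm
  have h1 : x n = x (n % m) := by
    have h2 := hP.int_mul (n / m) (n % m)
    rw [← h2]
    congr 1
    have := Int.emod_add_mul_ediv n m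
    push_cast
    linarith
  have h3 : 0 ≤ n % (m : ℤ) := Int.emod_nonneg _ hm'.ne'
  have h4 : n % (m : ℤ) < m := Int.emod_lt_of_pos _ hm'
  have h5 : ((n % (m : ℤ)).toNat : ℤ) = n % (m : ℤ) := Int.toNat_of_nonneg h3
  have h6 := hk (n % (m : ℤ)).toNat (Finset.mem_range.mpr (by omega))
  rw [h5] at h6
  rw [h1]
  exact h6

theorem E1_le_of_pow {z Y : ℝ} (hY : 1 ≤ Y) {k : ℕ} (hk : 0 < k) (h : z ^ k ≤ Y) : z ≤ Y := by
  by_contra hz
  push Not at hz
  have h1 : 1 ≤ z := by linarith
  have h2 : z ≤ z ^ k := le_self_pow₀ h1 hk.ne'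
  linarith

theorem escape {K : Type u} [Field K] (v : AbsoluteValue K ℝ) {A : ℝ} (hA : 1 ≤ A)
    (hv : ∀ x y, v (x + y) ≤ A * max (v x) (v y)) {d : ℕ} (hd : 2 ≤ d) {F : K[X]}
    (hF : F.natDegree = d) (hF1 : F.coeff (d - 1) = 0) {δ : K} {x : ℤ → K} (hx : Orb F δ x)
    (hper : ∃ m : ℕ, 0 < m ∧ ∀ n, x (n + m) = x n) (n : ℤ) :
    v (x n) * al v d F ≤ A ^ (d + 1) * max 1 (v δ) * Tv v d F := by
  classical
  obtain ⟨n₀, hn₀⟩ := E1_max v hper
  set M := v (x n₀) with hM
  set B := max 1 (v δ) with hB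
  set T := Tv v d F with hT
  set α := al v d F with hα
  have hB1 : 1 ≤ B := le_max_left _ _
  have hT1 : 1 ≤ T := one_le_Tv v d F
  have ha : F.coeff d ≠ 0 := by
    rw [← hF]
    have hF0 : F ≠ 0 := by
      rintro rfl
      rw [natDegree_zero] at hF
      omega
    exact leadingCoeff_ne_zero.mpr hF0
  have hva : 0 < v (F.coeff d) := v.pos ha
  have hα0 : 0 < α := Real.rpow_pos_of_pos hva _
  have hd1 : ((d - 1 : ℕ) : ℝ) = (d : ℝ) - 1 := by
    rw [Nat.cast_sub (by omega), Nat.cast_one]
  have hαd : α ^ (d - 1) = v (F.coeff d) := by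
    rw [hα, al, ← Real.rpow_natCast, ← Real.rpow_mul hva.le, hd1]
    have : (d : ℝ) - 1 ≠ 0 := by
      have : (2 : ℝ) ≤ d := by exact_mod_cast hd
      linarith
    rw [one_div, inv_mul_cancel₀ this, Real.rpow_one]
  have hA0 : 0 < A := by linarith
  have hM0 : 0 ≤ M := v.nonneg _
  -- it is enough to bound the maximum
  have key : α * M ≤ A ^ (d + 1) * B * T := by
    rcases hM0.eq_or_lt with h0 | hMpos
    · rw [← h0, mul_zero]
      positivity
    have hY : 1 ≤ A ^ (d + 1) := one_le_pow₀ hA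
    -- the polynomial
    have hFy : v (F.eval (x n₀)) ≤ A * (B * M) := by
      have h1 := hx n₀
      rw [← coe_aeval_eq_eval, ← h1]
      refine (hv _ _).trans (mul_le_mul_of_nonneg_left (max_le ?_ ?_) hA0.le)
      · have := hn₀ (n₀ + 1)
        nlinarith
      · rw [smul_eq_mul, map_mul]
        exact mul_le_mul (le_max_right _ _) (hn₀ _) (v.nonneg _) (by positivity)
    have hsplit : F.coeff d * x n₀ ^ d =
        F.eval (x n₀) + -(∑ j ∈ Finset.range d, F.coeff j * x n₀ ^ j) := by
      rw [eval_eq_sum_range, hF, Finset.sum_range_succ]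
      ring
    obtain ⟨j, hj, hjmax⟩ := Finset.exists_max_image (Finset.range d)
      (fun j => v (F.coeff j * x n₀ ^ j)) ⟨0, Finset.mem_range.mpr (by omega)⟩
    rw [Finset.mem_range] at hj
    have hsum : v (∑ j ∈ Finset.range d, F.coeff j * x n₀ ^ j) ≤
        A ^ d * v (F.coeff j * x n₀ ^ j) := by
      have := E1_sum v hA hv (Finset.range d) (fun j => F.coeff j * x n₀ ^ j)
        (v.nonneg (F.coeff j * x n₀ ^ j)) hjmax
      rwa [Finset.card_range] at this
    have hmain : v (F.coeff d) * M ^ d ≤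
        A * max (A * (B * M)) (A ^ d * (v (F.coeff j) * M ^ j)) := by
      have h1 : v (F.coeff d * x n₀ ^ d) = v (F.coeff d) * M ^ d := by
        rw [map_mul, map_pow]
      rw [← h1, hsplit]
      refine (hv _ _).trans (mul_le_mul_of_nonneg_left (max_le_max hFy ?_) hA0.le)
      rw [v.map_neg]
      rw [map_mul, map_pow] at hsum
      exact hsum
    rcases le_total (A ^ d * (v (F.coeff j) * M ^ j)) (A * (B * M)) with hc | hc
    · rw [max_eq_left hc] at hmain
      have h1 : (α * M) ^ (d - 1) ≤ A ^ 2 * B := by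
        refine le_of_mul_le_mul_right ?_ hMpos
        have h2 : M ^ d = M ^ (d - 1) * M := by
          rw [← pow_succ]
          congr 1
          omega
        rw [h2] at hmain
        rw [mul_pow, hαd]
        calc v (F.coeff d) * M ^ (d - 1) * M = v (F.coeff d) * (M ^ (d - 1) * M) := by ring
          _ ≤ A * (A * (B * M)) := hmain
          _ = A ^ 2 * B * M := by ring
      have hY2 : 1 ≤ A ^ 2 * B := one_le_mul_of_one_le_of_one_le (one_le_pow₀ hA) hB1
      have h3 := E1_le_of_pow hY2 (by omega) h1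
      have h4 : A ^ 2 ≤ A ^ (d + 1) := pow_le_pow_right₀ hA (by omega)
      calc α * M ≤ A ^ 2 * B := h3
        _ ≤ A ^ (d + 1) * B := mul_le_mul_of_nonneg_right h4 (by linarith)
        _ = A ^ (d + 1) * B * 1 := by ring
        _ ≤ A ^ (d + 1) * B * T := mul_le_mul_of_nonneg_left hT1 (by positivity)
    · rw [max_eq_right hc] at hmain
      have h1 := tv_coeff v hd hF hF1 hj
      rw [div_le_iff₀ hva] at h1
      have h2 : (α * M / T) ^ (d - j) ≤ A ^ (d + 1) := by
        have hTpos : 0 < T := by linarith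
        have h3 : v (F.coeff d) * M ^ d ≤
            A ^ (d + 1) * ((T / α) ^ (d - j) * v (F.coeff d)) * M ^ j := by
          calc v (F.coeff d) * M ^ d ≤ A * (A ^ d * (v (F.coeff j) * M ^ j)) := hmain
            _ = A ^ (d + 1) * v (F.coeff j) * M ^ j := by ring
            _ ≤ A ^ (d + 1) * ((T / α) ^ (d - j) * v (F.coeff d)) * M ^ j := by
                refine mul_le_mul_of_nonneg_right ?_ (by positivity)
                exact mul_le_mul_of_nonneg_left h1 (by positivity)
        have h4 : M ^ (d - j) ≤ A ^ (d + 1) * (T / α) ^ (d - j) := by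
          refine le_of_mul_le_mul_right ?_ (mul_pos hva (pow_pos hMpos j))
          have h5 : M ^ d = M ^ (d - j) * M ^ j := by
            rw [← pow_add]
            congr 1
            omega
          rw [h5] at h3
          calc M ^ (d - j) * (v (F.coeff d) * M ^ j) =
                v (F.coeff d) * (M ^ (d - j) * M ^ j) := by ring
            _ ≤ A ^ (d + 1) * ((T / α) ^ (d - j) * v (F.coeff d)) * M ^ j := h3
            _ = A ^ (d + 1) * (T / α) ^ (d - j) * (v (F.coeff d) * M ^ j) := by ring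
        rw [div_pow, div_le_iff₀ (pow_pos hTpos _), mul_pow]
        rw [div_pow, ← mul_div_assoc, le_div_iff₀ (pow_pos hα0 _)] at h4
        linarith
      have h3 := E1_le_of_pow hY (by omega) h2
      rw [div_le_iff₀ (by linarith)] at h3
      calc α * M ≤ A ^ (d + 1) * T := h3
        _ = A ^ (d + 1) * 1 * T := by ring
        _ ≤ A ^ (d + 1) * B * T := by
            refine mul_le_mul_of_nonneg_right ?_ (by linarith)
            exact mul_le_mul_of_nonneg_left hB1 (by positivity)
  calc v (x n) * α ≤ M * α := mul_le_mul_of_nonneg_right (hn₀ n) hα0.le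
    _ = α * M := mul_comm _ _
    _ ≤ A ^ (d + 1) * B * T := key

end Pool.Agent.H951R3.PH
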