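import Pool.Agent.H951R3.PH.Defs

/-!
# Task E2: a root far away
-/

set_option autoImplicit false

namespace Pool.Agent.H951R3.PH

open Real Polynomial

universe u

namespace E2aux

variable {L : Type u} [Field L]

theorem sum_le (w : AbsoluteValue L ℝ) {A : ℝ} (hA : 1 ≤ A)
    (hw : ∀ x y, w (x + y) ≤ A * max (w x) (w y)) {ι : Type*} (s : Finset ι) (f : ι → L) {M : ℝ}
    (hM : 0 ≤ M) (hf : ∀ i ∈ s, w (f i) ≤ M) : w (∑ i ∈ s, f i) ≤ A ^ s.card * M := by
  classical
  induction s using Finset.induction_on with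
  | empty => simpa using hM
  | insert a s ha ih =>
    rw [Finset.sum_insert ha, Finset.card_insert_of_notMem ha]
    have h1 := ih fun i hi => hf i (Finset.mem_insert_of_mem hi)
    have h2 := hf a (Finset.mem_insert_self a s)
    have h3 : (1 : ℝ) ≤ A ^ s.card := one_le_pow₀ hA
    refine (hw _ _).trans ?_
    have h4 : max (w (f a)) (w (∑ i ∈ s, f i)) ≤ A ^ s.card * M :=
      max_le (h2.trans (le_mul_of_one_le_left hM h3)) h1
    calc A * max (w (f a)) (w (∑ i ∈ s, f i)) ≤ A * (A ^ s.card * M) :=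
          mul_le_mul_of_nonneg_left h4 (by linarith)
      _ = A ^ (s.card + 1) * M := by ring

theorem coeff_le (w : AbsoluteValue L ℝ) {A : ℝ} (hA : 1 ≤ A)
    (hw : ∀ x y, w (x + y) ≤ A * max (w x) (w y)) {ι : Type*} (s : Finset ι) (θ : ι → L) {r : ℝ}
    (hr : 0 ≤ r) (hθ : ∀ i, w (θ i) ≤ r) : ∀ j k, j + k = s.card →
      w ((∏ i ∈ s, (X - C (θ i))).coeff j) ≤ A ^ s.card * r ^ k := by
  classical
  induction s using Finset.induction_on with
  | empty =>
    intro j k hjk
    simp only [Finset.card_empty] at hjk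
    have hj : j = 0 := by omega
    have hk : k = 0 := by omega
    subst hj hk
    simp
  | insert a s ha ih =>
    intro j k hjk
    rw [Finset.prod_insert ha, Finset.card_insert_of_notMem ha]
    rw [Finset.card_insert_of_notMem ha] at hjk
    set Q := ∏ i ∈ s, (X - C (θ i)) with hQ
    have hA0 : 0 ≤ A := by linarith
    have hAs : 0 ≤ A ^ s.card := by positivity
    have hQd : Q.natDegree = s.card := by
      rw [hQ, natDegree_prod_of_monic _ _ fun i _ => monic_X_sub_C _]
      simp
    have hθQ : ∀ j' k', j' + k' = s.card → w (θ a * Q.coeff j') ≤ A ^ s.card * r ^ (k' + 1) := by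
      intro j' k' h
      rw [map_mul]
      refine (mul_le_mul (hθ a) (ih j' k' h) (w.nonneg _) hr).trans (le_of_eq ?_)
      ring
    cases j with
    | zero =>
      have h1 : ((X - C (θ a)) * Q).coeff 0 = -(θ a * Q.coeff 0) := by
        rw [sub_mul, coeff_sub, coeff_C_mul]
        simp
      rw [h1, map_neg_eq_map]
      have hk : k = s.card + 1 := by omega
      subst hk
      refine (hθQ 0 s.card (by omega)).trans ?_
      have h2 : A ^ s.card ≤ A ^ (s.card + 1) := pow_le_pow_right₀ hA (by omega)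
      exact mul_le_mul_of_nonneg_right h2 (by positivity)
    | succ j =>
      have h1 : ((X - C (θ a)) * Q).coeff (j + 1) = Q.coeff j + -(θ a * Q.coeff (j + 1)) := by
        rw [sub_mul, coeff_sub, coeff_C_mul, coeff_X_mul]
        ring
      rw [h1]
      have h2 := ih j k (by omega)
      have h3 : w (-(θ a * Q.coeff (j + 1))) ≤ A ^ s.card * r ^ k := by
        rw [map_neg_eq_map]
        cases k with
        | zero =>
          have h4 : Q.coeff (j + 1) = 0 := coeff_eq_zero_of_natDegree_lt (by omega)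
          rw [h4, mul_zero, map_zero]
          positivity
        | succ k => exact hθQ (j + 1) k (by omega)
      refine (hw _ _).trans ?_
      calc A * max (w (Q.coeff j)) (w (-(θ a * Q.coeff (j + 1)))) ≤ A * (A ^ s.card * r ^ k) :=
            mul_le_mul_of_nonneg_left (max_le h2 h3) hA0
        _ = A ^ (s.card + 1) * r ^ k := by ring

end E2aux

open E2aux in
theorem root_far {L : Type u} [Field L] (w : AbsoluteValue L ℝ) {A : ℝ} (hA : 1 ≤ A)
    (hw : ∀ x y, w (x + y) ≤ A * max (w x) (w y)) {d : ℕ} (hd : 2 ≤ d) (hd0 : w (d : L) ≠ 0)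
    {G : L[X]} (hG1 : G.coeff (d - 1) = 0) {T : ℝ} (hT : 1 ≤ T)
    (hc : ∃ j < d, w (G.coeff j) = T ^ (d - j)) {c : L} (hc0 : w c ≤ T ^ d / (2 * A))
    (θ : Fin d → L) (hθ : G - C c = ∏ i, (X - C (θ i))) (x : L) :
    ∃ i, w (d : L) / (2 * A ^ (2 * d + 3)) * T ≤ w (x - θ i) := by
  classical
  by_contra hcon
  push Not at hcon
  have hA0 : 0 < A := by linarith
  have hT0 : 0 < T := by linarith
  have hD0 : 0 < w (d : L) := lt_of_le_of_ne (w.nonneg _) (Ne.symm hd0)
  set η : ℝ := w (d : L) / (2 * A ^ (2 * d + 3)) with hη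
  have hη0 : 0 < η := by positivity
  have hsum : ∑ i, θ i = 0 := by
    have h1 := Polynomial.prod_X_sub_C_coeff_card_pred (Finset.univ : Finset (Fin d)) θ
      (by rw [Finset.card_univ, Fintype.card_fin]; omega)
    rw [Finset.card_univ, Fintype.card_fin, ← hθ, coeff_sub, hG1, coeff_C,
      if_neg (by omega : ¬ d - 1 = 0), sub_zero] at h1
    exact neg_eq_zero.1 h1.symm
  set r : ℝ := T / (2 * A ^ (d + 2)) with hr
  have hr0 : 0 < r := by positivity
  have hθr : ∀ i, w (θ i) ≤ r := by
    intro i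
    have h1 : (d : L) * θ i = ∑ j, (θ i - θ j) := by
      rw [Finset.sum_sub_distrib, hsum, sub_zero, Finset.sum_const, Finset.card_univ,
        Fintype.card_fin, nsmul_eq_mul]
    have h2 : w (∑ j, (θ i - θ j)) ≤ A ^ (Finset.univ : Finset (Fin d)).card * (A * (η * T)) := by
      refine sum_le w hA hw Finset.univ (fun j => θ i - θ j) (by positivity) fun j _ => ?_
      have h3 : θ i - θ j = (x - θ j) + -(x - θ i) := by ring
      rw [h3]
      refine (hw _ _).trans ?_
      rw [map_neg_eq_map]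
      exact mul_le_mul_of_nonneg_left (max_le (hcon j).le (hcon i).le) hA0.le
    rw [← h1, map_mul, Finset.card_univ, Fintype.card_fin] at h2
    have h4 : A ^ d * (A * (η * T)) = w (d : L) * r := by
      rw [hη, hr]
      field_simp
      ring
    rw [h4] at h2
    exact le_of_mul_le_mul_left h2 hD0
  obtain ⟨j, hj, hcj⟩ := hc
  have hcoef := coeff_le w hA hw (Finset.univ : Finset (Fin d)) θ hr0.le hθr j (d - j)
    (by rw [Finset.card_univ, Fintype.card_fin]; omega)
  rw [← hθ, Finset.card_univ, Fintype.card_fin] at hcoef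
  obtain ⟨k, hk⟩ : ∃ k, d - j = k + 1 := ⟨d - j - 1, by omega⟩
  have hbound : A ^ d * r ^ (d - j) ≤ T ^ (d - j) / (2 * A) := by
    rw [hk, hr, div_pow, ← mul_div_assoc, div_le_div_iff₀ (by positivity) (by positivity)]
    have h1 : 2 * A ^ (d + 2) ≤ (2 * A ^ (d + 2)) ^ (k + 1) := by
      apply le_self_pow₀ _ (by omega)
      have := one_le_pow₀ (n := d + 2) hA
      linarith
    have h2 : A ^ d * (2 * A) ≤ 2 * A ^ (d + 2) := by
      have h3 : A ^ (d + 1) ≤ A ^ (d + 2) := pow_le_pow_right₀ hA (by omega)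
      calc A ^ d * (2 * A) = 2 * A ^ (d + 1) := by ring
        _ ≤ _ := by linarith
    calc A ^ d * T ^ (k + 1) * (2 * A) = T ^ (k + 1) * (A ^ d * (2 * A)) := by ring
      _ ≤ T ^ (k + 1) * (2 * A ^ (d + 2)) ^ (k + 1) :=
        mul_le_mul_of_nonneg_left (h2.trans h1) (by positivity)
  have hTk : 0 < T ^ (d - j) := by positivity
  have hcoef2 := hcoef.trans hbound
  rcases Nat.eq_zero_or_pos j with h0 | h0
  · subst h0
    rw [coeff_sub, coeff_C_zero] at hcoef2
    rw [Nat.sub_zero] at *
    have h1 : G.coeff 0 = (G.coeff 0 - c) + c := by ring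
    have h2 : w (G.coeff 0) ≤ A * max (w (G.coeff 0 - c)) (w c) := by
      conv_lhs => rw [h1]
      exact hw _ _
    have h3 : A * max (w (G.coeff 0 - c)) (w c) ≤ A * (T ^ d / (2 * A)) :=
      mul_le_mul_of_nonneg_left (max_le hcoef2 hc0) hA0.le
    have h4 : A * (T ^ d / (2 * A)) = T ^ d / 2 := by
      field_simp
    rw [hcj] at h2
    linarith
  · rw [coeff_sub, coeff_C, if_neg (by omega : ¬ j = 0), sub_zero, hcj] at hcoef2
    have h1 : T ^ (d - j) / (2 * A) ≤ T ^ (d - j) / 2 := by
      apply div_le_div_of_nonneg_left hTk.le (by norm_num)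
      linarith
    linarith

end Pool.Agent.H951R3.PH
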