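import Pool.Agent.H951R3.PH.E2

/-!
# Task E3: boundedly many small cells
-/

set_option autoImplicit false

namespace Pool.Agent.H951R3.PH

open Real Polynomial

universe u

namespace E3aux

variable {L : Type u} [Field L]

/-- `|n| ≤ A ^ n` -/
theorem nat_le (w : AbsoluteValue L ℝ) {A : ℝ} (hA : 1 ≤ A)
    (hw : ∀ x y, w (x + y) ≤ A * max (w x) (w y)) (n : ℕ) : w (n : L) ≤ A ^ n := by
  induction n with
  | zero => simp
  | succ n ih =>
    have h1 : (1 : ℝ) ≤ A ^ n := one_le_pow₀ hA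
    push_cast
    refine (hw _ _).trans ?_
    rw [map_one, pow_succ, mul_comm (A ^ n) A]
    exact mul_le_mul_of_nonneg_left (max_le ih h1) (by linarith)

/-- the roots of a monic polynomial as a family -/
theorem exists_roots [IsAlgClosed L] {P : L[X]} (hP : P.Monic) {d : ℕ} (hd : P.natDegree = d) :
    ∃ θ : Fin d → L, P = ∏ i, (X - C (θ i)) := by
  have hs : P.Splits := IsAlgClosed.splits P
  obtain ⟨l, hl, hlen⟩ : ∃ l : List L, P = (l.map fun a => X - C a).prod ∧ l.length = d := by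
    refine ⟨P.roots.toList, ?_, ?_⟩
    · have h1 : P = (P.roots.map fun a => X - C a).prod := hs.eq_prod_roots_of_monic hP
      have h2 : (P.roots.map fun a => X - C a).prod =
          (P.roots.toList.map fun a => X - C a).prod := by
        conv_lhs => rw [← Multiset.coe_toList P.roots]
        rw [Multiset.map_coe, Multiset.prod_coe]
      exact h1.trans h2
    · rw [← hd, hs.natDegree_eq_card_roots]
      simp
  subst hlen
  refine ⟨fun i => l[i.val], ?_⟩
  rw [hl]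
  exact (Fin.prod_univ_fun_getElem l fun a => X - C a).symm

/-- near lemma -/
theorem near [IsAlgClosed L] (w : AbsoluteValue L ℝ) {A : ℝ} (hA : 1 ≤ A)
    (hw : ∀ x y, w (x + y) ≤ A * max (w x) (w y)) {d : ℕ} (hd : 2 ≤ d) (hd0 : w (d : L) ≠ 0)
    {G : L[X]} (hG : G.Monic) (hGd : G.natDegree = d) (hG1 : G.coeff (d - 1) = 0) {T : ℝ}
    (hT : 1 ≤ T) (hc : ∃ j < d, w (G.coeff j) = T ^ (d - j)) {c : L}
    (hc0 : w c ≤ T ^ d / (2 * A)) :
    ∃ (θ : Fin d → L) (nr : L → Fin d), ∀ z, w (z - θ (nr z)) ^ (d - 1) *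
      (w (d : L) / (2 * A ^ (2 * d + 3)) * T) ≤ w (G.eval z - c) := by
  have hPm : (G - C c).Monic := by
    apply hG.sub_of_left
    refine lt_of_le_of_lt degree_C_le ?_
    rw [← natDegree_pos_iff_degree_pos, hGd]
    omega
  have hPd : (G - C c).natDegree = d := by rw [natDegree_sub_C, hGd]
  obtain ⟨θ, hθ⟩ := exists_roots hPm hPd
  have : Nonempty (Fin d) := ⟨⟨0, by omega⟩⟩
  have hmin : ∀ z : L, ∃ i : Fin d, ∀ k, w (z - θ i) ≤ w (z - θ k) := fun z =>
    Finite.exists_min fun i => w (z - θ i)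
  choose nr hnr using hmin
  refine ⟨θ, nr, fun z => ?_⟩
  obtain ⟨i₀, hi₀⟩ := root_far w hA hw hd hd0 hG1 hT hc hc0 θ hθ z
  have h1 : G.eval z - c = ∏ i, (z - θ i) := by
    have h2 := congrArg (Polynomial.eval z) hθ
    simpa [eval_prod] using h2
  rw [h1, map_prod, ← Finset.prod_erase_mul Finset.univ _ (Finset.mem_univ i₀)]
  have hm0 : 0 ≤ w (z - θ (nr z)) := w.nonneg _
  have h3 : w (z - θ (nr z)) ^ (d - 1) ≤ ∏ i ∈ Finset.univ.erase i₀, w (z - θ i) := by
    have h4 : (Finset.univ.erase i₀ : Finset (Fin d)).card = d - 1 := by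
      rw [Finset.card_erase_of_mem (Finset.mem_univ _), Finset.card_univ, Fintype.card_fin]
    rw [← h4, ← Finset.prod_const]
    exact Finset.prod_le_prod (fun _ _ => hm0) fun i _ => hnr z i
  have h5 : 0 ≤ w (d : L) / (2 * A ^ (2 * d + 3)) * T := by
    have := w.nonneg (d : L)
    positivity
  exact mul_le_mul h3 hi₀ h5 (Finset.prod_nonneg fun _ _ => w.nonneg _)

/-- difference bound -/
theorem sub_le' (w : AbsoluteValue L ℝ) {A : ℝ} (hA : 1 ≤ A)
    (hw : ∀ x y, w (x + y) ≤ A * max (w x) (w y)) {x y : L} {r : ℝ} (hx : w x ≤ r)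
    (hy : w y ≤ r) : w (x - y) ≤ A * r := by
  rw [sub_eq_add_neg]
  refine (hw _ _).trans ?_
  rw [map_neg_eq_map]
  exact mul_le_mul_of_nonneg_left (max_le hx hy) (by linarith)

theorem add_le' (w : AbsoluteValue L ℝ) {A : ℝ} (hA : 1 ≤ A)
    (hw : ∀ x y, w (x + y) ≤ A * max (w x) (w y)) {x y : L} {r : ℝ} (hx : w x ≤ r)
    (hy : w y ≤ r) : w (x + y) ≤ A * r :=
  (hw _ _).trans (mul_le_mul_of_nonneg_left (max_le hx hy) (by linarith))

end E3aux

open E3aux in
theorem cells {L : Type u} [Field L] [IsAlgClosed L] (w : AbsoluteValue L ℝ) {A : ℝ} (hA : 1 ≤ A)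
    (hw : ∀ x y, w (x + y) ≤ A * max (w x) (w y)) {d : ℕ} (hd : 2 ≤ d) (hd0 : w (d : L) ≠ 0)
    {G : L[X]} (hG : G.Monic) (hGd : G.natDegree = d) (hG1 : G.coeff (d - 1) = 0) {T : ℝ}
    (hc : ∃ j < d, w (G.coeff j) = T ^ (d - j)) {δ : L} {B : ℝ} (hB : 1 ≤ B) (hδ : w δ ≤ B)
    (hT : 2 * A ^ (d + 3) * B ^ 2 ≤ T) {ι : Type*} (x : ι → ℤ → L)
    (hx : ∀ i n, x i (n + 1) + δ * x i (n - 1) = G.eval (x i n))
    (hS : ∀ i n, w (x i n) ≤ A ^ (d + 1) * B * T) :
    ∃ cell : ι → Fin (d ^ 6), ∀ i j, cell i = cell j → ∀ n : ℤ, n = 0 ∨ n = 1 →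
      w (x i n - x j n) ^ (d - 1) ≤ 4 * A ^ (6 * d + 9) * B ^ 3 / (w (d : L) ^ 2 * T) := by
  classical
  have hA0 : 0 < A := by linarith
  have hB0 : 0 < B := by linarith
  have hApow : ∀ n : ℕ, 1 ≤ A ^ n := fun n => one_le_pow₀ hA
  have hB2 : 1 ≤ B ^ 2 := one_le_pow₀ hB
  have hT2 : 2 ≤ T := by
    refine le_trans ?_ hT
    nlinarith [mul_le_mul (hApow (d + 3)) hB2 zero_le_one (by linarith [hApow (d + 3)])]
  have hT1 : 1 ≤ T := by linarith
  have hT0 : 0 < T := by linarith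
  set D : ℝ := w (d : L) with hD
  have hD0 : 0 < D := lt_of_le_of_ne (w.nonneg _) (Ne.symm hd0)
  have hDA : D ≤ A ^ d := nat_le w hA hw d
  set η : ℝ := D / (2 * A ^ (2 * d + 3)) with hη
  have hη0 : 0 < η := by positivity
  have hη1 : η ≤ 1 := by
    rw [hη, div_le_one (by positivity)]
    have h1 : A ^ d ≤ A ^ (2 * d + 3) := pow_le_pow_right₀ hA (by omega)
    have h2 := hApow (2 * d + 3)
    linarith
  set r₁ : ℝ := A ^ (d + 2) * B ^ 2 / η with hr₁
  have hr₁1 : 1 ≤ r₁ := by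
    rw [hr₁, le_div_iff₀ hη0]
    have h1 : 1 * 1 ≤ A ^ (d + 2) * B ^ 2 :=
      mul_le_mul (hApow _) hB2 zero_le_one (by linarith [hApow (d + 2)])
    linarith
  have hr₁0 : 0 < r₁ := by linarith
  -- step 1
  have hc0 : w (0 : L) ≤ T ^ d / (2 * A) := by
    rw [map_zero]
    positivity
  obtain ⟨θ, nr, hnr⟩ := near w hA hw hd hd0 hG hGd hG1 hT1 hc hc0
  have hval : ∀ i n, w (G.eval (x i n)) ≤ A ^ (d + 2) * B ^ 2 * T := by
    intro i n
    rw [← hx]
    have h1 : w (x i (n + 1)) ≤ A ^ (d + 1) * B ^ 2 * T := by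
      refine (hS i _).trans ?_
      have : A ^ (d + 1) * B * T ≤ A ^ (d + 1) * B * T * B :=
        le_mul_of_one_le_right (by positivity) hB
      nlinarith
    have h2 : w (δ * x i (n - 1)) ≤ A ^ (d + 1) * B ^ 2 * T := by
      rw [map_mul]
      refine (mul_le_mul hδ (hS i _) (w.nonneg _) hB0.le).trans (le_of_eq ?_)
      ring
    refine (add_le' w hA hw h1 h2).trans (le_of_eq ?_)
    ring
  have hpow : d - 1 ≠ 0 := by omega
  have hm : ∀ i n, w (x i n - θ (nr (x i n))) ≤ r₁ := by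
    intro i n
    have h1 := hnr (x i n)
    rw [sub_zero] at h1
    have h2 := h1.trans (hval i n)
    set m := w (x i n - θ (nr (x i n))) with hmdef
    have hm0 : 0 ≤ m := w.nonneg _
    have h3 : m ^ (d - 1) ≤ r₁ := by
      rw [hr₁, le_div_iff₀ hη0]
      have h4 : m ^ (d - 1) * η * T ≤ A ^ (d + 2) * B ^ 2 * T := by
        calc m ^ (d - 1) * η * T = m ^ (d - 1) * (η * T) := by ring
          _ ≤ _ := h2
      exact le_of_mul_le_mul_right h4 hT0
    by_contra hcon
    rw [not_le] at hcon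
    have h5 : m ≤ m ^ (d - 1) := le_self_pow₀ (by linarith) hpow
    linarith
  let kap : ι → Fin 4 → Fin d := fun i t => nr (x i ((t : ℕ) - 1))
  have hclose : ∀ i j, kap i = kap j → ∀ n : ℤ, -1 ≤ n → n ≤ 2 →
      w (x i n - x j n) ≤ A * r₁ := by
    intro i j hij n hn1 hn2
    have ht : ∃ t : Fin 4, ((t : ℕ) : ℤ) - 1 = n := by
      refine ⟨⟨(n + 1).toNat, by omega⟩, ?_⟩
      simp only
      omega
    obtain ⟨t, ht⟩ := ht
    have h1 := congrFun hij t
    simp only [kap, ht] at h1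
    have h2 := hm i n
    have h3 := hm j n
    rw [← h1] at h3
    have h4 : x i n - x j n = (x i n - θ (nr (x i n))) - (x j n - θ (nr (x i n))) := by ring
    rw [h4]
    exact sub_le' w hA hw h2 h3
  -- step 2
  let cc : (Fin 4 → Fin d) → ℤ → L := fun k n =>
    if h : ∃ j, kap j = k then G.eval (x h.choose n) else 0
  have hcc : ∀ k n, w (cc k n) ≤ T ^ d / (2 * A) := by
    intro k n
    have hTd : A ^ (d + 2) * B ^ 2 * T ≤ T ^ d / (2 * A) := by
      rw [le_div_iff₀ (by positivity)]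
      have h1 : T ^ 2 ≤ T ^ d := pow_le_pow_right₀ hT1 hd
      have h2 : 2 * A ^ (d + 3) * B ^ 2 * T ≤ T * T := mul_le_mul_of_nonneg_right hT hT0.le
      calc A ^ (d + 2) * B ^ 2 * T * (2 * A) = 2 * A ^ (d + 3) * B ^ 2 * T := by ring
        _ ≤ T * T := h2
        _ = T ^ 2 := by ring
        _ ≤ T ^ d := h1
    by_cases h : ∃ j, kap j = k
    · simp only [cc, dif_pos h]
      exact (hval _ _).trans hTd
    · simp only [cc, dif_neg h]
      exact hc0
  choose θ' nr' hnr' using fun (k : Fin 4 → Fin d) (n : ℤ) =>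
    near w hA hw hd hd0 hG hGd hG1 hT1 hc (hcc k n)
  have hm' : ∀ i (n : ℤ), n = 0 ∨ n = 1 →
      w (x i n - θ' (kap i) n (nr' (kap i) n (x i n))) ^ (d - 1) * (η * T) ≤
        A ^ 2 * B * r₁ := by
    intro i n hn
    refine (hnr' (kap i) n (x i n)).trans ?_
    have h : ∃ j, kap j = kap i := ⟨i, rfl⟩
    have h1 : cc (kap i) n = G.eval (x h.choose n) := by
      simp only [cc, dif_pos h]
    have h2 : kap h.choose = kap i := h.choose_spec
    rw [h1, ← hx i n, ← hx h.choose n]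
    have h3 : x i (n + 1) + δ * x i (n - 1) - (x h.choose (n + 1) + δ * x h.choose (n - 1)) =
        (x i (n + 1) - x h.choose (n + 1)) + δ * (x i (n - 1) - x h.choose (n - 1)) := by ring
    rw [h3]
    have h4 : w (x i (n + 1) - x h.choose (n + 1)) ≤ A * r₁ * B := by
      refine (hclose i _ h2.symm (n + 1) (by omega) (by omega)).trans ?_
      exact le_mul_of_one_le_right (by positivity) hB
    have h5 : w (δ * (x i (n - 1) - x h.choose (n - 1))) ≤ A * r₁ * B := by
      rw [map_mul]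
      have h6 := hclose i _ h2.symm (n - 1) (by omega) (by omega)
      refine (mul_le_mul hδ h6 (w.nonneg _) hB0.le).trans (le_of_eq ?_)
      ring
    refine (add_le' w hA hw h4 h5).trans (le_of_eq ?_)
    ring
  have hcard : Fintype.card ((Fin 4 → Fin d) × Fin d × Fin d) = d ^ 6 := by
    simp only [Fintype.card_prod, Fintype.card_pi, Fintype.card_fin, Finset.prod_const,
      Finset.card_univ]
    ring
  let eqv := Fintype.equivFinOfCardEq hcard
  refine ⟨fun i => eqv (kap i, nr' (kap i) 0 (x i 0), nr' (kap i) 1 (x i 1)), ?_⟩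
  intro i j hij n hn
  have hij' := eqv.injective hij
  rw [Prod.mk.injEq, Prod.mk.injEq] at hij'
  obtain ⟨hk, h0, h1⟩ := hij'
  have hnr2 : nr' (kap i) n (x i n) = nr' (kap j) n (x j n) := by
    rcases hn with rfl | rfl
    · exact h0
    · exact h1
  have e1 := hm' i n hn
  have e2 := hm' j n hn
  rw [← hnr2, ← hk] at e2
  set p := θ' (kap i) n (nr' (kap i) n (x i n)) with hp
  set m₁ := w (x i n - p) with hm₁
  set m₂ := w (x j n - p) with hm₂
  have hm₁0 : 0 ≤ m₁ := w.nonneg _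
  have hm₂0 : 0 ≤ m₂ := w.nonneg _
  have hηT : 0 < η * T := by positivity
  have e3 : max m₁ m₂ ^ (d - 1) ≤ A ^ 2 * B * r₁ / (η * T) := by
    rcases le_total m₁ m₂ with h | h
    · rw [max_eq_right h, le_div_iff₀ hηT]
      exact e2
    · rw [max_eq_left h, le_div_iff₀ hηT]
      exact e1
  have e4 : w (x i n - x j n) ≤ A * max m₁ m₂ := by
    have h4 : x i n - x j n = (x i n - p) - (x j n - p) := by ring
    rw [h4]
    exact sub_le' w hA hw (le_max_left _ _) (le_max_right _ _)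
  have e5 : w (x i n - x j n) ^ (d - 1) ≤ A ^ (d - 1) * (A ^ 2 * B * r₁ / (η * T)) := by
    refine (pow_le_pow_left₀ (w.nonneg _) e4 (d - 1)).trans ?_
    rw [mul_pow]
    exact mul_le_mul_of_nonneg_left e3 (by positivity)
  refine e5.trans (le_of_eq ?_)
  obtain ⟨k, rfl⟩ : ∃ k, d = k + 2 := ⟨d - 2, by omega⟩
  have hk1 : k + 2 - 1 = k + 1 := by omega
  rw [hr₁, hη, hk1]
  field_simp
  ring

end Pool.Agent.H951R3.PH
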