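import Pool.Agent.H951R3.PH.Defs
import Pool.Agent.H951R3.PH.D2
import Pool.Agent.H951R3.PH.E3
import Pool.Agent.H951R3.PH.E5

/-!
# Periodic points of generalized Henon maps: E4, the cells over `K` (helper55)
-/

set_option autoImplicit false

namespace Pool.Agent.H951R3.PH

open Real NumberField Polynomial

universe u

theorem al_pow {K : Type u} [Field K] (v : AbsoluteValue K ℝ) {d : ℕ} (hd : 2 ≤ d) (F : K[X]) :
    al v d F ^ (d - 1) = v (F.coeff d) := by
  unfold al
  rw [← Real.rpow_natCast, ← Real.rpow_mul (v.nonneg _)]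
  have h1 : ((d - 1 : ℕ) : ℝ) = (d : ℝ) - 1 := by
    rw [Nat.cast_sub (by omega)]; simp
  have h2 : (d : ℝ) - 1 ≠ 0 := by
    have : (2 : ℝ) ≤ d := by exact_mod_cast hd
    intro h; linarith
  rw [h1, one_div, inv_mul_cancel₀ h2, Real.rpow_one]

theorem cellsK {K : Type u} [Field K] [NumberField K] (p : Pl K) {d : ℕ} (hd : 2 ≤ d) {F : K[X]}
    (hF : F.natDegree = d) (hF1 : F.coeff (d - 1) = 0) {δ : K}
    (hT : 2 * pA p ^ (d + 3) * max 1 (pv p δ) ^ 2 ≤ Tv (pv p) d F) {ι : Type*} (x : ι → ℤ → K)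
    (hx : ∀ i, Orb F δ (x i))
    (hS : ∀ i n, pv p (x i n) * al (pv p) d F ≤
      pA p ^ (d + 1) * max 1 (pv p δ) * Tv (pv p) d F) :
    ∃ cell : ι → Fin (d ^ 6), ∀ i j, cell i = cell j → ∀ n : ℤ, n = 0 ∨ n = 1 →
      (pv p (x i n - x j n) * al (pv p) d F) ^ (d - 1) ≤
        4 * pA p ^ (6 * d + 9) * max 1 (pv p δ) ^ 3 / (pv p (d : K) ^ 2 * Tv (pv p) d F) := by
  obtain ⟨w, hw, hwA⟩ := exists_ext p
  have hwK : ∀ z : K, w (algebraMap K (AlgebraicClosure K) z) = pv p z := hw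
  have hF0 : F ≠ 0 := by
    rintro rfl
    rw [natDegree_zero] at hF
    omega
  have ha : F.coeff d ≠ 0 := by
    rw [← hF]
    exact leadingCoeff_ne_zero.mpr hF0
  have hva : 0 < pv p (F.coeff d) := (pv p).pos ha
  have hal : 0 < al (pv p) d F := Real.rpow_pos_of_pos hva _
  have halp := al_pow (pv p) hd F
  set a := al (pv p) d F with ha_def
  set T := Tv (pv p) d F with hT_def
  set alg := algebraMap K (AlgebraicClosure K) with halg
  have halg0 : alg (F.coeff d) ≠ 0 := by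
    rw [Ne, map_eq_zero]; exact ha
  obtain ⟨lam, hlam⟩ := IsAlgClosed.exists_pow_nat_eq (k := AlgebraicClosure K)
    ((alg (F.coeff d))⁻¹) (show 0 < d - 1 by omega)
  have hlam0 : lam ≠ 0 := by
    rintro rfl
    rw [zero_pow (by omega)] at hlam
    exact inv_ne_zero halg0 hlam.symm
  have hwl : w lam = a⁻¹ := by
    have h1 : w lam ^ (d - 1) = (a⁻¹) ^ (d - 1) := by
      rw [← map_pow, hlam, map_inv₀, hwK, inv_pow, halp]
    exact (pow_left_inj₀ (w.nonneg _) (inv_nonneg.mpr hal.le) (by omega)).mp h1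
  have hwl' : w lam⁻¹ = a := by rw [map_inv₀, hwl, inv_inv]
  let G : (AlgebraicClosure K)[X] := C lam⁻¹ * (F.map alg).comp (C lam * X)
  have hGc : ∀ j, G.coeff j = lam⁻¹ * (alg (F.coeff j) * lam ^ j) := by
    intro j
    simp only [G, coeff_C_mul, comp_C_mul_X_coeff, coeff_map]
  have hGle : G.natDegree ≤ d := by
    rw [natDegree_le_iff_coeff_eq_zero]
    intro N hN
    rw [hGc, coeff_eq_zero_of_natDegree_lt (by rw [hF]; exact hN)]
    simp
  have hGd1 : G.coeff d = 1 := by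
    rw [hGc]
    have h1 : lam ^ d = lam ^ (d - 1) * lam := by
      rw [← pow_succ]; congr 1; omega
    rw [h1, hlam]
    field_simp
  have hGm : G.Monic := monic_of_natDegree_le_of_coeff_eq_one d hGle hGd1
  have hGd : G.natDegree = d :=
    natDegree_eq_of_le_of_coeff_ne_zero hGle (by rw [hGd1]; exact one_ne_zero)
  have hG1 : G.coeff (d - 1) = 0 := by
    rw [hGc, hF1]; simp
  have hA : 1 ≤ pA p := one_le_pA p
  have hB : 1 ≤ max 1 (pv p δ) := le_max_left _ _
  have hT1 : 1 < T := by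
    have h1 : (1 : ℝ) ≤ pA p ^ (d + 3) := one_le_pow₀ hA
    have h2 : (1 : ℝ) ≤ max 1 (pv p δ) ^ 2 := one_le_pow₀ hB
    nlinarith
  have hc : ∃ j < d, w (G.coeff j) = T ^ (d - j) := by
    obtain ⟨j, hj, hj'⟩ := tv_attained (pv p) hd hF hT1
    refine ⟨j, hj, ?_⟩
    rw [hGc, map_mul, map_mul, map_pow, hwK, hwl', hwl]
    have h1 : pv p (F.coeff j) = pv p (F.coeff d) * (T / a) ^ (d - j) := by
      rw [← hj', mul_div_cancel₀ _ hva.ne']
    rw [h1, ← halp]
    have h2 : a ^ (d - 1) * a = a ^ d := by rw [← pow_succ]; congr 1; omega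
    have h3 : a ^ (d - j) * a ^ j = a ^ d := by rw [← pow_add]; congr 1; omega
    have e : a * (a ^ (d - 1) * (T / a) ^ (d - j) * a⁻¹ ^ j) =
        (a ^ (d - 1) * a) * (T / a) ^ (d - j) * a⁻¹ ^ j := by ring
    rw [e, h2, ← h3, div_pow, inv_pow]
    have h4 : a ^ (d - j) ≠ 0 := pow_ne_zero _ hal.ne'
    have h5 : a ^ j ≠ 0 := pow_ne_zero _ hal.ne'
    field_simp
  have hd0 : w ((d : ℕ) : AlgebraicClosure K) ≠ 0 := by
    rw [Ne, map_eq_zero]
    exact_mod_cast (by omega : d ≠ 0)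
  have hwd : w ((d : ℕ) : AlgebraicClosure K) = pv p (d : K) := by
    rw [← hwK (d : K), map_natCast alg d]
  let u : ι → ℤ → AlgebraicClosure K := fun i n => lam⁻¹ * alg (x i n)
  have hu : ∀ i n, u i (n + 1) + alg δ * u i (n - 1) = G.eval (u i n) := by
    intro i n
    have h1 := hx i n
    have h2 : G.eval (u i n) = lam⁻¹ * alg (aeval (x i n) F) := by
      simp only [G, u, eval_mul, eval_C, eval_comp, eval_X]
      rw [mul_inv_cancel_left₀ hlam0, eval_map, eval₂_at_apply, coe_aeval_eq_eval]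
    rw [h2, ← h1, map_add, smul_eq_mul, map_mul]
    simp only [u]
    ring
  have hwu : ∀ i n, w (u i n) = pv p (x i n) * a := by
    intro i n
    simp only [u]
    rw [map_mul, hwl', hwK, mul_comm]
  obtain ⟨cell, hcell⟩ := cells w hA hwA hd hd0 hGm hGd hG1 hc hB
    (δ := alg δ) (by rw [hwK]; exact le_max_right _ _) hT u hu
    (fun i n => by rw [hwu]; exact hS i n)
  refine ⟨cell, fun i j hij n hn => ?_⟩
  have h := hcell i j hij n hn
  have h2 : w (u i n - u j n) = pv p (x i n - x j n) * a := by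
    simp only [u]
    rw [← mul_sub, ← map_sub, map_mul, hwl', hwK, mul_comm]
  rw [h2, hwd] at h
  exact h

end Pool.Agent.H951R3.PH
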