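import Pool.Agent.H951R3.PH.Defs

/-!
# E6: the centred form of a polynomial
-/

set_option autoImplicit false

namespace Pool.Agent.H951R3.PH

open Real NumberField Polynomial

universe u

section tv

variable {K : Type u} [Field K]

theorem cen_eq_taylor (d : ℕ) (F : K[X]) (δ : K) :
    cen d F δ = taylor (ctr d F) F - C ((1 + δ) * ctr d F) := rfl

theorem taylor_top {R : Type u} [CommRing R] [IsDomain R] {d : ℕ} {F : R[X]}
    (hF : F.natDegree = d) (b : R) : (taylor b F).coeff d = F.coeff d := by
  have h1 : (taylor b F).leadingCoeff = F.leadingCoeff := by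
    rw [taylor_apply, leadingCoeff_comp (by rw [natDegree_X_add_C]; exact one_ne_zero),
      leadingCoeff_X_add_C, one_pow, mul_one]
  have h2 : (taylor b F).natDegree = d := by rw [natDegree_taylor, hF]
  rw [leadingCoeff, leadingCoeff, h2, hF] at h1
  exact h1

theorem taylor_next {R : Type u} [CommRing R] {d : ℕ} (hd : 1 ≤ d) {F : R[X]}
    (hF : F.natDegree ≤ d) (b : R) :
    (taylor b F).coeff (d - 1) = F.coeff (d - 1) + d * F.coeff d * b := by
  rw [taylor_coeff]
  have h1 : (hasseDeriv (d - 1) F).natDegree < 2 := by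
    have := natDegree_hasseDeriv_le F (d - 1)
    omega
  rw [eval_eq_sum_range' h1]
  simp only [Finset.sum_range_succ, Finset.sum_range_zero, hasseDeriv_coeff]
  have e1 : 0 + (d - 1) = d - 1 := Nat.zero_add _
  have e2 : 1 + (d - 1) = d := by omega
  have e3 : d.choose (d - 1) = d := by
    rw [← Nat.choose_symm (by omega : d - 1 ≤ d)]
    have : d - (d - 1) = 1 := by omega
    rw [this, Nat.choose_one_right]
  rw [e1, e2, e3, Nat.choose_self]
  simp

variable [CharZero K]

theorem cen_natDegree {d : ℕ} (hd : 2 ≤ d) {F : K[X]} (hF : F.natDegree = d) (δ : K) :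
    (cen d F δ).natDegree = d := by
  rw [cen_eq_taylor, natDegree_sub_C, natDegree_taylor, hF]

theorem cen_lead {d : ℕ} (hd : 2 ≤ d) {F : K[X]} (hF : F.natDegree = d) (δ : K) :
    (cen d F δ).coeff d = F.coeff d := by
  rw [cen_eq_taylor, coeff_sub, taylor_top hF, coeff_C, if_neg (by omega), sub_zero]

theorem cen_coeff {d : ℕ} (hd : 2 ≤ d) {F : K[X]} (hF : F.natDegree = d) (δ : K) :
    (cen d F δ).coeff (d - 1) = 0 := by
  have hd0 : (d : K) ≠ 0 := by
    rw [Nat.cast_ne_zero]
    omega
  have hF0 : F.coeff d ≠ 0 := by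
    have h1 : F ≠ 0 := by
      rintro rfl
      rw [natDegree_zero] at hF
      omega
    have h2 := leadingCoeff_ne_zero.2 h1
    rwa [leadingCoeff, hF] at h2
  rw [cen_eq_taylor, coeff_sub, taylor_next (by omega) hF.le, coeff_C, if_neg (by omega), sub_zero,
    ctr]
  field_simp
  ring

theorem cen_orb {d : ℕ} {F : K[X]} {δ : K} {x : ℤ → K} (hx : Orb F δ x) :
    Orb (cen d F δ) δ (fun n => x n - ctr d F) := by
  intro n
  have h := hx n
  simp only [smul_eq_mul, coe_aeval_eq_eval] at h ⊢
  rw [cen, eval_sub, eval_comp, eval_C, eval_add, eval_X, eval_C, sub_add_cancel, ← h]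
  ring

end tv

end Pool.Agent.H951R3.PH
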