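import Pool.Agent.H951R3.PH.E6
import Pool.Agent.H951R3.PB.F1

/-!
# E7: size at places of potentially good reduction
-/

set_option autoImplicit false

namespace Pool.Agent.H951R3.PH

open Real NumberField Polynomial

universe u

theorem E7_sum {L : Type u} [Field L] {w : AbsoluteValue L ℝ} (hw : IsNonarchimedean w)
    {D : ℝ} (hD : 0 ≤ D) (s : Finset ℕ) (f : ℕ → L) (h : ∀ k ∈ s, w (f k) ≤ D) :
    w (∑ k ∈ s, f k) ≤ D := by
  classical
  induction s using Finset.induction_on with
  | empty => simpa using hD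
  | insert a s ha ih =>
    rw [Finset.sum_insert ha]
    refine (hw _ _).trans (max_le (h a (Finset.mem_insert_self a s)) (ih fun k hk => ?_))
    exact h k (Finset.mem_insert_of_mem hk)

theorem E7_nat {L : Type u} [Field L] {w : AbsoluteValue L ℝ} (hw : IsNonarchimedean w) (n : ℕ) :
    w (n : L) ≤ 1 := by
  induction n with
  | zero => simp
  | succ n ih =>
    rw [Nat.cast_succ]
    refine (hw _ _).trans (max_le ih ?_)
    rw [map_one]

/-- coefficients of `g (X + s)` -/
theorem E7_taylor {L : Type u} [Field L] {w : AbsoluteValue L ℝ} (hw : IsNonarchimedean w)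
    {d : ℕ} {g : L[X]} (hg : g.natDegree ≤ d) (h1 : ∀ j, w (g.coeff j) ≤ 1) {s : L} {D : ℝ}
    (hD : 1 ≤ D) (hs : w s ≤ D) {j : ℕ} (hj : j ≤ d) : w ((taylor s g).coeff j) ≤ D ^ (d - j) := by
  have hlt : (hasseDeriv j g).natDegree < d - j + 1 := by
    have := natDegree_hasseDeriv_le g j
    omega
  rw [taylor_coeff, eval_eq_sum_range' hlt]
  apply E7_sum hw (by positivity)
  intro k hk
  rw [Finset.mem_range] at hk
  rw [hasseDeriv_coeff, map_mul, map_mul, map_pow]
  calc w ((k + j).choose j : L) * w (g.coeff (k + j)) * w s ^ k ≤ 1 * 1 * D ^ k := by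
        apply mul_le_mul
        · exact mul_le_mul (E7_nat hw _) (h1 _) (w.nonneg _) zero_le_one
        · exact pow_le_pow_left₀ (w.nonneg _) hs k
        · exact pow_nonneg (w.nonneg _) k
        · norm_num
    _ = D ^ k := by ring
    _ ≤ D ^ (d - j) := pow_le_pow_right₀ hD (by omega)

theorem potgood_Tv {K : Type u} [Field K] [NumberField K] {d : ℕ} (hd : 2 ≤ d) {F : K[X]}
    (hF : F.natDegree = d) {δ : K} (v : FinitePlace K) (h : PotGood v.val d F δ) :
    Tv v.val d (cen d F δ) ≤ (v.val (d : K))⁻¹ := by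
  obtain ⟨hδ, w, hext, g, l, b', hl, hgd, hg1, hgl, hconj⟩ := h
  have hw : IsNonarchimedean w := PB.ext_na v w hext
  set alg := algebraMap K (AlgebraicClosure K) with halg
  set b0 := alg (ctr d F) with hb0
  set t := (b' - b0) / l with ht
  have hlt : l * t = b' - b0 := by rw [ht]; field_simp
  set G0 := (cen d F δ).map alg with hG0
  have hd1 : 1 ≤ d := by omega
  -- the conjugation
  have hpoly : G0.comp (C l * X) = C l * (taylor (-t) g + C ((1 + alg δ) * t)) := by
    apply Polynomial.funext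
    intro z
    have h1 := hconj (z - t)
    rw [aeval_def, eval₂_eq_eval_map] at h1
    simp only [eval_comp, eval_mul, eval_C, eval_X, eval_add, taylor_eval]
    rw [hG0, cen, Polynomial.map_sub, Polynomial.map_comp, Polynomial.map_add, map_X, map_C, map_C,
      eval_sub, eval_comp, eval_add, eval_X, eval_C, eval_C]
    have e1 : l * (z - t) + b' = l * z + alg (ctr d F) := by
      rw [mul_sub, hlt, hb0]
      ring
    rw [e1] at h1
    have e2 : eval (l * z + alg (ctr d F)) (F.map alg) = l * eval (z - t) g +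
        (1 + alg δ) * b' := by
      rw [h1]
      ring
    rw [e2, map_mul, map_add, map_one, ← hb0]
    have e3 : z + -t = z - t := by ring
    rw [e3]
    calc l * eval (z - t) g + (1 + alg δ) * b' - (1 + alg δ) * b0
        = l * eval (z - t) g + (1 + alg δ) * (b' - b0) := by ring
      _ = l * eval (z - t) g + (1 + alg δ) * (l * t) := by rw [hlt]
      _ = l * (eval (z - t) g + (1 + alg δ) * t) := by ring
  have hco : ∀ j, G0.coeff j * l ^ j =
      l * ((taylor (-t) g).coeff j + (C ((1 + alg δ) * t)).coeff j) := by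
    intro j
    have h1 := congrArg (fun p => coeff p j) hpoly
    simp only [comp_C_mul_X_coeff, coeff_C_mul, coeff_add] at h1
    exact h1
  have hlw : 0 < w l := w.pos hl
  set D : ℝ := (w (d : AlgebraicClosure K))⁻¹ with hDdef
  have hdK : (d : AlgebraicClosure K) ≠ 0 := by
    rw [Nat.cast_ne_zero]
    omega
  have hwd : 0 < w (d : AlgebraicClosure K) := w.pos hdK
  have hD1 : 1 ≤ D := (one_le_inv₀ hwd).2 (E7_nat hw d)
  have hDv : (v.val (d : K))⁻¹ = D := by
    rw [hDdef, ← hext (d : K), map_natCast]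
  -- the leading coefficient
  have hlead : w (G0.coeff d) * w l ^ (d - 1) = 1 := by
    have h1 := hco d
    rw [taylor_top hgd, coeff_C, if_neg (by omega), add_zero] at h1
    have h2 := congrArg w h1
    rw [map_mul, map_mul, map_pow, hgl, mul_one] at h2
    have h3 : w l ^ d = w l ^ (d - 1) * w l := by
      rw [← pow_succ]
      congr 1
      omega
    rw [h3, ← mul_assoc] at h2
    exact mul_right_cancel₀ hlw.ne' (by rw [h2, one_mul])
  -- the next coefficient
  have ht1 : w t ≤ D := by
    have h1 := hco (d - 1)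
    rw [hG0, coeff_map, cen_coeff hd hF, map_zero, zero_mul, taylor_next hd1 hgd.le, coeff_C,
      if_neg (by omega), add_zero] at h1
    have h2 : (d : AlgebraicClosure K) * g.coeff d * t = g.coeff (d - 1) := by
      have h3 := (mul_eq_zero.1 h1.symm).resolve_left hl
      linear_combination -h3
    have h4 := congrArg w h2
    rw [map_mul, map_mul, hgl, mul_one] at h4
    rw [hDdef, ← one_div, le_div_iff₀ hwd, mul_comm, h4]
    exact hg1 _
  have hcoef : ∀ j, w (G0.coeff j) = v.val ((cen d F δ).coeff j) := by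
    intro j
    rw [hG0, coeff_map]
    exact hext _
  have hδw : w (alg δ) = 1 := by
    rw [halg, hext δ]
    exact hδ
  have hA : v.val ((cen d F δ).coeff d) * w l ^ (d - 1) = 1 := by rw [← hcoef]; exact hlead
  have hApos : 0 < v.val ((cen d F δ).coeff d) := by
    by_contra hcon
    have h0 : v.val ((cen d F δ).coeff d) = 0 := le_antisymm (not_lt.1 hcon) (v.val.nonneg _)
    rw [h0, zero_mul] at hA
    exact zero_ne_one hA
  have hd1R : (0 : ℝ) < (d : ℝ) - 1 := by
    have : (2 : ℝ) ≤ d := by exact_mod_cast hd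
    linarith
  have hal : v.val ((cen d F δ).coeff d) ^ ((1 : ℝ) / ((d : ℝ) - 1)) = (w l)⁻¹ := by
    have h1 : v.val ((cen d F δ).coeff d) = ((w l)⁻¹) ^ (d - 1) := by
      rw [inv_pow]
      exact eq_inv_of_mul_eq_one_left hA
    rw [h1, ← Real.rpow_natCast, ← Real.rpow_mul (by positivity)]
    have h2 : ((d - 1 : ℕ) : ℝ) * ((1 : ℝ) / ((d : ℝ) - 1)) = 1 := by
      rw [Nat.cast_sub hd1, Nat.cast_one]
      field_simp
    rw [h2, Real.rpow_one]
  rw [hDv]
  unfold Tv
  haveI : Nonempty (Fin (d - 1)) := ⟨⟨0, by omega⟩⟩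
  refine max_le hD1 (ciSup_le fun j => ?_)
  have hj : (j : ℕ) < d - 1 := j.2
  have hjd : (j : ℕ) ≤ d := by omega
  -- the coefficient `j`
  have hh : w ((taylor (-t) g).coeff j + (C ((1 + alg δ) * t)).coeff j) ≤ D ^ (d - (j : ℕ)) := by
    refine (hw _ _).trans (max_le ?_ ?_)
    · exact E7_taylor hw hgd.le hg1 hD1 (by rw [AbsoluteValue.map_neg]; exact ht1) hjd
    · rw [coeff_C]
      split_ifs with h0
      · rw [map_mul]
        have h1 : w (1 + alg δ) ≤ 1 := by
          refine (hw _ _).trans (max_le ?_ ?_)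
          · rw [map_one]
          · rw [hδw]
        calc w (1 + alg δ) * w t ≤ 1 * D := mul_le_mul h1 ht1 (w.nonneg _) zero_le_one
          _ = D ^ 1 := by ring
          _ ≤ D ^ (d - (j : ℕ)) := pow_le_pow_right₀ hD1 (by omega)
      · rw [map_zero]
        positivity
  have hj1 := congrArg w (hco j)
  rw [map_mul, map_mul, map_pow, hcoef] at hj1
  have hratio : v.val ((cen d F δ).coeff j) / v.val ((cen d F δ).coeff d) ≤
      (w l * D) ^ (d - (j : ℕ)) := by
    rw [div_le_iff₀ hApos]
    have h2 : v.val ((cen d F δ).coeff j) * w l ^ (j : ℕ) ≤ w l * D ^ (d - (j : ℕ)) := by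
      rw [hj1]
      exact mul_le_mul_of_nonneg_left hh hlw.le
    have h3 : 0 < w l ^ (j : ℕ) := pow_pos hlw _
    refine le_of_mul_le_mul_right (h2.trans (le_of_eq ?_)) h3
    rw [mul_pow]
    have h4 : w l ^ (d - (j : ℕ)) * w l ^ (j : ℕ) = w l ^ (d - 1) * w l := by
      rw [← pow_add, ← pow_succ]
      congr 1
      omega
    calc w l * D ^ (d - (j : ℕ)) = (v.val ((cen d F δ).coeff d) * w l ^ (d - 1)) *
          (w l * D ^ (d - (j : ℕ))) := by rw [hA, one_mul]
      _ = (w l ^ (d - 1) * w l) * D ^ (d - (j : ℕ)) * v.val ((cen d F δ).coeff d) := by ring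
      _ = (w l ^ (d - (j : ℕ)) * w l ^ (j : ℕ)) * D ^ (d - (j : ℕ)) *
          v.val ((cen d F δ).coeff d) := by rw [h4]
      _ = w l ^ (d - (j : ℕ)) * D ^ (d - (j : ℕ)) * v.val ((cen d F δ).coeff d) *
          w l ^ (j : ℕ) := by ring
  have hdj : (0 : ℝ) < (d : ℝ) - (j : ℕ) := by
    have : ((j : ℕ) : ℝ) < d := by exact_mod_cast (by omega : (j : ℕ) < d)
    linarith
  rw [hal]
  calc (v.val ((cen d F δ).coeff j) / v.val ((cen d F δ).coeff d)) ^
        ((1 : ℝ) / ((d : ℝ) - (j : ℕ))) * (w l)⁻¹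
      ≤ ((w l * D) ^ (d - (j : ℕ))) ^ ((1 : ℝ) / ((d : ℝ) - (j : ℕ))) * (w l)⁻¹ := by
        apply mul_le_mul_of_nonneg_right _ (by positivity)
        exact Real.rpow_le_rpow (div_nonneg (v.val.nonneg _) hApos.le) hratio (by positivity)
    _ = (w l * D) * (w l)⁻¹ := by
        congr 1
        rw [← Real.rpow_natCast, ← Real.rpow_mul (by positivity), Nat.cast_sub hjd]
        have : ((d : ℝ) - (j : ℕ)) * ((1 : ℝ) / ((d : ℝ) - (j : ℕ))) = 1 := by field_simp
        rw [this, Real.rpow_one]
    _ = D := by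
        field_simp

end Pool.Agent.H951R3.PH
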