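import Pool.Agent.H951R3.PH.Defs

/-!
# The orbit of a periodic point (task E8, helper836)
-/

set_option autoImplicit false

namespace Pool.Agent.H951R3.PH

open Polynomial

universe u

theorem orbit_of_periodic {K : Type u} [Field K] (F : K[X]) (δ : K) (P : K × K) {m : ℕ}
    (hm : 0 < m) (h : (hen F δ)^[m] P = P) :
    ∃ x : ℤ → K, Orb F δ x ∧ x 0 = P.1 ∧ x 1 = P.2 ∧ ∀ n, x (n + m) = x n := by
  set y : ℕ → K := fun k => ((hen F δ)^[k] P).1 with hy
  have hy1 : ∀ k, y (k + 1) = ((hen F δ)^[k] P).2 := by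
    intro k
    simp only [hy, Function.iterate_succ_apply']
    rfl
  have hy2 : ∀ k, y (k + 2) = F.eval (y (k + 1)) - δ * y k := by
    intro k
    rw [hy1 (k + 1), hy1 k, Function.iterate_succ_apply']
    rfl
  have hper : Function.Periodic y m := by
    intro k
    simp only [hy]
    rw [Function.iterate_add_apply, h]
  have hm0 : (m : ℤ) ≠ 0 := by exact_mod_cast hm.ne'
  set x : ℤ → K := fun n => y (n % m).toNat with hx
  have key : ∀ (n : ℤ) (k : ℕ), n % m = (k : ℤ) % m → x n = y k := by
    intro n k hnk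
    simp only [hx]
    rw [hnk]
    have : ((k : ℤ) % (m : ℤ)).toNat = k % m := by
      rw [← Int.natCast_mod, Int.toNat_natCast]
    rw [this]
    exact hper.map_mod_nat k
  refine ⟨x, fun n => ?_, ?_, ?_, fun n => ?_⟩
  · set k := ((n - 1) % m).toNat with hk
    have hk' : (k : ℤ) = (n - 1) % m := Int.toNat_of_nonneg (Int.emod_nonneg _ hm0)
    have e0 : x (n - 1) = y k := key _ _ (by rw [hk', Int.emod_emod_of_dvd _ dvd_rfl])
    have e1 : x n = y (k + 1) := key _ _ (by
      push_cast
      rw [hk', Int.emod_add_emod]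
      ring_nf)
    have e2 : x (n + 1) = y (k + 2) := key _ _ (by
      push_cast
      rw [hk', Int.emod_add_emod]
      ring_nf)
    rw [e0, e1, e2, hy2, smul_eq_mul]
    simp [aeval_def, eval₂_eq_eval_map]
  · rw [key 0 0 (by simp)]
    rfl
  · rw [key 1 1 (by simp), hy1 0]
    rfl
  · simp only [hx]
    rw [Int.add_emod_right]

end Pool.Agent.H951R3.PH
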