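import Pool.Agent.H951R3.PH.Defs

/-!
# Solving the inequality for the number of points (task F1, helper836)
-/

set_option autoImplicit false

namespace Pool.Agent.H951R3.PH

open Real

theorem solve {C : ℝ} (hC : 0 < C) : ∃ C' : ℝ, 0 < C' ∧ ∀ (N : ℕ) (R : ℝ), 1 ≤ R → 1 ≤ N →
    √(N : ℝ) ≤ C * R * (1 + log N) → (N : ℝ) ≤ C' * (R * log (1 + R)) ^ 2 := by
  set k := |log (4 * C)| with hk
  have hk0 : 0 ≤ k := abs_nonneg _
  have hl2 : 0 < log 2 := log_pos (by norm_num)
  set Q := (1 + 4 * k) / log 2 + 4 with hQ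
  have hQ0 : 0 < Q := by positivity
  refine ⟨(C * Q) ^ 2, by positivity, fun N R hR hN h => ?_⟩
  have hN' : (1 : ℝ) ≤ N := by exact_mod_cast hN
  set q := √(√(N : ℝ)) with hq
  have hs1 : 1 ≤ √(N : ℝ) := by
    rw [Real.one_le_sqrt]; exact hN'
  have hq1 : 1 ≤ q := by
    rw [hq, Real.one_le_sqrt]; exact hs1
  have hqq : q * q = √(N : ℝ) := Real.mul_self_sqrt (Real.sqrt_nonneg _)
  have hss : √(N : ℝ) * √(N : ℝ) = N := Real.mul_self_sqrt (by linarith)
  have hlog : log N = 4 * log q := by
    rw [← hss, ← hqq, log_mul (by positivity) (by positivity), log_mul (by positivity)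
      (by positivity)]
    ring
  have hlq : log q ≤ q - 1 := log_le_sub_one_of_pos (by linarith)
  have h1 : q * q ≤ C * R * (4 * q) := by
    rw [hqq]
    refine h.trans ?_
    refine mul_le_mul_of_nonneg_left ?_ (by positivity)
    rw [hlog]; linarith
  have h2 : q ≤ 4 * C * R := by
    have : q * q ≤ (4 * C * R) * q := by linarith
    exact le_of_mul_le_mul_right this (by linarith)
  have h3 : log q ≤ k + log (1 + R) := by
    calc log q ≤ log (4 * C * R) := log_le_log (by linarith) h2
      _ = log (4 * C) + log R := log_mul (by positivity) (by linarith)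
      _ ≤ k + log (1 + R) :=
        add_le_add (le_abs_self _) (log_le_log (by linarith) (by linarith))
  have h4 : log 2 ≤ log (1 + R) := log_le_log (by norm_num) (by linarith)
  have h5 : 1 + log N ≤ Q * log (1 + R) := by
    have h6 : 1 + 4 * k ≤ (1 + 4 * k) / log 2 * log (1 + R) := by
      rw [div_mul_eq_mul_div, le_div_iff₀ hl2]
      exact mul_le_mul_of_nonneg_left h4 (by positivity)
    rw [hQ, add_mul, hlog]
    linarith
  have h7 : √(N : ℝ) ≤ C * Q * (R * log (1 + R)) := by
    refine h.trans ?_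
    calc C * R * (1 + log N) ≤ C * R * (Q * log (1 + R)) :=
          mul_le_mul_of_nonneg_left h5 (by positivity)
      _ = C * Q * (R * log (1 + R)) := by ring
  calc (N : ℝ) = √(N : ℝ) * √(N : ℝ) := hss.symm
    _ ≤ (C * Q * (R * log (1 + R))) * (C * Q * (R * log (1 + R))) :=
        mul_le_mul h7 h7 (Real.sqrt_nonneg _) ((Real.sqrt_nonneg _).trans h7)
    _ = (C * Q) ^ 2 * (R * log (1 + R)) ^ 2 := by ring

end Pool.Agent.H951R3.PH
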