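import Pool.Agent.H951R3.PH.Defs
import Pool.Agent.H951R3.PH.D2
import Pool.Agent.H951R3.PH.D3
import Pool.Agent.H951R3.PH.F1

/-!
# One place: from small cells to the bound for the number of points
-/

set_option autoImplicit false

namespace Pool.Agent.H951R3.PH

open Real NumberField Polynomial

universe u

theorem natLog_le {d n : ℕ} (hd : 2 ≤ d) (hn : 1 ≤ n) : (Nat.log d n : ℝ) ≤ 2 * log n := by
  have h1 : d ^ Nat.log d n ≤ n := Nat.pow_log_le_self d (by omega)
  have h2 : (2 : ℝ) ^ Nat.log d n ≤ n := by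
    calc (2 : ℝ) ^ Nat.log d n ≤ (d : ℝ) ^ Nat.log d n :=
          pow_le_pow_left₀ (by norm_num) (by exact_mod_cast hd) _
      _ ≤ n := by exact_mod_cast h1
  have h3 := log_le_log (by positivity) h2
  rw [log_pow] at h3
  have h4 : (1 : ℝ) / 2 ≤ log 2 := by
    have := Real.log_two_gt_d9
    linarith
  nlinarith [Nat.cast_nonneg (α := ℝ) (Nat.log d n)]

theorem log_fact_le (n : ℕ) : log (n.factorial : ℝ) ≤ n * log n := by
  rcases Nat.eq_zero_or_pos n with rfl | hn
  · simp
  have h1 : (n.factorial : ℝ) ≤ (n : ℝ) ^ n := by exact_mod_cast Nat.factorial_le_pow n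
  have h2 := log_le_log (by exact_mod_cast n.factorial_pos) h1
  rwa [log_pow] at h2

theorem step {d : ℕ} (hd : 2 ≤ d) (D : ℕ) {c₀ L₀ : ℝ} (hc₀ : 0 < c₀) (hL₀ : 0 ≤ L₀) (M : ℕ) :
    ∃ C : ℝ, 0 < C ∧ ∀ (K : Type u) [Field K] [NumberField K], Module.finrank ℚ K ≤ D →
    ∀ {G : K[X]}, G.natDegree = d → ∀ {δ : K}, δ ≠ 0 →
    ∀ {ι : Type u} [Fintype ι] (X : ι → ℤ → K), (∀ i, Orb G δ (X i)) →
      (∀ i j, X i 0 = X j 0 → X i 1 = X j 1 → i = j) →
    ∀ (S : Pl K → ℝ), (∀ p, 1 ≤ S p) → ∀ (P : Finset (Pl K)), (∀ p, p ∉ P → S p = 1) →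
      (∀ p i n, pv p (X i n) * al (pv p) d G ≤ S p) →
    ∀ (q : Pl K) (ρ : ℝ), 0 < ρ → ∀ cell : ι → Fin M,
      (∀ i j, cell i = cell j → ∀ n : ℤ, n = 0 ∨ n = 1 →
        pv q (X i n - X j n) * al (pv q) d G ≤ ρ) →
    ∀ (τ R : ℝ), 0 ≤ τ → 1 ≤ R →
      c₀ * (1 + τ) ≤ pm q * (-log ρ - log (max 1 (pv q δ)⁻¹) / ((d : ℝ) - 1)) →
      ∑ p ∈ P, pm p * log (S p) ≤ L₀ * R * (1 + τ) →
      (Fintype.card ι : ℝ) ≤ C * (R * log (1 + R)) ^ 2 := by
  classical
  set C₁ : ℝ := max 2 (8 / c₀ * (D + 4 * ((d : ℝ) - 1) * L₀ + 1)) with hC₁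
  have hd1 : (1 : ℝ) ≤ (d : ℝ) - 1 := by
    have : (2 : ℝ) ≤ d := by exact_mod_cast hd
    linarith
  have hC₁pos : 0 < C₁ := lt_of_lt_of_le (by norm_num) (le_max_left _ _)
  obtain ⟨C', hC', hsolve⟩ := solve hC₁pos
  refine ⟨(M + 1) * C', by positivity, ?_⟩
  intro K _ _ hfin G hG δ hδ ι _ X hX hinj S hS1 P hSP hS q ρ hρ cell hcell τ R hτ hR hγ hL
  -- pigeonhole
  rcases isEmpty_or_nonempty ι with hι | hι
  · rw [Fintype.card_eq_zero]
    push_cast
    positivity
  obtain ⟨k, hk⟩ : ∃ k : Fin M, Fintype.card ι ≤ M * (Finset.univ.filter fun i => cell i = k).card := by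
    by_contra hcon
    push Not at hcon
    have h1 : Fintype.card ι = ∑ k : Fin M, (Finset.univ.filter fun i => cell i = k).card := by
      rw [← Finset.card_univ]
      exact Finset.card_eq_sum_card_fiberwise (fun i _ => Finset.mem_univ (cell i))
    have hM : 0 < M := by
      have := (cell hι.some).pos
      exact this
    have h2 : M * Fintype.card ι = ∑ k : Fin M, M * (Finset.univ.filter fun i => cell i = k).card := by
      rw [← Finset.mul_sum, ← h1]
    have h3 : ∑ k : Fin M, M * (Finset.univ.filter fun i => cell i = k).card <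
        ∑ _k : Fin M, Fintype.card ι := by
      refine Finset.sum_lt_sum_of_nonempty ?_ (fun k _ => hcon k)
      exact ⟨⟨0, hM⟩, Finset.mem_univ _⟩
    rw [← h2, Finset.sum_const, Finset.card_univ, Fintype.card_fin, smul_eq_mul] at h3
    exact lt_irrefl _ h3
  set Z := Finset.univ.filter fun i => cell i = k with hZ
  set N := Z.card with hN
  have hN1 : 1 ≤ N := by
    by_contra hcon
    have : N = 0 := by omega
    rw [this, mul_zero] at hk
    have := Fintype.card_pos (α := ι)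
    omega
  let e : Fin N ≃ Z := (Finset.equivFin Z).symm
  have hcellk : ∀ i : Fin N, cell (e i).1 = k := fun i => (Finset.mem_filter.1 (e i).2).2
  let x : ℤ → Fin N → K := fun n i => X (e i).1 n
  have hx : Orb G δ x := by
    intro n
    funext i
    have h1 := hX (e i).1 n
    change X (e i).1 (n + 1) + δ • X (e i).1 (n - 1) = _
    rw [h1]
    have h2 := Polynomial.map_aeval_eq_aeval_map (φ := RingHom.id K)
      (ψ := (Pi.evalRingHom (fun _ : Fin N => K) i)) (by ext; simp) G (x n)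
    rw [Polynomial.map_id] at h2
    exact h2.symm
  have hinj' : ∀ i j, x 0 i = x 0 j → x 1 i = x 1 j → i = j := by
    intro i j h0 h1
    have := hinj _ _ h0 h1
    exact e.injective (Subtype.ext this)
  obtain ⟨Λ, hΛ, hcore⟩ := core hd hG hδ hx hinj' S hS1 P hSP (fun p n i => hS p _ n) q hρ
    (fun i j => hcell _ _ ((hcellk i).trans (hcellk j).symm) 0 (Or.inl rfl))
    (fun i j => hcell _ _ ((hcellk i).trans (hcellk j).symm) 1 (Or.inr rfl))
  have hN1' : (1 : ℝ) ≤ N := by exact_mod_cast hN1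
  have hlogN : 0 ≤ log (N : ℝ) := log_nonneg hN1'
  have hsqrt : √(N : ℝ) ≤ C₁ * R * (1 + log N) := by
    rcases lt_or_ge N 4 with h4 | h4
    · have h5 : √(N : ℝ) ≤ 2 := by
        rw [show (2 : ℝ) = √(4 : ℝ) by
          rw [show (4 : ℝ) = 2 ^ 2 by norm_num]
          rw [Real.sqrt_sq (by norm_num)]]
        refine Real.sqrt_le_sqrt ?_
        have : (N : ℝ) ≤ 4 := by exact_mod_cast h4.le
        exact this
      have h6 : (2 : ℝ) ≤ C₁ := le_max_left _ _
      calc √(N : ℝ) ≤ 2 * 1 * (1 + 0) := by linarith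
        _ ≤ C₁ * R * (1 + log N) := by gcongr
    · have h5 := hΛ h4
      have h6 : (Λ : ℝ) * (c₀ * (1 + τ)) ≤ D * (N * log N) +
          2 * N * ((d : ℝ) - 1) * (2 * log N + 1) * (L₀ * R * (1 + τ)) := by
        calc (Λ : ℝ) * (c₀ * (1 + τ)) ≤ _ := mul_le_mul_of_nonneg_left hγ (Nat.cast_nonneg _)
          _ ≤ _ := hcore
          _ ≤ _ := by
            have h7 := log_fact_le N
            have h8 := natLog_le hd hN1
            have h9 : (Module.finrank ℚ K : ℝ) ≤ D := by exact_mod_cast hfin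
            have h10 : (0 : ℝ) ≤ log (N.factorial : ℝ) :=
              log_nonneg (by exact_mod_cast N.factorial_pos)
            have hd0 : (0 : ℝ) ≤ (d : ℝ) - 1 := by linarith
            have h11 : 0 ≤ ∑ p ∈ P, pm p * log (S p) := Finset.sum_nonneg fun p _ =>
              mul_nonneg (zero_le_one.trans (one_le_pm p)) (log_nonneg (hS1 p))
            refine add_le_add (mul_le_mul h9 h7 h10 (Nat.cast_nonneg _)) ?_
            refine mul_le_mul ?_ hL h11 (by positivity)
            refine mul_le_mul_of_nonneg_left (by linarith) (by positivity)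
      have h7 : (N : ℝ) * √N * (c₀ * (1 + τ)) ≤ 8 * (D * (N * log N) +
          2 * N * ((d : ℝ) - 1) * (2 * log N + 1) * (L₀ * R * (1 + τ))) := by
        have : 0 ≤ c₀ * (1 + τ) := by positivity
        nlinarith
      have h8 : 8 * (D * (N * log N) +
          2 * N * ((d : ℝ) - 1) * (2 * log N + 1) * (L₀ * R * (1 + τ))) ≤
          N * (c₀ * (1 + τ)) * ((8 / c₀ * (D + 4 * ((d : ℝ) - 1) * L₀ + 1)) * R * (1 + log N)) := by
        have e1 : N * (c₀ * (1 + τ)) * ((8 / c₀ * (D + 4 * ((d : ℝ) - 1) * L₀ + 1)) * R *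
            (1 + log N)) = 8 * N * ((1 + τ) * ((D + 4 * ((d : ℝ) - 1) * L₀ + 1) * R *
            (1 + log N))) := by
          field_simp
        rw [e1]
        have e2 : 8 * (D * (N * log N) +
          2 * N * ((d : ℝ) - 1) * (2 * log N + 1) * (L₀ * R * (1 + τ))) = 8 * N * (D * log N +
          2 * ((d : ℝ) - 1) * (2 * log N + 1) * (L₀ * R * (1 + τ))) := by ring
        rw [e2]
        refine mul_le_mul_of_nonneg_left ?_ (by positivity)
        have e3 : D * log (N : ℝ) ≤ (1 + τ) * (D * R * (1 + log N)) := by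
          calc D * log (N : ℝ) ≤ 1 * (D * 1 * (1 + log N)) := by
                have : (0 : ℝ) ≤ D := Nat.cast_nonneg _
                nlinarith
            _ ≤ _ := by gcongr; linarith
        have e4 : 2 * ((d : ℝ) - 1) * (2 * log N + 1) * (L₀ * R * (1 + τ)) ≤
            (1 + τ) * (4 * ((d : ℝ) - 1) * L₀ * R * (1 + log N)) := by
          have : 2 * ((d : ℝ) - 1) * (2 * log N + 1) * (L₀ * R * (1 + τ)) =
            (((d : ℝ) - 1) * L₀ * R * (1 + τ)) * (4 * log N + 2) := by ring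
          rw [this]
          have h9 : (1 + τ) * (4 * ((d : ℝ) - 1) * L₀ * R * (1 + log N)) =
            (((d : ℝ) - 1) * L₀ * R * (1 + τ)) * (4 * log N + 4) := by ring
          rw [h9]
          refine mul_le_mul_of_nonneg_left (by linarith) ?_
          have : (0 : ℝ) ≤ (d : ℝ) - 1 := by linarith
          positivity
        have e5 : 0 ≤ (1 + τ) * (1 * R * (1 + log (N : ℝ))) := by positivity
        nlinarith
      have h9 : √(N : ℝ) ≤ (8 / c₀ * (D + 4 * ((d : ℝ) - 1) * L₀ + 1)) * R * (1 + log N) := by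
        have h10 : (0 : ℝ) < N * (c₀ * (1 + τ)) := by positivity
        refine le_of_mul_le_mul_left ?_ h10
        calc (N : ℝ) * (c₀ * (1 + τ)) * √(N : ℝ) = (N : ℝ) * √N * (c₀ * (1 + τ)) := by ring
          _ ≤ _ := h7.trans h8
      refine h9.trans ?_
      have h10 : (8 / c₀ * (D + 4 * ((d : ℝ) - 1) * L₀ + 1)) ≤ C₁ := le_max_right _ _
      gcongr
  have hfinal := hsolve N R hR hN1 hsqrt
  calc (Fintype.card ι : ℝ) ≤ M * N := by exact_mod_cast hk
    _ ≤ M * (C' * (R * log (1 + R)) ^ 2) := by gcongr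
    _ ≤ (M + 1) * (C' * (R * log (1 + R)) ^ 2) := by
        have : (0 : ℝ) ≤ C' * (R * log (1 + R)) ^ 2 := by positivity
        nlinarith
    _ = (M + 1) * C' * (R * log (1 + R)) ^ 2 := by ring

end Pool.Agent.H951R3.PH
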