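import Pool.Agent.H951R3.PH.D1
import Pool.Agent.H951R3.PH.D2
import Pool.Agent.H951R3.PH.E5
import Pool.Agent.H951R3.PH.Step
import Pool.Agent.H951R3.PB.F6
import Pool.Agent.H951R2.MSPlaces

/-!
# Global sums
-/

set_option autoImplicit false

namespace Pool.Agent.H951R3.PH

open Real NumberField Polynomial

universe u

section

variable {K : Type u} [Field K] [NumberField K]

theorem card_inf_le {D : ℕ} (hfin : Module.finrank ℚ K ≤ D) :
    (Fintype.card (InfinitePlace K) : ℝ) ≤ D := by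
  have h1 : ∑ v : InfinitePlace K, v.mult = Module.finrank ℚ K := InfinitePlace.sum_mult_eq
  have h2 : Fintype.card (InfinitePlace K) ≤ ∑ v : InfinitePlace K, v.mult := by
    rw [← Finset.card_univ, Finset.card_eq_sum_ones]
    exact Finset.sum_le_sum fun v _ => InfinitePlace.mult_pos
  exact_mod_cast (h2.trans h1.le).trans hfin

theorem pm_le_two (p : Pl K) : pm p ≤ 2 := by
  rcases p with v | v
  · change (v.mult : ℝ) ≤ 2
    have : v.mult ≤ 2 := by
      unfold InfinitePlace.mult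
      split_ifs <;> norm_num
    exact_mod_cast this
  · change (1 : ℝ) ≤ 2
    norm_num

theorem pA_le_two (p : Pl K) : pA p ≤ 2 := by
  rcases p with v | v
  · exact le_rfl
  · change (1 : ℝ) ≤ 2
    norm_num

theorem al_pos (v : AbsoluteValue K ℝ) {d : ℕ} (hd : 2 ≤ d) {F : K[X]} (hF : F.natDegree = d) :
    0 < al v d F := by
  unfold al
  refine rpow_pos_of_pos (v.pos ?_) _
  intro h
  have h2 : F.leadingCoeff = 0 := by
    rw [Polynomial.leadingCoeff, hF, h]
  rw [Polynomial.leadingCoeff_eq_zero] at h2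
  rw [h2, Polynomial.natDegree_zero] at hF
  omega

/-- bound for the total loss -/
theorem loss_sum {d D : ℕ} (hd : 2 ≤ d) (hfin : Module.finrank ℚ K ≤ D) (G : K[X]) (δ : K)
    (T B : Finset (FinitePlace K)) (hTB : T ⊆ B)
    (hT : ∀ v, v ∉ T → Tv v.val d G ≤ (v.val (d : K))⁻¹) :
    ∑ p ∈ (Finset.univ : Finset (InfinitePlace K)).disjSum B,
      pm p * log (pA p ^ (d + 1) * max 1 (pv p δ) * Tv (pv p) d G) ≤
      (d + 1) * (D * log 2) + Height.logHeight₁ δ + D * log d +
        (∑ v : InfinitePlace K, v.mult * log (Tv v.val d G) + ∑ v ∈ T, log (Tv v.val d G)) := by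
  classical
  set P := (Finset.univ : Finset (InfinitePlace K)).disjSum B with hP
  have hfin' : (Module.finrank ℚ K : ℝ) ≤ D := by exact_mod_cast hfin
  have hlog2 : 0 ≤ log 2 := log_nonneg (by norm_num)
  have hlogd : 0 ≤ log (d : ℝ) := log_nonneg (by
    have : (2 : ℝ) ≤ d := by exact_mod_cast hd
    linarith)
  have h0 : ∀ p : Pl K, log (pA p ^ (d + 1) * max 1 (pv p δ) * Tv (pv p) d G) =
      (d + 1) * log (pA p) + log (max 1 (pv p δ)) + log (Tv (pv p) d G) := by
    intro p
    have h1 : (0 : ℝ) < pA p := lt_of_lt_of_le one_pos (one_le_pA p)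
    have h2 : (0 : ℝ) < max 1 (pv p δ) := lt_of_lt_of_le one_pos (le_max_left _ _)
    have h3 : (0 : ℝ) < Tv (pv p) d G := lt_of_lt_of_le one_pos (one_le_Tv _ _ _)
    rw [log_mul (by positivity) h3.ne', log_mul (by positivity) h2.ne', log_pow]
    push_cast
    ring
  have h1 : ∑ p ∈ P, pm p * log (pA p ^ (d + 1) * max 1 (pv p δ) * Tv (pv p) d G) =
      (d + 1) * ∑ p ∈ P, pm p * log (pA p) + ∑ p ∈ P, pm p * log (max 1 (pv p δ)) +
        ∑ p ∈ P, pm p * log (Tv (pv p) d G) := by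
    rw [Finset.mul_sum, ← Finset.sum_add_distrib, ← Finset.sum_add_distrib]
    refine Finset.sum_congr rfl fun p _ => ?_
    rw [h0]
    ring
  have h2 : ∑ p ∈ P, pm p * log (pA p) ≤ D * log 2 :=
    (sum_pA P).trans (by gcongr)
  have h3 : ∑ p ∈ P, pm p * log (max 1 (pv p δ)) ≤ Height.logHeight₁ δ := sum_height δ P
  have h4 : ∑ p ∈ P, pm p * log (Tv (pv p) d G) =
      ∑ v : InfinitePlace K, v.mult * log (Tv v.val d G) + ∑ v ∈ B, log (Tv v.val d G) := by
    rw [hP, Finset.sum_disjSum]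
    congr 1
    refine Finset.sum_congr rfl fun v _ => ?_
    change 1 * log (Tv v.val d G) = _
    rw [one_mul]
  have h5 : ∑ v ∈ B, log (Tv v.val d G) ≤ ∑ v ∈ T, log (Tv v.val d G) + D * log d := by
    rw [← Finset.sum_sdiff hTB, add_comm]
    have h6 : ∑ v ∈ B \ T, log (Tv v.val d G) ≤ ∑ v ∈ B \ T, log ((v.val (d : K))⁻¹) := by
      refine Finset.sum_le_sum fun v hv => ?_
      refine log_le_log (lt_of_lt_of_le one_pos (one_le_Tv _ _ _)) (hT v ?_)
      exact (Finset.mem_sdiff.1 hv).2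
    have h7 := sum_log_nat (K := K) (by omega : 1 ≤ d) (B \ T)
    have h8 : (Module.finrank ℚ K : ℝ) * log d ≤ D * log d := by gcongr
    linarith
  rw [h1, h4]
  have h9 : ((d : ℝ) + 1) * ∑ p ∈ P, pm p * log (pA p) ≤ (d + 1) * (D * log 2) := by gcongr
  linarith

end

end Pool.Agent.H951R3.PH
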