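import Pool.Agent.H951R3.PH.D1
import Pool.Agent.H951R3.PH.D2
import Pool.Agent.H951R3.PH.E1
import Pool.Agent.H951R3.PH.E4
import Pool.Agent.H951R3.PH.E5
import Pool.Agent.H951R3.PH.E6
import Pool.Agent.H951R3.PH.E7
import Pool.Agent.H951R3.PH.E8
import Pool.Agent.H951R3.PH.GlobalSum

/-!
# Periodic points of generalized Henon maps: the bound
-/

set_option autoImplicit false

namespace Pool.Agent.H951R3.PH

open Real NumberField Polynomial

universe u

/-- the estimate at a place where the size is large -/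
theorem big_place {d : ℕ} (hd : 2 ≤ d) {D : ℕ} {K : Type u} [Field K] [NumberField K]
    (hfin : Module.finrank ℚ K ≤ D) {G : K[X]} (hG : G.natDegree = d) (hG1 : G.coeff (d - 1) = 0)
    {δ : K} (q : Pl K) {τ h : ℝ} (hτ : pm q * log (Tv (pv q) d G) = τ)
    (hh : Height.logHeight₁ δ = h)
    (hbig : 4 * (d + 4) + 4 * h + 1 ≤ τ) {ι : Type u} (X : ι → ℤ → K)
    (hX : ∀ i, Orb G δ (X i))
    (hS : ∀ i n, pv q (X i n) * al (pv q) d G ≤
      pA q ^ (d + 1) * max 1 (pv q δ) * Tv (pv q) d G) :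
    ∃ (ρ : ℝ) (cell : ι → Fin (d ^ 6)), 0 < ρ ∧ (∀ i j, cell i = cell j → ∀ n : ℤ,
      n = 0 ∨ n = 1 → pv q (X i n - X j n) * al (pv q) d G ≤ ρ) ∧
      (τ - 4 * h - 2 * (2 + (6 * d + 9)) - 2 * D * log d) / ((d : ℝ) - 1) ≤
        pm q * (-log ρ - log (max 1 (pv q δ)⁻¹) / ((d : ℝ) - 1)) := by
  have hd1 : (1 : ℝ) ≤ (d : ℝ) - 1 := by
    have : (2 : ℝ) ≤ d := by exact_mod_cast hd
    linarith
  have hpm1 := one_le_pm q
  have hpm2 := pm_le_two q
  have hpA1 := one_le_pA q
  have hpA2 := pA_le_two q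
  set T := Tv (pv q) d G with hT
  set B := max 1 (pv q δ) with hB
  have hT1 : 1 ≤ T := one_le_Tv _ _ _
  have hB1 : 1 ≤ B := le_max_left _ _
  have hlogT : 0 ≤ log T := log_nonneg hT1
  have hlogB : 0 ≤ log B := log_nonneg hB1
  have hlogA : 0 ≤ log (pA q) := log_nonneg hpA1
  have hlog2 : log 2 ≤ 1 := by
    have := Real.log_two_lt_d9
    linarith
  have hlogA1 : log (pA q) ≤ 1 := (log_le_log (by linarith) hpA2).trans hlog2
  have hBh : pm q * log B ≤ h := by
    rw [← hh]
    exact single_height δ q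
  have hBh' : pm q * log (max 1 (pv q δ)⁻¹) ≤ h := by
    have h1 := single_height δ⁻¹ q
    rw [Height.logHeight₁_inv, map_inv₀, hh] at h1
    exact h1
  have hdpos : (0 : ℝ) < d := by linarith
  have hlogd : 0 ≤ log (d : ℝ) := log_nonneg (by linarith)
  have hν : 0 < pv q (d : K) := (pv q).pos (by
    have : (d : ℕ) ≠ 0 := by omega
    exact_mod_cast this)
  have hνD : -(D * log d) ≤ pm q * log (pv q (d : K)) := by
    rcases q with v | v
    · have h1 : pv (Sum.inl v : Pl K) (d : K) = d := by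
        change v (d : K) = d
        rw [← InfinitePlace.norm_embedding_eq, map_natCast]
        simp
      rw [h1]
      have h2 : 0 ≤ pm (Sum.inl v : Pl K) * log (d : ℝ) := mul_nonneg (by linarith) hlogd
      have h3 : 0 ≤ (D : ℝ) * log d := by positivity
      linarith
    · have h1 := H951R2.MS.fp_natCast_ge hfin (by omega : 1 ≤ d) v
      have h2 := log_le_log (by positivity) h1
      rw [log_inv, log_pow] at h2
      change -(D * log d) ≤ 1 * log (v (d : K))
      linarith
  have hcond : 2 * pA q ^ (d + 3) * B ^ 2 ≤ T := by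
    have h1 : log (2 * pA q ^ (d + 3) * B ^ 2) ≤ log T := by
      have e : log (2 * pA q ^ (d + 3) * B ^ 2) =
          log 2 + (d + 3) * log (pA q) + 2 * log B := by
        rw [log_mul (by positivity) (by positivity), log_mul (by norm_num) (by positivity),
          log_pow, log_pow]
        push_cast
        ring
      rw [e]
      have h2 : pm q * (log 2 + (d + 3) * log (pA q) + 2 * log B) ≤ pm q * log T := by
        rw [hτ]
        have h3 : (d + 3 : ℝ) * log (pA q) ≤ (d + 3) * 1 := by gcongr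
        have h4 : pm q * (log 2 + (d + 3) * log (pA q)) ≤ 2 * (1 + (d + 3) * 1) := by
          refine mul_le_mul hpm2 (by linarith) ?_ (by norm_num)
          have : 0 ≤ (d + 3 : ℝ) * log (pA q) := by positivity
          have := log_nonneg (by norm_num : (1 : ℝ) ≤ 2)
          linarith
        have hh0 : 0 ≤ h := by
          rw [← hh]
          exact Height.zero_le_logHeight₁ δ
        nlinarith
      exact le_of_mul_le_mul_left h2 (by linarith)
    exact (log_le_log_iff (by positivity) (by positivity)).1 h1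
  obtain ⟨cell, hcell⟩ := cellsK q hd hG hG1 hcond X hX hS
  set Q : ℝ := 4 * pA q ^ (6 * d + 9) * B ^ 3 / (pv q (d : K) ^ 2 * T) with hQ
  have hQpos : 0 < Q := by positivity
  refine ⟨Q ^ ((1 : ℝ) / ((d : ℝ) - 1)), cell, by positivity, ?_, ?_⟩
  · intro i j hij n hn
    have h1 := hcell i j hij n hn
    set y := pv q (X i n - X j n) * al (pv q) d G with hy
    have hy0 : 0 ≤ y := mul_nonneg ((pv q).nonneg _) (al_pos _ hd hG).le
    have h2 : y = (y ^ (d - 1)) ^ ((1 : ℝ) / ((d : ℝ) - 1)) := by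
      rw [← Real.rpow_natCast, ← Real.rpow_mul hy0]
      have : ((d - 1 : ℕ) : ℝ) * (1 / ((d : ℝ) - 1)) = 1 := by
        rw [Nat.cast_sub (by omega)]
        push_cast
        field_simp
      rw [this, Real.rpow_one]
    rw [h2]
    exact Real.rpow_le_rpow (by positivity) h1 (by positivity)
  · rw [Real.log_rpow hQpos]
    have e : log Q = log 4 + (6 * d + 9) * log (pA q) + 3 * log B -
        (2 * log (pv q (d : K)) + log T) := by
      rw [hQ, log_div (by positivity) (by positivity), log_mul (by positivity) (by positivity),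
        log_mul (by norm_num) (by positivity), log_mul (by positivity) (by positivity),
        log_pow, log_pow, log_pow]
      push_cast
      ring
    have h4 : log 4 ≤ 2 := by
      rw [show (4 : ℝ) = 2 ^ 2 by norm_num, log_pow]
      push_cast
      linarith
    have h5 : pm q * (log 4 + (6 * d + 9) * log (pA q)) ≤ 2 * (2 + (6 * d + 9)) := by
      refine mul_le_mul hpm2 ?_ ?_ (by norm_num)
      · have : (6 * d + 9 : ℝ) * log (pA q) ≤ (6 * d + 9) * 1 := by gcongr
        linarith
      · have : 0 ≤ (6 * d + 9 : ℝ) * log (pA q) := by positivity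
        have := log_nonneg (by norm_num : (1 : ℝ) ≤ 4)
        linarith
    have h6 : pm q * (-(1 / ((d : ℝ) - 1) * log Q) - log (max 1 (pv q δ)⁻¹) / ((d : ℝ) - 1)) =
        (-(pm q * log Q) - pm q * log (max 1 (pv q δ)⁻¹)) / ((d : ℝ) - 1) := by
      field_simp
    rw [h6]
    refine div_le_div_of_nonneg_right ?_ (by linarith)
    have h7 : pm q * log Q = pm q * (log 4 + (6 * d + 9) * log (pA q)) + 3 * (pm q * log B) -
        2 * (pm q * log (pv q (d : K))) - pm q * log T := by
      rw [e]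
      ring
    rw [h7, hτ]
    linarith

theorem main_bound (d : ℕ) (hd : 2 ≤ d) (D : ℕ) (H : ℝ) : ∃ C : ℝ, 0 < C ∧
    ∀ (K : Type u) [Field K] [NumberField K], Module.finrank ℚ K ≤ D →
    ∀ (F : K[X]) (δ : K), F.natDegree = d → δ ≠ 0 →
    ∀ T : Finset (FinitePlace K), (∀ v, v ∉ T → PotGood v.val d F δ) →
    ∀ R : ℝ, 1 ≤ R → ∀ q : InfinitePlace K ⊕ T,
      Height.logHeight₁ δ ≤ H + Sum.elim (fun v : InfinitePlace K => v.mult * siz v.val d F δ)
        (fun v : T => siz v.1.val d F δ) q / 8 →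
      ((T.card : ℝ) ≤ R ∨
        ∑ v : InfinitePlace K, v.mult * siz v.val d F δ + ∑ v ∈ T, siz v.val d F δ ≤
          R * (1 + Sum.elim (fun v : InfinitePlace K => v.mult * siz v.val d F δ)
            (fun v : T => siz v.1.val d F δ) q)) →
    ∀ Y : Finset (K × K), (∀ P ∈ Y, ∃ m : ℕ, 0 < m ∧ (hen F δ)^[m] P = P) →
      (Y.card : ℝ) ≤ C * (R * log (1 + R)) ^ 2 := by
  classical
  set H' : ℝ := max H 0 with hH'
  have hH0 : 0 ≤ H' := le_max_right _ _
  have hd2 : (2 : ℝ) ≤ d := by exact_mod_cast hd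
  have hd1 : (1 : ℝ) ≤ (d : ℝ) - 1 := by linarith
  have hlogd : 0 ≤ log (d : ℝ) := log_nonneg (by linarith)
  have hlog2 : 0 ≤ log (2 : ℝ) := log_nonneg (by norm_num)
  set C₁ : ℝ := 2 * (2 + (6 * d + 9)) + 2 * D * log d with hC₁
  have hC₁0 : 0 ≤ C₁ := by positivity
  set C₂ : ℝ := 4 * (4 * H' + C₁ + 1) + 8 * (d + 4) + 8 * H' + 2 with hC₂
  have hC₂0 : 0 ≤ C₂ := by positivity
  set L₀ : ℝ := (d + 1) * (D * log 2) + H' + 1 + D * log d + D + 2 with hL₀
  have hL₀0 : 0 ≤ L₀ := by positivity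
  set C₃ : ℝ := H' + C₂ + C₂ + D * log d with hC₃
  have hC₃0 : 0 ≤ C₃ := by positivity
  obtain ⟨M', hM'⟩ := PB.fin_net.{u} (2 ^ D) (C₃ + (H' + C₂) + 1)
  have hca : (0 : ℝ) < 1 / (8 * ((d : ℝ) - 1)) := by positivity
  have hcb : (0 : ℝ) < 1 / (1 + C₂) := by positivity
  obtain ⟨Ca, hCa, ha⟩ := step.{u} hd D hca hL₀0 (d ^ 6)
  obtain ⟨Cb, hCb, hb⟩ := step.{u} hd D hcb hL₀0 (M' * M')
  refine ⟨max Ca Cb, lt_of_lt_of_le hCa (le_max_left _ _), ?_⟩
  intro K _ _ hfin F δ hF hδ T hT R hR q hq hR' Y hY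
  set G := cen d F δ with hG_def
  have hG : G.natDegree = d := cen_natDegree hd hF δ
  have hG1 : G.coeff (d - 1) = 0 := cen_coeff hd hF δ
  have hRR : 0 ≤ (R * log (1 + R)) ^ 2 := by positivity
  -- orbits
  have horb : ∀ P : Y, ∃ x : ℤ → K, Orb F δ x ∧ x 0 = P.1.1 ∧ x 1 = P.1.2 ∧
      ∃ m : ℕ, 0 < m ∧ ∀ n, x (n + m) = x n := by
    intro P
    obtain ⟨m, hm, hP⟩ := hY P.1 P.2
    obtain ⟨x, h1, h2, h3, h4⟩ := orbit_of_periodic F δ P.1 hm hP
    exact ⟨x, h1, h2, h3, m, hm, h4⟩
  choose x hx hx0 hx1 hxper using horb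
  let X : Y → ℤ → K := fun i n => x i n - ctr d F
  have hX : ∀ i, Orb G δ (X i) := fun i => cen_orb (hx i)
  have hXper : ∀ i, ∃ m : ℕ, 0 < m ∧ ∀ n, X i (n + m) = X i n := by
    intro i
    obtain ⟨m, hm, h⟩ := hxper i
    exact ⟨m, hm, fun n => by simp only [X, h]⟩
  have hinj : ∀ i j, X i 0 = X j 0 → X i 1 = X j 1 → i = j := by
    intro i j h0 h1
    simp only [X, hx0, hx1, sub_left_inj] at h0 h1
    exact Subtype.ext (Prod.ext h0 h1)
  -- sizes
  let S : Pl K → ℝ := fun p => pA p ^ (d + 1) * max 1 (pv p δ) * Tv (pv p) d G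
  have hS1 : ∀ p, 1 ≤ S p := by
    intro p
    have h1 : 1 ≤ pA p ^ (d + 1) := one_le_pow₀ (one_le_pA p)
    have h2 : (1 : ℝ) ≤ max 1 (pv p δ) := le_max_left _ _
    have h3 : 1 ≤ Tv (pv p) d G := one_le_Tv _ _ _
    calc (1 : ℝ) = 1 * 1 * 1 := by norm_num
      _ ≤ S p := by
        simp only [S]
        gcongr
  have hS : ∀ p i n, pv p (X i n) * al (pv p) d G ≤ S p := by
    intro p i n
    exact escape (pv p) (one_le_pA p) (pv_add p) hd hG hG1 (hX i) (hXper i) n
  set B : Finset (FinitePlace K) := T ∪ (tv_finite hd hG).toFinset ∪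
    (finite_ne_one hδ).toFinset with hB
  have hTB : T ⊆ B := by
    intro v hv
    rw [hB, Finset.mem_union, Finset.mem_union]
    exact Or.inl (Or.inl hv)
  set P := (Finset.univ : Finset (InfinitePlace K)).disjSum B with hP
  have hSP : ∀ p, p ∉ P → S p = 1 := by
    intro p hp
    rcases p with v | v
    · exact absurd (Finset.inl_mem_disjSum.2 (Finset.mem_univ v)) hp
    · have hv : v ∉ B := fun h => hp (Finset.inr_mem_disjSum.2 h)
      rw [hB, Finset.mem_union, Finset.mem_union, not_or, not_or] at hv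
      obtain ⟨⟨hv1, hv2⟩, hv3⟩ := hv
      rw [Set.Finite.mem_toFinset, Set.mem_ofPred_eq, not_not] at hv2 hv3
      change (1 : ℝ) ^ (d + 1) * max 1 (v.val δ) * Tv v.val d G = 1
      rw [hv2, hv3]
      norm_num
  -- the maximal size
  let s : InfinitePlace K ⊕ T → ℝ := Sum.elim
    (fun v : InfinitePlace K => (v.mult : ℝ) * siz v.val d F δ) (fun v : T => siz v.1.val d F δ)
  obtain ⟨q₁, hq₁⟩ : ∃ q₁, ∀ q, s q ≤ s q₁ := by
    have : Nonempty (InfinitePlace K ⊕ T) := ⟨q⟩
    exact Finite.exists_max s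
  set τ := s q₁ with hτ
  have hs0 : ∀ q, 0 ≤ s q := by
    intro q
    rcases q with v | v
    · exact mul_nonneg (Nat.cast_nonneg _) (log_nonneg (one_le_Tv _ _ _))
    · exact log_nonneg (one_le_Tv _ _ _)
  have hτ0 : 0 ≤ τ := hs0 q₁
  have hh : Height.logHeight₁ δ ≤ H' + τ / 8 := by
    have h1 : s q ≤ τ := hq₁ q
    have h2 : H ≤ H' := le_max_left _ _
    have h3 : Height.logHeight₁ δ ≤ H + s q / 8 := hq
    linarith
  have hTgood : ∀ v, v ∉ T → Tv v.val d G ≤ (v.val (d : K))⁻¹ := fun v hv =>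
    potgood_Tv hd hF v (hT v hv)
  have hsum : ∑ v : InfinitePlace K, v.mult * log (Tv v.val d G) + ∑ v ∈ T, log (Tv v.val d G) ≤
      (D + R) * τ + R := by
    rcases hR' with hc | hc
    · have h1 : ∑ v : InfinitePlace K, v.mult * log (Tv v.val d G) ≤ D * τ := by
        calc _ ≤ ∑ _v : InfinitePlace K, τ := Finset.sum_le_sum fun v _ => hq₁ (Sum.inl v)
          _ = Fintype.card (InfinitePlace K) * τ := by
            rw [Finset.sum_const, Finset.card_univ, nsmul_eq_mul]
          _ ≤ D * τ := by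
            have := card_inf_le hfin
            gcongr
      have h2 : ∑ v ∈ T, log (Tv v.val d G) ≤ R * τ := by
        calc _ ≤ ∑ _v ∈ T, τ := Finset.sum_le_sum fun v hv => hq₁ (Sum.inr ⟨v, hv⟩)
          _ = T.card * τ := by rw [Finset.sum_const, nsmul_eq_mul]
          _ ≤ R * τ := by gcongr
      nlinarith
    · have h1 : s q ≤ τ := hq₁ q
      have h2 : ∑ v : InfinitePlace K, v.mult * log (Tv v.val d G) +
          ∑ v ∈ T, log (Tv v.val d G) ≤ R * (1 + s q) := hc
      have h3 : R * (1 + s q) ≤ R * (1 + τ) := by gcongr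
      have h4 : 0 ≤ D * τ := by positivity
      nlinarith
  have hL : ∑ p ∈ P, pm p * log (S p) ≤ L₀ * R * (1 + τ) := by
    refine (loss_sum hd hfin G δ T B hTB hTgood).trans ?_
    have h1 : (d + 1) * (D * log 2) + Height.logHeight₁ δ + D * log d +
        (∑ v : InfinitePlace K, v.mult * log (Tv v.val d G) + ∑ v ∈ T, log (Tv v.val d G)) ≤
        (d + 1) * (D * log 2) + (H' + τ / 8) + D * log d + ((D + R) * τ + R) := by linarith
    refine h1.trans ?_
    have e1 : ((d : ℝ) + 1) * (D * log 2) ≤ ((d + 1) * (D * log 2)) * R * (1 + τ) := by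
      have : (1 : ℝ) ≤ R * (1 + τ) := by nlinarith
      have h0 : 0 ≤ ((d : ℝ) + 1) * (D * log 2) := by positivity
      nlinarith
    have e2 : H' ≤ H' * R * (1 + τ) := by
      have : (1 : ℝ) ≤ R * (1 + τ) := by nlinarith
      nlinarith
    have e3 : D * log (d : ℝ) ≤ (D * log d) * R * (1 + τ) := by
      have : (1 : ℝ) ≤ R * (1 + τ) := by nlinarith
      have h0 : 0 ≤ D * log (d : ℝ) := by positivity
      nlinarith
    have e4 : τ / 8 ≤ 1 * R * (1 + τ) := by nlinarith
    have e5 : (D : ℝ) * τ ≤ D * R * (1 + τ) := by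
      have h0 : (0 : ℝ) ≤ D := Nat.cast_nonneg _
      have h1 : τ ≤ R * (1 + τ) := by nlinarith
      nlinarith
    have e6 : R * τ + R ≤ 2 * R * (1 + τ) := by nlinarith
    rw [hL₀]
    linarith
  rw [← Fintype.card_coe]
  rcases le_or_gt C₂ τ with hbig | hsmall
  · -- a place of large size
    let q₀ : Pl K := Sum.map id (fun v : T => v.1) q₁
    have hq₀ : pm q₀ * log (Tv (pv q₀) d G) = τ := by
      rcases q₁ with v | v
      · rfl
      · change 1 * log (Tv v.1.val d G) = siz v.1.val d F δ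
        rw [one_mul]
        rfl
    have hh0 : 0 ≤ Height.logHeight₁ δ := Height.zero_le_logHeight₁ δ
    obtain ⟨ρ, cell, hρ, hcell, hγ⟩ := big_place hd hfin hG hG1 q₀ hq₀ rfl
      (by rw [hC₂] at hbig; nlinarith) X hX (fun i n => hS q₀ i n)
    have h1 := ha K hfin hG hδ X hX hinj S hS1 P hSP hS q₀ ρ hρ cell hcell τ R hτ0 hR ?_ hL
    · refine h1.trans ?_
      have := le_max_left Ca Cb
      gcongr
    · refine le_trans ?_ hγ
      rw [div_mul_eq_mul_div, one_mul, div_le_div_iff₀ (by positivity) (by linarith)]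
      have h2 : (1 + τ) ≤ 8 * (τ - 4 * Height.logHeight₁ δ - 2 * (2 + (6 * d + 9)) -
          2 * D * log d) := by
        rw [hC₂, hC₁] at hbig
        nlinarith
      nlinarith
  · -- an auxiliary place above 2
    obtain ⟨v, f, hf1, hf2, hv⟩ := H951R2.MS.exists_place_above hfin Nat.prime_two
    have hv' : Ideal.absNorm v.maximalIdeal.asIdeal ≤ 2 ^ D := by
      rw [hv]
      exact Nat.pow_le_pow_right (by norm_num) hf2
    have hal := al_pos v.val hd hG
    have hSpos : 0 < S (Sum.inr v) := lt_of_lt_of_le one_pos (hS1 _)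
    obtain ⟨cell, hcell⟩ := hM' K v hv' (S (Sum.inr v) / al v.val d G) (by positivity)
    have hcb' : ∀ i n, v (X i n) ≤ S (Sum.inr v) / al v.val d G := by
      intro i n
      rw [le_div_iff₀ hal]
      exact hS (Sum.inr v) i n
    have hlogS : log (S (Sum.inr v)) ≤ C₃ := by
      have h1 : S (Sum.inr v) = max 1 (v.val δ) * Tv v.val d G := by
        change (1 : ℝ) ^ (d + 1) * max 1 (v.val δ) * Tv v.val d G = _
        rw [one_pow, one_mul]
      rw [h1, log_mul (lt_of_lt_of_le one_pos (le_max_left _ _)).ne'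
        (lt_of_lt_of_le one_pos (one_le_Tv _ _ _)).ne']
      have h2 : log (max 1 (v.val δ)) ≤ H' + C₂ := by
        have h3 := single_height δ (Sum.inr v : Pl K)
        change 1 * log (max 1 (v.val δ)) ≤ _ at h3
        linarith
      have h3 : log (Tv v.val d G) ≤ C₂ + D * log d := by
        by_cases hvT : v ∈ T
        · have h4 : log (Tv v.val d G) ≤ τ := hq₁ (Sum.inr ⟨v, hvT⟩)
          have : 0 ≤ D * log (d : ℝ) := by positivity
          linarith
        · have h4 := log_le_log (lt_of_lt_of_le one_pos (one_le_Tv _ _ _)) (hTgood v hvT)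
          have h5 := sum_log_nat (K := K) (by omega : 1 ≤ d) {v}
          rw [Finset.sum_singleton] at h5
          have h6 : (Module.finrank ℚ K : ℝ) * log d ≤ D * log d := by
            have : (Module.finrank ℚ K : ℝ) ≤ D := by exact_mod_cast hfin
            gcongr
          linarith
      rw [hC₃]
      linarith
    set A' : ℝ := C₃ + (H' + C₂) + 1 with hA'
    have h1 := hb K hfin hG hδ X hX hinj S hS1 P hSP hS (Sum.inr v) (exp (-A') * S (Sum.inr v))
      (by positivity) (fun i => finProdFinEquiv (cell (X i 0), cell (X i 1))) ?_ τ R hτ0 hR ?_ hL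
    · refine h1.trans ?_
      have := le_max_right Ca Cb
      gcongr
    · intro i j hij n hn
      have h2 := finProdFinEquiv.injective hij
      rw [Prod.mk.injEq] at h2
      have h3 : cell (X i n) = cell (X j n) := by
        rcases hn with rfl | rfl
        · exact h2.1
        · exact h2.2
      have h4 := hcell _ _ (hcb' i n) (hcb' j n) h3
      change v (X i n - X j n) * al v.val d G ≤ _
      calc v (X i n - X j n) * al v.val d G ≤
          exp (-A') * (S (Sum.inr v) / al v.val d G) * al v.val d G := by gcongr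
        _ = exp (-A') * S (Sum.inr v) := by field_simp
    · have h2 : pm (Sum.inr v : Pl K) = 1 := rfl
      rw [h2, one_mul, log_mul (exp_pos _).ne' hSpos.ne', log_exp]
      have h3 : log (max 1 (pv (Sum.inr v : Pl K) δ)⁻¹) ≤ H' + C₂ := by
        have h4 := single_height δ⁻¹ (Sum.inr v : Pl K)
        rw [Height.logHeight₁_inv, map_inv₀, h2, one_mul] at h4
        linarith
      have h4 : log (max 1 (pv (Sum.inr v : Pl K) δ)⁻¹) / ((d : ℝ) - 1) ≤ H' + C₂ := by
        have h5 : 0 ≤ log (max 1 (pv (Sum.inr v : Pl K) δ)⁻¹) := log_nonneg (le_max_left _ _)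
        exact (div_le_self h5 hd1).trans h3
      have h5 : 1 / (1 + C₂) * (1 + τ) ≤ 1 := by
        rw [div_mul_eq_mul_div, one_mul, div_le_one (by positivity)]
        linarith
      linarith

end Pool.Agent.H951R3.PH
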