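import Pool.Agent.H951R3.PH.Defs

/-!
# Periodic points of generalized Henon maps: statements to be proved (helper951)
-/

set_option autoImplicit false

namespace Pool.Agent.H951R3.PH.Stubs

open Real NumberField Polynomial

universe u

section algebra

variable {K : Type u} [Field K] {A : Type*} [CommRing A] [Algebra K A]

/-! A1 -/

theorem fs_mono {x y : A} {m n : ℕ} (h : m ≤ n) : Fs K x y m ≤ Fs K x y n := sorry

theorem fs_mul {x y f g : A} {m n : ℕ} (hf : f ∈ Fs K x y (m + 1)) (hg : g ∈ Fs K x y (n + 1)) :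
    f * g ∈ Fs K x y (m + n + 1) := sorry

theorem lt_mem {x y f : A} {c : K} {a b : ℕ} (h : LT K x y f c a b) :
    f ∈ Fs K x y (a + b + 1) := sorry

theorem lt_mul {x y f g : A} {c c' : K} {a b a' b' : ℕ} (h : LT K x y f c a b)
    (h' : LT K x y g c' a' b') : LT K x y (f * g) (c * c') (a + a') (b + b') := sorry

theorem lt_aeval {F : K[X]} {d : ℕ} (hd : 1 ≤ d) (hF : F.natDegree = d) {x y f : A} {c : K}
    {a b : ℕ} (hab : 1 ≤ a + b) (h : LT K x y f c a b) :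
    LT K x y (aeval f F) (F.coeff d * c ^ d) (d * a) (d * b) := sorry

theorem lt_trans' (x y : A) (s t : K) (a b : ℕ) :
    LT K x y ((x - algebraMap K A s) ^ a * (y - algebraMap K A t) ^ b) 1 a b := sorry

/-! A2 -/

theorem lt_fwd {F : K[X]} {d : ℕ} (hd : 2 ≤ d) (hF : F.natDegree = d) {δ : K} {x : ℤ → A}
    (hx : Orb F δ x) (k : ℕ) :
    LT K (x 0) (x 1) (x (1 + k)) (F.coeff d ^ ex d k) 0 (d ^ k) := sorry

theorem lt_bwd {F : K[X]} {d : ℕ} (hd : 2 ≤ d) (hF : F.natDegree = d) {δ : K} (hδ : δ ≠ 0)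
    {x : ℤ → A} (hx : Orb F δ x) (k : ℕ) :
    LT K (x 0) (x 1) (x (-k)) ((F.coeff d / δ) ^ ex d k) (d ^ k) 0 := sorry

/-! A3 -/

theorem digits {d : ℕ} (hd : 2 ≤ d) (n : ℕ) : ∃ ks : Multiset ℕ,
    (ks.map (fun k => d ^ k)).sum = n ∧ ks.card ≤ (d - 1) * (Nat.log d n + 1) ∧
      (d - 1) * (ks.map (ex d)).sum + ks.card = n := sorry

end algebra

/-! A4 -/

theorem basis {K : Type u} [Field K] {N : ℕ} {F : K[X]} {d : ℕ} (hd : 2 ≤ d)
    (hF : F.natDegree = d) {δ : K} (hδ : δ ≠ 0) {x : ℤ → Fin N → K} (hx : Orb F δ x) (a b : ℕ) :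
    ∃ (E E' s s' : ℕ) (p : Fin N → K), (d - 1) * E + s = a ∧ (d - 1) * E' + s' = b ∧
      s ≤ (d - 1) * (Nat.log d a + 1) ∧ s' ≤ (d - 1) * (Nat.log d b + 1) ∧
      LT K (x 0) (x 1) p ((F.coeff d / δ) ^ E * F.coeff d ^ E') a b ∧
      ∀ (v : AbsoluteValue K ℝ) (M : ℝ), (∀ n i, v (x n i) ≤ M) → ∀ i, v (p i) ≤ M ^ (s + s') :=
  sorry

/-! B1 -/

theorem graded_basis {k : Type u} [Field k] {V : Type*} [AddCommGroup V] [Module k V]
    [FiniteDimensional k V] {ι : Type*} (deg : ι → ℕ) (m : ι → V)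
    (hs : Submodule.span k (Set.range m) = ⊤) :
    ∃ e : Fin (Module.finrank k V) → ι, LinearIndependent k (m ∘ e) ∧
      ∀ n, Submodule.span k {f | ∃ j, deg j < n ∧ f = m j} ≤
        Submodule.span k {f | ∃ i, deg (e i) < n ∧ f = m (e i)} := sorry

/-! B2 -/

theorem det_identity {k : Type u} [Field k] {N : ℕ} (deg : Fin N → ℕ) (m : Fin N → Fin N → k)
    (c : Fin N → k) (p : Fin N → Fin N → k)
    (h : ∀ i, p i - c i • m i ∈ Submodule.span k {f | ∃ j, deg j < deg i ∧ f = m j}) :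
    (Matrix.of p).det = (∏ i, c i) * (Matrix.of m).det := sorry

/-! B3 -/

theorem interp {K : Type u} [Field K] {N : ℕ} (x y : Fin N → K)
    (h : ∀ i j, x i = x j → y i = y j → i = j) :
    ∃ e : Fin N → ℕ × ℕ, Function.Injective e ∧ (∀ i, (e i).1 + (e i).2 < N) ∧
      (Matrix.of fun i j => x j ^ (e i).1 * y j ^ (e i).2).det ≠ 0 ∧
      ∀ (c : Fin N → K) (p : Fin N → Fin N → K),
        (∀ i, LT K x y (p i) (c i) (e i).1 (e i).2) →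
        (Matrix.of p).det =
          (∏ i, c i) * (Matrix.of fun i j => x j ^ (e i).1 * y j ^ (e i).2).det := sorry

/-! C1 -/

theorem detBd_fact {K : Type u} [Field K] (v : AbsoluteValue K ℝ) (N : ℕ) :
    DetBd v N N.factorial := sorry

theorem detBd_na {K : Type u} [Field K] {v : AbsoluteValue K ℝ} (hv : IsNonarchimedean v)
    (N : ℕ) : DetBd v N 1 := sorry

theorem comb {N : ℕ} (hN : 4 ≤ N) (e : Fin N → ℕ × ℕ) (he : Function.Injective e) :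
    (N : ℝ) * √N ≤ 8 * ((∑ i, ((e i).1 + (e i).2) : ℕ) : ℝ) := sorry

/-! C2 -/

theorem package {K : Type u} [Field K] {N : ℕ} {F : K[X]} {d : ℕ} (hd : 2 ≤ d)
    (hF : F.natDegree = d) {δ : K} (hδ : δ ≠ 0) {x : ℤ → Fin N → K} (hx : Orb F δ x)
    (hinj : ∀ i j, x 0 i = x 0 j → x 1 i = x 1 j → i = j) :
    ∃ (Δ : K) (Λ σ E : ℕ), Δ ≠ 0 ∧ (4 ≤ N → (N : ℝ) * √N ≤ 8 * Λ) ∧
      (σ : ℝ) ≤ 2 * N * ((d : ℝ) - 1) * (Nat.log d N + 1) ∧ (d - 1) * E ≤ Λ ∧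
      (∀ (v : AbsoluteValue K ℝ) (κ S : ℝ), DetBd v N κ → 1 ≤ S →
        (∀ n i, v (x n i) * al v d F ≤ S) →
        log (v Δ) ≤ log κ + σ * log S - Λ / ((d : ℝ) - 1) * log (v (F.coeff d)) +
          E * log (v δ)) ∧
      (∀ (v : AbsoluteValue K ℝ) (κ ρ : ℝ), DetBd v N κ → 0 < ρ →
        (∀ i j, v (x 0 i - x 0 j) * al v d F ≤ ρ) → (∀ i j, v (x 1 i - x 1 j) * al v d F ≤ ρ) →
        log (v Δ) ≤ log κ + Λ * (log ρ - log (v (F.coeff d)) / ((d : ℝ) - 1))) := sorry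

section places

variable {K : Type u} [Field K] [NumberField K]

/-! D1 -/

theorem prod_formula {x : K} (hx : x ≠ 0) (P : Finset (Pl K))
    (hinf : ∀ v : InfinitePlace K, Sum.inl v ∈ P) (hfin : ∀ p : Pl K, p ∉ P → pv p x = 1) :
    ∑ p ∈ P, pm p * log (pv p x) = 0 := sorry

theorem finite_ne_one {x : K} (hx : x ≠ 0) : {v : FinitePlace K | v.val x ≠ 1}.Finite := sorry

theorem sum_height (δ : K) (P : Finset (Pl K)) :
    ∑ p ∈ P, pm p * log (max 1 (pv p δ)) ≤ Height.logHeight₁ δ := sorry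

theorem single_height (δ : K) (p : Pl K) :
    pm p * log (max 1 (pv p δ)) ≤ Height.logHeight₁ δ := sorry

theorem sum_log_nat {d : ℕ} (hd : 1 ≤ d) (P : Finset (FinitePlace K)) :
    ∑ v ∈ P, log ((v.val (d : K))⁻¹) ≤ Module.finrank ℚ K * log d := sorry

/-! D2 -/

theorem one_le_pm (p : Pl K) : 1 ≤ pm p := sorry

theorem one_le_pA (p : Pl K) : 1 ≤ pA p := sorry

theorem pv_add (p : Pl K) (x y : K) : pv p (x + y) ≤ pA p * max (pv p x) (pv p y) := sorry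

theorem detBd_pk (N : ℕ) (p : Pl K) : DetBd (pv p) N (pk N p) := sorry

theorem sum_pk (N : ℕ) (P : Finset (Pl K)) :
    ∑ p ∈ P, pm p * log (pk N p) ≤ Module.finrank ℚ K * log N.factorial := sorry

theorem sum_pA (P : Finset (Pl K)) :
    ∑ p ∈ P, pm p * log (pA p) ≤ Module.finrank ℚ K * log 2 := sorry

theorem exists_ext (p : Pl K) : ∃ w : AbsoluteValue (AlgebraicClosure K) ℝ, PB.Ext (pv p) w ∧
    ∀ x y, w (x + y) ≤ pA p * max (w x) (w y) := sorry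

/-! D3 -/

theorem core {d : ℕ} (hd : 2 ≤ d) {F : K[X]} (hF : F.natDegree = d) {δ : K} (hδ : δ ≠ 0)
    {N : ℕ} {x : ℤ → Fin N → K} (hx : Orb F δ x)
    (hinj : ∀ i j, x 0 i = x 0 j → x 1 i = x 1 j → i = j)
    (S : Pl K → ℝ) (hS1 : ∀ p, 1 ≤ S p) (P : Finset (Pl K)) (hSP : ∀ p, p ∉ P → S p = 1)
    (hS : ∀ p n i, pv p (x n i) * al (pv p) d F ≤ S p)
    (q : Pl K) {ρ : ℝ} (hρ : 0 < ρ)
    (h0 : ∀ i j, pv q (x 0 i - x 0 j) * al (pv q) d F ≤ ρ)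
    (h1 : ∀ i j, pv q (x 1 i - x 1 j) * al (pv q) d F ≤ ρ) :
    ∃ Λ : ℕ, (4 ≤ N → (N : ℝ) * √N ≤ 8 * Λ) ∧
      Λ * (pm q * (-log ρ - log (max 1 (pv q δ)⁻¹) / ((d : ℝ) - 1))) ≤
        Module.finrank ℚ K * log N.factorial +
          2 * N * ((d : ℝ) - 1) * (Nat.log d N + 1) * ∑ p ∈ P, pm p * log (S p) := sorry

end places

/-! E1 -/

theorem escape {K : Type u} [Field K] (v : AbsoluteValue K ℝ) {A : ℝ} (hA : 1 ≤ A)
    (hv : ∀ x y, v (x + y) ≤ A * max (v x) (v y)) {d : ℕ} (hd : 2 ≤ d) {F : K[X]}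
    (hF : F.natDegree = d) (hF1 : F.coeff (d - 1) = 0) {δ : K} {x : ℤ → K} (hx : Orb F δ x)
    (hper : ∃ m : ℕ, 0 < m ∧ ∀ n, x (n + m) = x n) (n : ℤ) :
    v (x n) * al v d F ≤ A ^ (d + 1) * max 1 (v δ) * Tv v d F := sorry

/-! E2 -/

theorem root_far {L : Type u} [Field L] (w : AbsoluteValue L ℝ) {A : ℝ} (hA : 1 ≤ A)
    (hw : ∀ x y, w (x + y) ≤ A * max (w x) (w y)) {d : ℕ} (hd : 2 ≤ d) (hd0 : w (d : L) ≠ 0)
    {G : L[X]} (hG1 : G.coeff (d - 1) = 0) {T : ℝ} (hT : 1 ≤ T)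
    (hc : ∃ j < d, w (G.coeff j) = T ^ (d - j)) {c : L} (hc0 : w c ≤ T ^ d / (2 * A))
    (θ : Fin d → L) (hθ : G - C c = ∏ i, (X - C (θ i))) (x : L) :
    ∃ i, w (d : L) / (2 * A ^ (2 * d + 3)) * T ≤ w (x - θ i) := sorry

/-! E3 -/

theorem cells {L : Type u} [Field L] [IsAlgClosed L] (w : AbsoluteValue L ℝ) {A : ℝ} (hA : 1 ≤ A)
    (hw : ∀ x y, w (x + y) ≤ A * max (w x) (w y)) {d : ℕ} (hd : 2 ≤ d) (hd0 : w (d : L) ≠ 0)
    {G : L[X]} (hG : G.Monic) (hGd : G.natDegree = d) (hG1 : G.coeff (d - 1) = 0) {T : ℝ}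
    (hc : ∃ j < d, w (G.coeff j) = T ^ (d - j)) {δ : L} {B : ℝ} (hB : 1 ≤ B) (hδ : w δ ≤ B)
    (hT : 2 * A ^ (d + 3) * B ^ 2 ≤ T) {ι : Type*} (x : ι → ℤ → L)
    (hx : ∀ i n, x i (n + 1) + δ * x i (n - 1) = G.eval (x i n))
    (hS : ∀ i n, w (x i n) ≤ A ^ (d + 1) * B * T) :
    ∃ cell : ι → Fin (d ^ 6), ∀ i j, cell i = cell j → ∀ n : ℤ, n = 0 ∨ n = 1 →
      w (x i n - x j n) ^ (d - 1) ≤ 4 * A ^ (6 * d + 9) * B ^ 3 / (w (d : L) ^ 2 * T) := sorry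

/-! E4 -/

theorem cellsK {K : Type u} [Field K] [NumberField K] (p : Pl K) {d : ℕ} (hd : 2 ≤ d) {F : K[X]}
    (hF : F.natDegree = d) (hF1 : F.coeff (d - 1) = 0) {δ : K}
    (hT : 2 * pA p ^ (d + 3) * max 1 (pv p δ) ^ 2 ≤ Tv (pv p) d F) {ι : Type*} (x : ι → ℤ → K)
    (hx : ∀ i, Orb F δ (x i))
    (hS : ∀ i n, pv p (x i n) * al (pv p) d F ≤
      pA p ^ (d + 1) * max 1 (pv p δ) * Tv (pv p) d F) :
    ∃ cell : ι → Fin (d ^ 6), ∀ i j, cell i = cell j → ∀ n : ℤ, n = 0 ∨ n = 1 →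
      (pv p (x i n - x j n) * al (pv p) d F) ^ (d - 1) ≤
        4 * pA p ^ (6 * d + 9) * max 1 (pv p δ) ^ 3 / (pv p (d : K) ^ 2 * Tv (pv p) d F) := sorry

/-! E5 -/

section tv

variable {K : Type u} [Field K]

theorem one_le_Tv (v : AbsoluteValue K ℝ) (d : ℕ) (F : K[X]) : 1 ≤ Tv v d F := sorry

theorem tv_coeff (v : AbsoluteValue K ℝ) {d : ℕ} (hd : 2 ≤ d) {F : K[X]} (hF : F.natDegree = d)
    (hF1 : F.coeff (d - 1) = 0) {j : ℕ} (hj : j < d) :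
    v (F.coeff j) / v (F.coeff d) ≤ (Tv v d F / al v d F) ^ (d - j) := sorry

theorem tv_attained (v : AbsoluteValue K ℝ) {d : ℕ} (hd : 2 ≤ d) {F : K[X]}
    (hF : F.natDegree = d) (h1 : 1 < Tv v d F) :
    ∃ j < d, v (F.coeff j) / v (F.coeff d) = (Tv v d F / al v d F) ^ (d - j) := sorry

theorem tv_finite {K : Type u} [Field K] [NumberField K] {d : ℕ} (hd : 2 ≤ d) {F : K[X]}
    (hF : F.natDegree = d) : {v : FinitePlace K | Tv v.val d F ≠ 1}.Finite := sorry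

/-! E6 -/

variable [CharZero K]

theorem cen_natDegree {d : ℕ} (hd : 2 ≤ d) {F : K[X]} (hF : F.natDegree = d) (δ : K) :
    (cen d F δ).natDegree = d := sorry

theorem cen_lead {d : ℕ} (hd : 2 ≤ d) {F : K[X]} (hF : F.natDegree = d) (δ : K) :
    (cen d F δ).coeff d = F.coeff d := sorry

theorem cen_coeff {d : ℕ} (hd : 2 ≤ d) {F : K[X]} (hF : F.natDegree = d) (δ : K) :
    (cen d F δ).coeff (d - 1) = 0 := sorry

theorem cen_orb {d : ℕ} {F : K[X]} {δ : K} {x : ℤ → K} (hx : Orb F δ x) :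
    Orb (cen d F δ) δ (fun n => x n - ctr d F) := sorry

end tv

/-! E7 -/

theorem potgood_Tv {K : Type u} [Field K] [NumberField K] {d : ℕ} (hd : 2 ≤ d) {F : K[X]}
    (hF : F.natDegree = d) {δ : K} (v : FinitePlace K) (h : PotGood v.val d F δ) :
    Tv v.val d (cen d F δ) ≤ (v.val (d : K))⁻¹ := sorry

/-! E8 -/

theorem orbit_of_periodic {K : Type u} [Field K] (F : K[X]) (δ : K) (P : K × K) {m : ℕ}
    (hm : 0 < m) (h : (hen F δ)^[m] P = P) :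
    ∃ x : ℤ → K, Orb F δ x ∧ x 0 = P.1 ∧ x 1 = P.2 ∧ ∀ n, x (n + m) = x n := sorry

/-! F1 -/

theorem solve {C : ℝ} (hC : 0 < C) : ∃ C' : ℝ, 0 < C' ∧ ∀ (N : ℕ) (R : ℝ), 1 ≤ R → 1 ≤ N →
    √(N : ℝ) ≤ C * R * (1 + log N) → (N : ℝ) ≤ C' * (R * log (1 + R)) ^ 2 := sorry

end Pool.Agent.H951R3.PH.Stubs
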